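import Mathlib

/-!
The arithmetic of columns that are sent to other levels.
-/

open Polynomial Finset

noncomputable section

namespace Pool.Agent.Lib.MP_44626f_nt.FF

theorem side_nat_sum (s : Finset ℕ) : ((#s : ℕ) : ℝ) ^ 2 - (#s : ℕ) ≤ 2 * ∑ x ∈ s, (x : ℝ) := by
  induction s using Finset.induction_on_max with
  | empty => simp
  | insert a s hs ih =>
    have ha : a ∉ s := fun h => lt_irrefl _ (hs a h)
    have hc : #s ≤ a := by
      have : s ⊆ range a := fun x hx => mem_range.2 (hs x hx)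
      simpa using card_le_card this
    have hc' : ((#s : ℕ) : ℝ) ≤ a := by exact_mod_cast hc
    rw [sum_insert ha, card_insert_of_notMem ha]
    push_cast
    nlinarith

theorem side_inj_sum {α : Type*} (s : Finset α) (f : α → ℕ) (hf : Set.InjOn f s) :
    ((#s : ℕ) : ℝ) ^ 2 - (#s : ℕ) ≤ 2 * ∑ x ∈ s, (f x : ℝ) := by
  have h := side_nat_sum (s.image f)
  rw [card_image_of_injOn hf, sum_image (fun x hx y hy h => hf hx hy h)] at h
  exact h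

theorem side_small (a0 a1 a2 : ℕ) (h : a0 + a1 + a2 ≤ 4) (h1 : 1 ≤ a0 + a1 + a2) :
    (1 / 10 : ℝ) ≤ 69 / 20 * ((a0 : ℝ) + a1 + a2) - ((a0 : ℝ) + a1 + a2) ^ 2 / 3
      - 4 * |(a2 : ℝ) - a0| + ((a0 : ℝ) ^ 2 + (a1 : ℝ) ^ 2 + (a2 : ℝ) ^ 2) := by
  have h0 : a0 ≤ 4 := by omega
  have h1' : a1 ≤ 4 := by omega
  have h2 : a2 ≤ 4 := by omega
  interval_cases a0 <;> interval_cases a1 <;> interval_cases a2 <;>
    first
      | omega
      | norm_num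

theorem side_sq3 (a b c : ℝ) : (a + b + c) ^ 2 / 3 ≤ a ^ 2 + b ^ 2 + c ^ 2 := by
  nlinarith [sq_nonneg (a - b), sq_nonneg (a - c), sq_nonneg (b - c)]

theorem side_sq3' (a b c : ℝ) :
    (a + b + c) ^ 2 / 3 + (c - a) ^ 2 / 2 ≤ a ^ 2 + b ^ 2 + c ^ 2 := by
  nlinarith [sq_nonneg (a + c - 2 * b)]

theorem side_arith {n δ ε : ℝ} (a0 a1 a2 y0 y1 y2 : ℕ) (E0 E1 E2 : ℝ) (hn : 4000 ≤ n)
    (hδ : δ * n = 69 / 60) (hε : ε = 1 ∨ ε = -1) (h0 : (y0 : ℝ) ≤ E0) (h1 : (y1 : ℝ) ≤ E1)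
    (h2 : (y2 : ℝ) ≤ E2)
    (hm : 2 * (((a0 : ℝ) + y0) + ((a1 : ℝ) + y1) + ((a2 : ℝ) + y2)) ≤ 3 * n) :
    0 ≤ (1 / 3 + δ) * ((3 * n - (((a0 : ℝ) + y0) + ((a1 : ℝ) + y1) + ((a2 : ℝ) + y2)))
          * ((((a0 : ℝ) + y0) + ((a1 : ℝ) + y1) + ((a2 : ℝ) + y2)) + (E0 + E1 + E2))
          + ((a0 : ℝ) + a1 + a2) * (E0 + E1 + E2))
        + 4 * ε * ((((a2 : ℝ) + y2) + E2) - (((a0 : ℝ) + y0) + E0))
        - (((a0 : ℝ) + y0) + ((a1 : ℝ) + y1) + ((a2 : ℝ) + y2)) * (n - 1)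
        + ((((a0 : ℝ) + y0) ^ 2 - ((a0 : ℝ) + y0)) + (((a1 : ℝ) + y1) ^ 2 - ((a1 : ℝ) + y1))
            + (((a2 : ℝ) + y2) ^ 2 - ((a2 : ℝ) + y2))) / 2
        + (((a0 : ℝ) ^ 2 - a0) + ((a1 : ℝ) ^ 2 - a1) + ((a2 : ℝ) ^ 2 - a2)) / 2 := by
  have hδ0 : 0 ≤ δ := by
    by_contra hc
    push Not at hc
    nlinarith
  have pa0 : (0 : ℝ) ≤ a0 := Nat.cast_nonneg _
  have pa1 : (0 : ℝ) ≤ a1 := Nat.cast_nonneg _
  have pa2 : (0 : ℝ) ≤ a2 := Nat.cast_nonneg _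
  have py0 : (0 : ℝ) ≤ y0 := Nat.cast_nonneg _
  have py1 : (0 : ℝ) ≤ y1 := Nat.cast_nonneg _
  have py2 : (0 : ℝ) ≤ y2 := Nat.cast_nonneg _
  obtain ⟨m1, hm1⟩ : ∃ m1 : ℝ, m1 = (a0 : ℝ) + a1 + a2 := ⟨_, rfl⟩
  obtain ⟨y, hy⟩ : ∃ y : ℝ, y = (y0 : ℝ) + y1 + y2 := ⟨_, rfl⟩
  obtain ⟨E, hE⟩ : ∃ E : ℝ, E = E0 + E1 + E2 := ⟨_, rfl⟩
  obtain ⟨mu, hmu⟩ : ∃ mu : ℝ, mu = ((a0 : ℝ) + y0) + ((a1 : ℝ) + y1) + ((a2 : ℝ) + y2) :=
    ⟨_, rfl⟩
  obtain ⟨d, hd⟩ : ∃ d : ℝ, d = |(a2 : ℝ) - a0| := ⟨_, rfl⟩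
  have hd2 : d ^ 2 = ((a2 : ℝ) - a0) ^ 2 := by rw [hd, sq_abs]
  have hda : (a2 : ℝ) - a0 ≤ d := hd ▸ le_abs_self _
  have hdb : -((a2 : ℝ) - a0) ≤ d := hd ▸ neg_le_abs _
  have hmu' : mu = m1 + y := by rw [hmu, hm1, hy]; ring
  have pm1 : 0 ≤ m1 := by rw [hm1]; positivity
  have py : 0 ≤ y := by rw [hy]; positivity
  have hyE : y ≤ E := by rw [hy, hE]; linarith
  have pE : 0 ≤ E := py.trans hyE
  have pmu : 0 ≤ mu := by rw [hmu']; positivity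
  rw [← hmu, ← hE, ← hm1]
  rw [← hmu] at hm
  have e1 : (1 / 3 + δ) * ((3 * n - mu) * mu) = (n + 69 / 20) * mu - mu ^ 2 / 3 - δ * mu ^ 2 := by
    linear_combination (3 * mu) * hδ
  have e2 : n / 2 * E ≤ (1 / 3 + δ) * ((3 * n - mu) * E) := by
    have a : 3 * n / 2 * E ≤ (3 * n - mu) * E := mul_le_mul_of_nonneg_right (by linarith) pE
    have b : 0 ≤ δ * ((3 * n - mu) * E) := mul_nonneg hδ0 (mul_nonneg (by linarith) pE)
    linarith only [a, b]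
  have e3 : m1 * y / 3 ≤ (1 / 3 + δ) * (m1 * E) := by
    have a : m1 * y ≤ m1 * E := mul_le_mul_of_nonneg_left hyE pm1
    have b : 0 ≤ δ * (m1 * E) := mul_nonneg hδ0 (mul_nonneg pm1 pE)
    linarith only [a, b]
  have e4 : δ * mu ^ 2 ≤ 69 / 40 * mu := by
    have a : δ * mu * mu ≤ δ * mu * (3 * n / 2) :=
      mul_le_mul_of_nonneg_left (by linarith) (mul_nonneg hδ0 pmu)
    have b : δ * mu * (3 * n / 2) = 69 / 40 * mu := by linear_combination (3 / 2 * mu) * hδ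
    linarith only [a, b]
  have e5 : -4 * d - 8 * E ≤ 4 * ε * ((((a2 : ℝ) + y2) + E2) - (((a0 : ℝ) + y0) + E0)) := by
    rcases hε with rfl | rfl <;> linarith
  have e6 : mu ^ 2 / 3 ≤ ((a0 : ℝ) + y0) ^ 2 + ((a1 : ℝ) + y1) ^ 2 + ((a2 : ℝ) + y2) ^ 2 := by
    rw [hmu]
    exact side_sq3 _ _ _
  have e7 : m1 ^ 2 / 3 + d ^ 2 / 2 ≤ (a0 : ℝ) ^ 2 + (a1 : ℝ) ^ 2 + (a2 : ℝ) ^ 2 := by
    rw [hm1, hd2]
    exact side_sq3' _ _ _
  have e8 : y ^ 2 ≤ 3 * n / 2 * E := by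
    have a : y * y ≤ 3 * n / 2 * y := mul_le_mul_of_nonneg_right (by linarith) py
    have b : 3 * n / 2 * y ≤ 3 * n / 2 * E := mul_le_mul_of_nonneg_left hyE (by linarith)
    linarith only [a, b]
  have e9 : 2000 * E ≤ n / 2 * E := mul_le_mul_of_nonneg_right (by linarith) pE
  have ex : (1 / 3 + δ) * ((3 * n - mu) * (mu + E) + m1 * E)
      = (1 / 3 + δ) * ((3 * n - mu) * mu) + (1 / 3 + δ) * ((3 * n - mu) * E)
        + (1 / 3 + δ) * (m1 * E) := by ring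
  have emu : mu ^ 2 = m1 ^ 2 + 2 * (m1 * y) + y ^ 2 := by rw [hmu']; ring
  have ed : -16 ≤ d ^ 2 / 4 - 4 * d := by linarith only [sq_nonneg (d - 8)]
  have ed' : -8 ≤ d ^ 2 / 2 - 4 * d := by linarith only [sq_nonneg (d - 4)]
  rw [ex, e1]
  by_cases hy0 : y0 + y1 + y2 = 0
  · have z0 : y0 = 0 := by omega
    have z1 : y1 = 0 := by omega
    have z2 : y2 = 0 := by omega
    subst z0 z1 z2
    simp only [Nat.cast_zero, add_zero] at *
    have hmm : m1 = mu := by rw [hmu, hm1]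
    subst hy
    subst hmm
    by_cases h5 : 5 ≤ a0 + a1 + a2
    · have h5' : (5 : ℝ) ≤ m1 := by rw [hm1]; exact_mod_cast h5
      linarith
    · by_cases h6 : a0 + a1 + a2 = 0
      · have z0 : a0 = 0 := by omega
        have z1 : a1 = 0 := by omega
        have z2 : a2 = 0 := by omega
        subst z0 z1 z2
        simp only [Nat.cast_zero, add_zero, sub_zero, abs_zero] at *
        subst hm1 hd
        nlinarith
      · have hs := side_small a0 a1 a2 (by omega) (by omega)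
        rw [← hm1, ← hd] at hs
        have h4 : m1 ≤ 4 := by
          rw [hm1]
          have : a0 + a1 + a2 ≤ 4 := by omega
          exact_mod_cast this
        have h16 : m1 ^ 2 ≤ 16 := by nlinarith only [h4, pm1]
        have hδ1 : δ ≤ 1 / 1000 := by nlinarith only [hδ, hn, hδ0]
        have : δ * m1 ^ 2 ≤ 1 / 1000 * 16 := mul_le_mul hδ1 h16 (by positivity) (by norm_num)
        linarith
  · have hy1 : (1 : ℝ) ≤ y := by
      rw [hy]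
      have : 1 ≤ y0 + y1 + y2 := by omega
      exact_mod_cast this
    linarith

theorem side_abs (u w : ℕ) :
    (if u = 0 then 1 else 0 : ℝ) * w + (u : ℝ) * (if w = 0 then 1 else 0 : ℝ)
      + (if u = 1 then 1 else 0 : ℝ) * ((w - 1 : ℕ) : ℝ)
      + ((u - 1 : ℕ) : ℝ) * (if w = 1 then 1 else 0 : ℝ) ≤ |(u : ℝ) - w| := by
  rcases u with _ | _ | u <;> rcases w with _ | _ | w
  · simp
  · simp
  · simp only [Nat.cast_zero, zero_sub, abs_neg]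
    rw [abs_of_nonneg (by positivity)]
    simp
  · simp
  · simp
  · rw [abs_sub_comm, abs_of_nonneg (by push_cast; linarith [(Nat.cast_nonneg w : (0 : ℝ) ≤ w)])]
    simp
  · simp only [Nat.cast_zero, sub_zero]
    rw [abs_of_nonneg (by positivity)]
    simp
  · rw [abs_of_nonneg (by push_cast; linarith [(Nat.cast_nonneg u : (0 : ℝ) ≤ u)])]
    simp
  · simp

theorem side_col {N : ℕ} (κ j : Fin N → ℕ)
    (hinj : ∀ b b', κ b = 1 → κ b' = 1 → j b = j b' → b = b') :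
    ∃ (a y : ℕ) (E : ℝ), (y : ℝ) ≤ E ∧
      ∑ b, (if κ b = 0 then 1 else 0 : ℝ) = N - ((a : ℝ) + y) ∧
      ∑ b, (if κ b = 1 then 1 else 0 : ℝ) = a ∧
      ∑ b, ((κ b - 1 : ℕ) : ℝ) = E ∧
      ∑ b, (κ b : ℝ) = ((a : ℝ) + y) + E ∧
      ∑ b, (if 0 < κ b then 1 else 0 : ℝ) = (a : ℝ) + y ∧
      ∑ b, (if κ b = 0 then 0 else ((b : ℕ) : ℝ) - j b)
        ≤ ((a : ℝ) + y) * (N - 1) - (((a : ℝ) + y) ^ 2 - ((a : ℝ) + y)) / 2
          - ((a : ℝ) ^ 2 - a) / 2 := by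
  have ha : ∑ b, (if κ b = 1 then 1 else 0 : ℝ) = ((#{b | κ b = 1} : ℕ) : ℝ) := by simp
  have hy : ∑ b, (if 2 ≤ κ b then 1 else 0 : ℝ) = ((#{b | 2 ≤ κ b} : ℕ) : ℝ) := by simp
  have hp : ∑ b, (if 0 < κ b then 1 else 0 : ℝ) = ((#{b | 0 < κ b} : ℕ) : ℝ) := by simp
  have hp' : ∑ b, (if 0 < κ b then 1 else 0 : ℝ)
      = ((#{b | κ b = 1} : ℕ) : ℝ) + ((#{b | 2 ≤ κ b} : ℕ) : ℝ) := by
    rw [← ha, ← hy, ← sum_add_distrib]
    refine sum_congr rfl fun b _ => ?_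
    rcases κ b with _ | _ | u <;> simp
  refine ⟨#{b | κ b = 1}, #{b | 2 ≤ κ b}, ∑ b, ((κ b - 1 : ℕ) : ℝ), ?_, ?_, ha, rfl, ?_, hp', ?_⟩
  · rw [← hy]
    refine sum_le_sum fun b _ => ?_
    rcases κ b with _ | _ | u
    · simp
    · simp
    · simp
  · rw [← hp']
    have : ∑ b, (if κ b = 0 then 1 else 0 : ℝ)
        = ∑ b : Fin N, (1 - (if 0 < κ b then 1 else 0 : ℝ)) := by
      refine sum_congr rfl fun b _ => ?_
      rcases κ b with _ | u <;> simp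
    rw [this, sum_sub_distrib]
    simp
  · rw [← hp', ← sum_add_distrib]
    refine sum_congr rfl fun b _ => ?_
    rcases κ b with _ | u
    · simp
    · simp [add_comm]
  · rw [← hp', hp]
    have i1 := side_inj_sum ({b | 0 < κ b} : Finset (Fin N)) (fun b => N - 1 - (b : ℕ)) (by
      intro b _ b' _ h
      have := b.2
      have := b'.2
      apply Fin.ext
      simp only at h
      omega)
    have i2 := side_inj_sum ({b | κ b = 1} : Finset (Fin N)) j (by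
      intro b hb b' hb' h
      exact hinj b b' (by simpa using hb) (by simpa using hb') h)
    have key : ∑ b, (if κ b = 0 then 0 else ((b : ℕ) : ℝ) - j b)
        ≤ ∑ b : Fin N, ((if 0 < κ b then 1 else 0 : ℝ) * (N - 1)
          - (if 0 < κ b then ((N - 1 - (b : ℕ) : ℕ) : ℝ) else 0)
          - (if κ b = 1 then (j b : ℝ) else 0)) := by
      refine sum_le_sum fun b _ => ?_
      have hb : ((N - 1 - (b : ℕ) : ℕ) : ℝ) = (N : ℝ) - 1 - (b : ℕ) := by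
        have := b.2
        rw [Nat.cast_sub (by omega), Nat.cast_sub (by omega)]
        simp
      rw [hb]
      have pj : (0 : ℝ) ≤ j b := Nat.cast_nonneg _
      rcases κ b with _ | _ | u
      · simp
      · simp
      · simp
    rw [sum_sub_distrib, sum_sub_distrib, ← sum_mul, hp, ← sum_filter, ← sum_filter] at key
    linarith

theorem side_one {N : ℕ} (hN : 4000 ≤ N) (κ j : Fin N × Fin 3 → ℕ)
    (hinj : ∀ c c', κ c = 1 → κ c' = 1 → c.2 = c'.2 → j c = j c' → c = c')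
    (hp : 2 * #{c | 0 < κ c} ≤ 3 * N) {ε : ℝ} (hε : ε = 1 ∨ ε = -1) :
    0 ≤ ((20 * N + 69) / (120 * N) : ℝ) * ∑ c, ∑ c', |(κ c : ℝ) - κ c'|
      + ∑ c, (4 * ε * (κ c : ℝ) * (((c.2 : ℕ) : ℝ) - 1)
          - (if κ c = 0 then 0 else ((c.1 : ℕ) : ℝ) - j c)) := by
  have col : ∀ e : Fin 3, ∀ b b', κ (b, e) = 1 → κ (b', e) = 1 → j (b, e) = j (b', e) → b = b' :=
    fun e b b' h h' hj => congrArg Prod.fst (hinj (b, e) (b', e) h h' rfl hj)
  obtain ⟨a0, y0, E0, p0, z0, o0, x0, k0, q0, r0⟩ :=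
    side_col (fun b => κ (b, 0)) (fun b => j (b, 0)) (col 0)
  obtain ⟨a1, y1, E1, p1, z1, o1, x1, k1, q1, r1⟩ :=
    side_col (fun b => κ (b, 1)) (fun b => j (b, 1)) (col 1)
  obtain ⟨a2, y2, E2, p2, z2, o2, x2, k2, q2, r2⟩ :=
    side_col (fun b => κ (b, 2)) (fun b => j (b, 2)) (col 2)
  have spl : ∀ f : Fin N × Fin 3 → ℝ, ∑ c, f c = ∑ b, f (b, 0) + ∑ b, f (b, 1) + ∑ b, f (b, 2) := by
    intro f
    rw [Fintype.sum_prod_type_right, Fin.sum_univ_three]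
  have hn : (4000 : ℝ) ≤ N := by exact_mod_cast hN
  have hn0 : (N : ℝ) ≠ 0 := by positivity
  have hm : 2 * (((a0 : ℝ) + y0) + ((a1 : ℝ) + y1) + ((a2 : ℝ) + y2)) ≤ 3 * N := by
    have h1 : ∑ c, (if 0 < κ c then 1 else 0 : ℝ) = ((#{c | 0 < κ c} : ℕ) : ℝ) := by simp
    rw [spl, q0, q1, q2] at h1
    rw [h1]
    exact_mod_cast hp
  have ar := side_arith (n := N) (δ := 69 / (60 * N)) a0 a1 a2 y0 y1 y2 E0 E1 E2 hn
    (by field_simp) hε p0 p1 p2 hm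
  have hD : ∑ c, ∑ c', ((if κ c = 0 then 1 else 0 : ℝ) * κ c'
      + (κ c : ℝ) * (if κ c' = 0 then 1 else 0 : ℝ)
      + (if κ c = 1 then 1 else 0 : ℝ) * ((κ c' - 1 : ℕ) : ℝ)
      + ((κ c - 1 : ℕ) : ℝ) * (if κ c' = 1 then 1 else 0 : ℝ)) ≤ ∑ c, ∑ c', |(κ c : ℝ) - κ c'| :=
    sum_le_sum fun c _ => sum_le_sum fun c' _ => side_abs _ _
  simp only [sum_add_distrib, ← mul_sum, ← sum_mul] at hD
  rw [spl (fun c => (if κ c = 0 then 1 else 0 : ℝ)), spl (fun c => (κ c : ℝ)),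
    spl (fun c => (if κ c = 1 then 1 else 0 : ℝ)), spl (fun c => ((κ c - 1 : ℕ) : ℝ)),
    z0, z1, z2, o0, o1, o2, x0, x1, x2, k0, k1, k2] at hD
  have hK : ∑ c : Fin N × Fin 3, 4 * ε * (κ c : ℝ) * (((c.2 : ℕ) : ℝ) - 1)
      = 4 * ε * ((((a2 : ℝ) + y2) + E2) - (((a0 : ℝ) + y0) + E0)) := by
    rw [spl, ← k0, ← k2]
    simp only [← sum_mul, ← mul_sum]
    norm_num
    ring
  rw [sum_sub_distrib, hK, spl (fun c => (if κ c = 0 then 0 else ((c.1 : ℕ) : ℝ) - j c))]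
  have hl : ((20 * N + 69) / (120 * N) : ℝ) = (1 / 3 + 69 / (60 * N)) / 2 := by
    field_simp
    ring
  have hl0 : (0 : ℝ) ≤ (1 / 3 + 69 / (60 * N)) / 2 := by positivity
  have := mul_le_mul_of_nonneg_left hD hl0
  rw [hl]
  linarith

theorem side {N : ℕ} (hN : 4000 ≤ N) (kc : Fin N × Fin 3 → ℤ) (j : Fin N × Fin 3 → ℕ)
    (hj : ∀ c, j c ≤ c.1)
    (hinj : ∀ c c', kc c = kc c' → c.2 = c'.2 → j c = j c' → c = c')
    (hp : 2 * #{c | 0 < kc c} ≤ 3 * N) (hm : 2 * #{c | kc c < 0} ≤ 3 * N) :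
    -((20 * N + 69) / (120 * N) : ℝ) * ∑ c, ∑ c', ((|kc c - kc c'| : ℤ) : ℝ)
      ≤ ∑ c, ((4 * kc c * ((c.2 : ℕ) - 1)
          - (if kc c = 0 then 0 else ((c.1 : ℕ) : ℤ) - j c) : ℤ) : ℝ) := by
  have _hj := hj
  have h1 := side_one hN (fun c => (kc c).toNat) j
    (fun c c' h h' => hinj c c' (by omega))
    (by
      have : ({c | 0 < (kc c).toNat} : Finset _) = ({c | 0 < kc c} : Finset _) := by
        ext c
        simp
      rw [this]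
      exact hp) (Or.inl rfl)
  have h2 := side_one hN (fun c => (-kc c).toNat) j
    (fun c c' h h' => hinj c c' (by omega))
    (by
      have : ({c | 0 < (-kc c).toNat} : Finset _) = ({c | kc c < 0} : Finset _) := by
        ext c
        simp
      rw [this]
      exact hm) (Or.inr rfl)
  have eD : ∑ c, ∑ c', ((|kc c - kc c'| : ℤ) : ℝ)
      = ∑ c, ∑ c', |(((kc c).toNat : ℕ) : ℝ) - ((kc c').toNat : ℕ)|
        + ∑ c, ∑ c', |(((-kc c).toNat : ℕ) : ℝ) - ((-kc c').toNat : ℕ)| := by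
    rw [← sum_add_distrib]
    refine sum_congr rfl fun c _ => ?_
    rw [← sum_add_distrib]
    refine sum_congr rfl fun c' _ => ?_
    have : |kc c - kc c'| = |(((kc c).toNat : ℕ) : ℤ) - ((kc c').toNat : ℕ)|
        + |(((-kc c).toNat : ℕ) : ℤ) - ((-kc c').toNat : ℕ)| := by
      simp only [abs_eq_max_neg]
      omega
    rw [this]
    simp only [Int.cast_add, Int.cast_abs, Int.cast_sub, Int.cast_natCast]
  have eR : ∑ c, ((4 * kc c * ((c.2 : ℕ) - 1)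
          - (if kc c = 0 then 0 else ((c.1 : ℕ) : ℤ) - j c) : ℤ) : ℝ)
      = ∑ c : Fin N × Fin 3, (4 * 1 * (((kc c).toNat : ℕ) : ℝ) * (((c.2 : ℕ) : ℝ) - 1)
          - (if (kc c).toNat = 0 then 0 else ((c.1 : ℕ) : ℝ) - j c))
        + ∑ c : Fin N × Fin 3, (4 * (-1) * (((-kc c).toNat : ℕ) : ℝ) * (((c.2 : ℕ) : ℝ) - 1)
          - (if (-kc c).toNat = 0 then 0 else ((c.1 : ℕ) : ℝ) - j c)) := by
    rw [← sum_add_distrib]
    refine sum_congr rfl fun c _ => ?_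
    obtain ⟨u, hu | hu⟩ := Int.eq_nat_or_neg (kc c)
    · rw [hu]
      rcases u with _ | u
      · simp
      · have a : ((-((u + 1 : ℕ) : ℤ)).toNat) = 0 := by omega
        have b : ((u + 1 : ℕ) : ℤ) ≠ 0 := by omega
        rw [a, Int.toNat_natCast, if_neg b, if_neg (Nat.succ_ne_zero u), if_pos rfl]
        push_cast
        ring
    · rw [hu]
      rcases u with _ | u
      · simp
      · have a : ((-((u + 1 : ℕ) : ℤ)).toNat) = 0 := by omega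
        have b : -((u + 1 : ℕ) : ℤ) ≠ 0 := by omega
        rw [a, neg_neg, Int.toNat_natCast, if_neg b, if_neg (Nat.succ_ne_zero u), if_pos rfl]
        push_cast
        ring
  rw [eD, eR]
  linarith

end Pool.Agent.Lib.MP_44626f_nt.FF
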