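import Mathlib

/-!
Linear algebra: from vanishing strip determinants to a curve of degree one in X.
-/

open Polynomial Finset

noncomputable section

namespace Pool.Agent.Lib.MP_44626f_nt.FF

variable {K : Type} [Field K]

/-- value of `T ^ b * X ^ e` at a point, or of its derivative in `T` -/
def rowv {I : Type} (t Xv : I → K) {N : ℕ} (ρ : I × Bool) (c : Fin N × Fin 3) : K :=
  if ρ.2 then ((c.1 : ℕ) : K) * t ρ.1 ^ ((c.1 : ℕ) - 1) * Xv ρ.1 ^ (c.2 : ℕ)
  else t ρ.1 ^ (c.1 : ℕ) * Xv ρ.1 ^ (c.2 : ℕ)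

namespace TwoAux

open scoped Classical in
theorem roots_card {I : Type} {t : I → K} (ht : Function.Injective t) (S : Finset I) {p : K[X]}
    (hp : p ≠ 0) : #{i ∈ S | p.eval (t i) = 0} ≤ p.natDegree := by
  refine le_trans ?_ ((Multiset.toFinset_card_le p.roots).trans (card_roots' p))
  refine card_le_card_of_injOn t (fun i hi => ?_) ht.injOn
  rw [coe_filter] at hi
  exact mem_coe.2 (Multiset.mem_toFinset.2 ((mem_roots hp).2 hi.2))

theorem zero_of_roots {I : Type} {t : I → K} (ht : Function.Injective t) (S : Finset I)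
    {p : K[X]} (h : p.natDegree < #S) (h0 : ∀ i ∈ S, p.eval (t i) = 0) : p = 0 := by
  classical
  by_contra hp
  have h1 := roots_card ht S hp
  rw [filter_true_of_mem h0] at h1
  omega

theorem cop (p : K[X]) {q : K[X]} (hq : q ≠ 0) :
    ∃ d A B : K[X], d ≠ 0 ∧ B ≠ 0 ∧ p = d * A ∧ q = d * B ∧ IsCoprime A B := by
  classical
  obtain ⟨A, B, h1, h2, h3⟩ := extract_gcd p q
  refine ⟨_, A, B, fun h => hq ?_, fun h => hq ?_, h1, h2, (gcd_isUnit_iff _ _).1 h3⟩
  · rw [h2, h, zero_mul]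
  · rw [h2, h, mul_zero]

theorem const_of_wr [CharZero K] {A B : K[X]} (h : IsCoprime A B)
    (hw : derivative A * B - A * derivative B = 0) : ∃ a b : K, A = C a ∧ B = C b := by
  have h1 : wronskian A B = 0 := by
    unfold wronskian
    linear_combination -hw
  obtain ⟨h2, h3⟩ := h.wronskian_eq_zero_iff.1 h1
  exact ⟨_, _, eq_C_of_natDegree_eq_zero (derivative_eq_zero.1 h2),
    eq_C_of_natDegree_eq_zero (derivative_eq_zero.1 h3)⟩

theorem prop_of_wr [CharZero K] {p q : K[X]} (hq : q ≠ 0)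
    (hw : q * derivative p - derivative q * p = 0) : ∃ c : K, p = C c * q := by
  obtain ⟨d, A, B, hd, hB, rfl, rfl, hc⟩ := cop p hq
  have h1 : d ^ 2 * (derivative A * B - A * derivative B) = 0 := by
    rw [derivative_mul, derivative_mul] at hw
    linear_combination hw
  obtain ⟨a, b, rfl, rfl⟩ := const_of_wr hc ((mul_eq_zero.1 h1).resolve_left (pow_ne_zero _ hd))
  have hb : b ≠ 0 := fun h => hB (by rw [h, C_0])
  refine ⟨a / b, ?_⟩
  rw [mul_left_comm, ← C_mul, div_mul_cancel₀ _ hb]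

theorem deg_wr {p q : K[X]} {n : ℕ} (hp : p.natDegree ≤ n) (hq : q.natDegree ≤ n) :
    (derivative p * q - p * derivative q).natDegree ≤ 2 * n := by
  have h1 := natDegree_derivative_le p
  have h2 := natDegree_derivative_le q
  refine (natDegree_sub_le _ _).trans (max_le (natDegree_mul_le.trans ?_)
    (natDegree_mul_le.trans ?_)) <;> omega

theorem deg_fac {d A : K[X]} {n : ℕ} (hd : d ≠ 0) (h : (d * A).natDegree ≤ n) :
    A.natDegree ≤ n := by
  by_cases hA : A = 0
  · rw [hA, natDegree_zero]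
    exact Nat.zero_le _
  · rw [natDegree_mul hd hA] at h
    omega

section Rows

variable {J ι : Type} [Fintype ι] [DecidableEq ι] (v : J → ι → K)

theorem span_top {T : Set J} (h : ∀ g : ι → K, (∀ ρ ∈ T, v ρ ⬝ᵥ g = 0) → g = 0) :
    Submodule.span K (v '' T) = ⊤ := by
  by_contra h1
  obtain ⟨f, hf, h2⟩ := Submodule.exists_le_ker_of_lt_top _ (lt_top_iff_ne_top.2 h1)
  have h3 : ∀ x, f x = x ⬝ᵥ fun i => f fun j => if i = j then 1 else 0 := fun x =>
    LinearMap.pi_apply_eq_sum_univ f x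
  have h4 := h (fun i => f fun j => if i = j then 1 else 0) fun ρ hρ => by
    rw [← h3]
    exact h2 (Submodule.subset_span ⟨ρ, hρ, rfl⟩)
  refine hf (LinearMap.ext fun x => ?_)
  rw [h3, h4, dotProduct_zero, LinearMap.zero_apply]

omit [DecidableEq ι] in
theorem kill_span {b : Set J} {g : ι → K} (h : ∀ ρ ∈ b, v ρ ⬝ᵥ g = 0) {x : ι → K}
    (hx : x ∈ Submodule.span K (v '' b)) : x ⬝ᵥ g = 0 := by
  induction hx using Submodule.span_induction with
  | mem x hx =>
    obtain ⟨ρ, hρ, rfl⟩ := hx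
    exact h ρ hρ
  | zero => exact zero_dotProduct _
  | add x y _ _ h1 h2 => rw [add_dotProduct, h1, h2, add_zero]
  | smul a x _ h1 => rw [smul_dotProduct, h1, smul_zero]

theorem ext_basis {s T : Set J} (hs : LinearIndepOn K v s) (hsT : s ⊆ T)
    (h : ∀ g : ι → K, (∀ ρ ∈ T, v ρ ⬝ᵥ g = 0) → g = 0) :
    ∃ r : ι → J, Function.Injective r ∧ (∀ ρ, r ρ ∈ T) ∧ (∀ x ∈ s, ∃ ρ, r ρ = x) ∧
      (Matrix.of fun ρ c => v (r ρ) c).det ≠ 0 := by
  obtain ⟨b, h1, h2, h3, h4⟩ := exists_linearIndepOn_extension hs hsT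
  have h5 : ⊤ ≤ Submodule.span K (Set.range fun x : b => v x) := by
    rw [← span_top v h, Submodule.span_le, ← Set.image_eq_range]
    exact h3
  let e : ι ≃ b := (Pi.basisFun K ι).indexEquiv (Module.Basis.mk h4 h5)
  refine ⟨fun ρ => e ρ, Subtype.val_injective.comp e.injective, fun ρ => h1 (e ρ).2,
    fun x hx => ⟨e.symm ⟨x, h2 hx⟩, congrArg Subtype.val (e.apply_symm_apply _)⟩, ?_⟩
  refine ((Matrix.isUnit_iff_isUnit_det _).1 (Matrix.linearIndependent_rows_iff_isUnit.1 ?_)).ne_zero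
  exact LinearIndependent.comp h4 e e.injective

end Rows

/-- the polynomial of the coefficients of `X ^ e` -/
def Pe {N : ℕ} (g : Fin N × Fin 3 → K) (e : Fin 3) : K[X] := ∑ b : Fin N, monomial b (g (b, e))

theorem Pe_deg {N : ℕ} (g : Fin N × Fin 3 → K) (e : Fin 3) : (Pe g e).natDegree ≤ N :=
  natDegree_sum_le_of_forall_le _ _ fun b _ => (natDegree_monomial_le _).trans b.2.le

theorem Pe_coeff {N : ℕ} (g : Fin N × Fin 3 → K) (e : Fin 3) (b : Fin N) :
    (Pe g e).coeff b = g (b, e) := by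
  rw [Pe, finsetSum_coeff, sum_eq_single b, coeff_monomial_same]
  · intro c _ hc
    exact coeff_monomial_of_ne _ fun h => hc (Fin.ext h.symm)
  · exact fun h => absurd (mem_univ _) h

theorem Pe_zero {N : ℕ} {g : Fin N × Fin 3 → K} (h0 : Pe g 0 = 0) (h1 : Pe g 1 = 0)
    (h2 : Pe g 2 = 0) : g = 0 := by
  funext ⟨b, e⟩
  rw [← Pe_coeff g e b]
  fin_cases e
  exacts [congrArg (coeff · b) h0, congrArg (coeff · b) h1, congrArg (coeff · b) h2]

theorem row_false {I : Type} (t Xv : I → K) {N : ℕ} (g : Fin N × Fin 3 → K) (i : I) :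
    rowv t Xv (i, false) ⬝ᵥ g = (Pe g 0).eval (t i) + (Pe g 1).eval (t i) * Xv i +
      (Pe g 2).eval (t i) * Xv i ^ 2 := by
  simp only [dotProduct, Fintype.sum_prod_type, Fin.sum_univ_three, rowv, Pe, eval_finsetSum,
    eval_monomial, sum_mul, ← sum_add_distrib, Bool.false_eq_true, if_false]
  refine sum_congr rfl fun b _ => ?_
  simp only [Fin.val_zero, Fin.val_one, Fin.val_two]
  ring

theorem row_true {I : Type} (t Xv : I → K) {N : ℕ} (g : Fin N × Fin 3 → K) (i : I) :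
    rowv t Xv (i, true) ⬝ᵥ g = (derivative (Pe g 0)).eval (t i) +
      (derivative (Pe g 1)).eval (t i) * Xv i + (derivative (Pe g 2)).eval (t i) * Xv i ^ 2 := by
  simp only [dotProduct, Fintype.sum_prod_type, Fin.sum_univ_three, rowv, Pe, derivative_sum,
    derivative_monomial, eval_finsetSum, eval_monomial, sum_mul, ← sum_add_distrib, if_true]
  refine sum_congr rfl fun b _ => ?_
  simp only [Fin.val_zero, Fin.val_one, Fin.val_two]
  ring

end TwoAux

open TwoAux

theorem lin_red [CharZero K] {I : Type} {Dg n1 : ℕ} (t Xv : I → K) (ht : Function.Injective t)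
    (hX : Function.Injective Xv)
    (hcore : ∀ (S : Finset I) (A B : K[X]), IsCoprime A B → A.natDegree ≤ Dg → B.natDegree ≤ Dg →
      (A.natDegree ≠ 0 ∨ B.natDegree ≠ 0) → n1 ≤ #S →
      (∀ i ∈ S, A.eval (t i) = Xv i * B.eval (t i) ∧ B.eval (t i) ≠ 0 ∧
        (derivative A * B - A * derivative B).eval (t i) ≠ 0) → False)
    (S : Finset I) (f0 f1 : K[X]) (h0 : f0.natDegree ≤ Dg) (h1 : f1.natDegree ≤ Dg)
    (hS : n1 + 3 * Dg + 2 ≤ #S) (hf : ∀ i ∈ S, f0.eval (t i) + f1.eval (t i) * Xv i = 0) :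
    f0 = 0 ∧ f1 = 0 := by
  classical
  by_cases h : f1 = 0
  · refine ⟨zero_of_roots ht S (by omega) fun i hi => ?_, h⟩
    simpa [h] using hf i hi
  exfalso
  obtain ⟨d, A, B, hd, hB, rfl, rfl, hc⟩ := cop f0 h
  have hA := deg_fac hd h0
  have hB' := deg_fac hd h1
  have hd' : d.natDegree ≤ Dg := deg_fac hB (by rwa [mul_comm])
  have key : ∀ i ∈ S, d.eval (t i) ≠ 0 →
      (-A).eval (t i) = Xv i * B.eval (t i) ∧ B.eval (t i) ≠ 0 := fun i hi hdi => by
    have h2 := hf i hi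
    rw [eval_mul, eval_mul] at h2
    have h3 : A.eval (t i) + B.eval (t i) * Xv i = 0 :=
      mul_left_cancel₀ hdi (by linear_combination h2)
    refine ⟨by rw [eval_neg]; linear_combination -h3, fun h4 => ?_⟩
    obtain ⟨u, w, h5⟩ := hc
    have h6 := congrArg (eval (t i)) h5
    rw [h4, zero_mul, add_zero] at h3
    rw [eval_add, eval_mul, eval_mul, h3, h4, eval_one] at h6
    simp at h6
  have c1 := roots_card ht S hd
  have c2 := card_filter_add_card_filter_not (s := S) fun i => d.eval (t i) = 0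
  by_cases hW : derivative (-A) * B - -A * derivative B = 0
  · obtain ⟨a, b, ha, rfl⟩ := const_of_wr hc.neg_left hW
    obtain ⟨i, hi, j, hj, hij⟩ := one_lt_card.1
      (show 1 < #{i ∈ S | ¬d.eval (t i) = 0} by omega)
    rw [mem_filter] at hi hj
    obtain ⟨e1, e2⟩ := key i hi.1 hi.2
    obtain ⟨e3, -⟩ := key j hj.1 hj.2
    rw [ha] at e1 e3
    rw [eval_C] at e2
    rw [eval_C, eval_C] at e1 e3
    exact hij (hX (mul_right_cancel₀ e2 (e1.symm.trans e3)))
  · have hA' : (-A).natDegree ≤ Dg := by rwa [natDegree_neg]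
    have c3 := (roots_card ht {i ∈ S | ¬d.eval (t i) = 0} hW).trans (deg_wr hA' hB')
    have c4 := card_filter_add_card_filter_not (s := {i ∈ S | ¬d.eval (t i) = 0})
      fun i => (derivative (-A) * B - -A * derivative B).eval (t i) = 0
    refine hcore {i ∈ {i ∈ S | ¬d.eval (t i) = 0} |
      ¬(derivative (-A) * B - -A * derivative B).eval (t i) = 0} (-A) B hc.neg_left hA' hB' ?_
      (by omega) fun i hi => ?_
    · by_contra h2
      rw [not_or, not_not, not_not] at h2
      refine hW ?_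
      rw [derivative_of_natDegree_zero h2.1, derivative_of_natDegree_zero h2.2, zero_mul, mul_zero,
        sub_zero]
    · rw [mem_filter, mem_filter] at hi
      obtain ⟨e1, e2⟩ := key i hi.1.1 hi.1.2
      exact ⟨e1, e2, hi.2⟩

/-- an admissible family of rows with nonzero determinant -/
def Good {I : Type} (t Xv : I → K) {N : ℕ} (r : Fin N × Fin 3 → I × Bool) : Prop :=
  Function.Injective r ∧ (∀ ρ, ∃ ρ', r ρ' = ((r ρ).1, false)) ∧ #{ρ | (r ρ).2 = true} ≤ N ∧
    (Matrix.of fun ρ c => rowv t Xv (r ρ) c).det ≠ 0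

namespace TwoAux

theorem Pe_deg' {N : ℕ} (g : Fin N × Fin 3 → K) (e : Fin 3) : (Pe g e).natDegree ≤ N - 1 :=
  natDegree_sum_le_of_forall_le _ _ fun b _ =>
    (natDegree_monomial_le _).trans (Nat.le_sub_one_of_lt b.2)

theorem row_ne {I : Type} (t Xv : I → K) {N : ℕ} (hN : 1 ≤ N) (j : I) :
    rowv t Xv (N := N) (j, false) ≠ 0 := fun h => by
  have := congrFun h (⟨0, hN⟩, 0)
  simp [rowv] at this

/-- exchange of one row of an admissible family for the value row of a new point -/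
theorem step {I : Type} {t Xv : I → K} {N : ℕ} {r : Fin N × Fin 3 → I × Bool}
    (h : Good t Xv r) (hN : 1 ≤ N) (j : I) :
    (∃ r' : Fin N × Fin 3 → I × Bool, Good t Xv r' ∧ (∃ ρ, (r' ρ).1 = j) ∧ ∃ ρ, r' ρ = r ρ) ∨
      rowv t Xv (N := N) (j, false) ∈ Submodule.span K (rowv t Xv (N := N) ''
        {x | x.2 = false ∧ (∃ ρ, r ρ = x) ∧ ∃ ρ, r ρ = (x.1, true)}) := by
  classical
  by_cases hj : ∃ ρ, r ρ = (j, false)
  · obtain ⟨ρ, hρ⟩ := hj
    exact Or.inl ⟨r, h, ⟨ρ, by rw [hρ]⟩, ρ, rfl⟩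
  obtain ⟨h1, h2, h3, h4⟩ := h
  obtain ⟨c, hc⟩ : ∃ c : Fin N × Fin 3 → K,
      ∑ l, c l • rowv t Xv (N := N) (r l) = rowv t Xv (j, false) := by
    obtain ⟨c, hc⟩ := Matrix.vecMul_surjective_iff_isUnit.2
      ((Matrix.isUnit_iff_isUnit_det _).2 h4.isUnit) (rowv t Xv (j, false))
    exact ⟨c, by rw [← hc]; exact (Matrix.vecMul_eq_sum _ _).symm⟩
  by_cases hi : ∃ i, c i ≠ 0 ∧ ((r i).2 = true ∨ ∀ ρ, r ρ ≠ ((r i).1, true))
  · obtain ⟨i, ci, hi⟩ := hi
    refine Or.inl ⟨Function.update r i (j, false), ⟨fun a b hab => ?_, fun ρ => ?_, ?_, ?_⟩,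
      ⟨i, by rw [Function.update_self]⟩, ?_⟩
    · by_cases ha : a = i <;> by_cases hb : b = i
      · rw [ha, hb]
      · rw [ha, Function.update_self, Function.update_of_ne hb] at hab
        exact absurd ⟨b, hab.symm⟩ hj
      · rw [hb, Function.update_self, Function.update_of_ne ha] at hab
        exact absurd ⟨a, hab⟩ hj
      · rw [Function.update_of_ne ha, Function.update_of_ne hb] at hab
        exact h1 hab
    · by_cases ha : ρ = i
      · exact ⟨i, by rw [ha, Function.update_self]⟩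
      obtain ⟨ρ', hρ⟩ := h2 ρ
      have hb : ρ' ≠ i := by
        rintro rfl
        have e1 : (r ρ').1 = (r ρ).1 := by rw [hρ]
        have e2 : (r ρ').2 = false := by rw [hρ]
        rcases hi with hi | hi
        · rw [e2] at hi; exact Bool.false_ne_true hi
        · cases e3 : (r ρ).2
          · exact ha (h1 (Prod.ext e1.symm (e3.trans e2.symm)))
          · exact hi ρ (Prod.ext e1.symm e3)
      exact ⟨ρ', by rw [Function.update_of_ne ha, Function.update_of_ne hb, hρ]⟩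
    · refine le_trans (card_le_card fun ρ hρ => ?_) h3
      have h5 := (mem_filter.1 hρ).2
      by_cases ha : ρ = i
      · rw [ha, Function.update_self] at h5
        exact absurd h5 Bool.false_ne_true
      · rw [Function.update_of_ne ha] at h5
        exact mem_filter.2 ⟨mem_univ _, h5⟩
    · have e : (Matrix.of fun ρ c => rowv t Xv (N := N) (Function.update r i (j, false) ρ) c)
          = (Matrix.of fun ρ c => rowv t Xv (N := N) (r ρ) c).updateRow i
            (∑ l, c l • (Matrix.of fun ρ c => rowv t Xv (N := N) (r ρ) c) l) := by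
        ext a b
        by_cases ha : a = i
        · rw [ha, Matrix.updateRow_self, Matrix.of_apply, Function.update_self, ← hc]
          rfl
        · rw [Matrix.updateRow_ne ha, Matrix.of_apply, Matrix.of_apply, Function.update_of_ne ha]
      rw [e, Matrix.det_updateRow_sum, smul_eq_mul]
      exact mul_ne_zero ci h4
    · have : Nontrivial (Fin N × Fin 3) := ⟨(⟨0, hN⟩, 0), (⟨0, hN⟩, 1), by simp⟩
      obtain ⟨ρ, hρ⟩ := exists_ne i
      exact ⟨ρ, Function.update_of_ne hρ _ _⟩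
  · refine Or.inr ?_
    rw [← hc]
    refine Submodule.sum_mem _ fun l _ => ?_
    by_cases cl : c l = 0
    · rw [cl, zero_smul]; exact Submodule.zero_mem _
    have h5 : ¬((r l).2 = true ∨ ∀ ρ, r ρ ≠ ((r l).1, true)) := fun h => hi ⟨l, cl, h⟩
    rw [not_or, not_forall] at h5
    obtain ⟨h6, ρ, h7⟩ := h5
    exact Submodule.smul_mem _ _ (Submodule.subset_span
      ⟨r l, ⟨by simpa using h6, ⟨l, rfl⟩, ρ, not_not.1 h7⟩, rfl⟩)

end TwoAux

theorem two [CharZero K] {I : Type} [Fintype I] {N n1 : ℕ} (hN : 1 ≤ N) (t Xv : I → K)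
    (ht : Function.Injective t) (hX : Function.Injective Xv)
    (hcard : 2 * n1 + N + 3 ≤ Fintype.card I)
    (hlin : ∀ (S : Finset I) (f0 f1 : K[X]), f0.natDegree ≤ 2 * N → f1.natDegree ≤ 2 * N →
      n1 ≤ #S → (∀ i ∈ S, f0.eval (t i) + f1.eval (t i) * Xv i = 0) → f0 = 0 ∧ f1 = 0) :
    ∃ r0 : Fin N × Fin 3 → I × Bool, Good t Xv r0 ∧ ∀ j, ∃ r : Fin N × Fin 3 → I × Bool,
      Good t Xv r ∧ (∃ ρ, (r ρ).1 = j) ∧ ∃ ρ ρ0, (r ρ).1 = (r0 ρ0).1 := by
  classical
  have hd2 : ∀ (g : Fin N × Fin 3 → K) e, (Pe g e).natDegree ≤ 2 * N := fun g e =>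
    (Pe_deg g e).trans (by omega)
  by_cases hsp : ¬∃ G : Fin N × Fin 3 → K,
      (∀ ρ ∈ {ρ : I × Bool | ρ.2 = false}, rowv t Xv ρ ⬝ᵥ G = 0) ∧ G ≠ 0
  · obtain ⟨r, h1, h2, -, h3⟩ := ext_basis (rowv t Xv (N := N)) (linearIndepOn_empty _ _)
      (Set.empty_subset {ρ : I × Bool | ρ.2 = false}) fun g hg => by
        by_contra h'
        exact hsp ⟨g, hg, h'⟩
    have hr : Good t Xv r := by
      refine ⟨h1, fun ρ => ⟨ρ, Prod.ext rfl (h2 ρ)⟩, ?_, h3⟩
      rw [filter_false_of_mem fun ρ _ h => by simp [show (r ρ).2 = false from h2 ρ] at h]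
      exact Nat.zero_le _
    refine ⟨r, hr, fun j => ?_⟩
    rcases step hr hN j with ⟨r', g1, g2, ρ, g3⟩ | g
    · exact ⟨r', g1, g2, ρ, ρ, by rw [g3]⟩
    · have e : {x : I × Bool | x.2 = false ∧ (∃ ρ, r ρ = x) ∧ ∃ ρ, r ρ = (x.1, true)} = ∅ := by
        refine Set.eq_empty_of_forall_notMem ?_
        rintro x ⟨-, -, ρ, hρ⟩
        have h4 : (r ρ).2 = false := h2 ρ
        rw [hρ] at h4
        exact Bool.false_ne_true h4.symm
      rw [e, Set.image_empty, Submodule.span_empty, Submodule.mem_bot] at g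
      exact absurd g (row_ne t Xv hN j)
  obtain ⟨G, hG, hG0⟩ := not_not.1 hsp
  have hv : ∀ i, (Pe G 0).eval (t i) + (Pe G 1).eval (t i) * Xv i +
      (Pe G 2).eval (t i) * Xv i ^ 2 = 0 := fun i => (row_false t Xv G i).symm.trans (hG _ rfl)
  have hA2 : Pe G 2 ≠ 0 := fun h => by
    obtain ⟨h0, h1⟩ := hlin univ _ _ (hd2 G 0) (hd2 G 1) (by rw [card_univ]; omega)
      fun i _ => by simpa [h] using hv i
    exact hG0 (Pe_zero h0 h1 h)
  have hZ : #{i | rowv t Xv (i, true) ⬝ᵥ G = 0} < n1 := by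
    by_contra h
    obtain ⟨h0, h1⟩ := hlin {i | rowv t Xv (i, true) ⬝ᵥ G = 0} _ _
      (deg_wr (Pe_deg G 0) (Pe_deg G 2)) (deg_wr (Pe_deg G 1) (Pe_deg G 2)) (by omega)
      fun i hi => by
        have h2 := (mem_filter.1 hi).2
        rw [row_true] at h2
        simp only [eval_sub, eval_mul]
        linear_combination (Pe G 2).eval (t i) * h2 - (derivative (Pe G 2)).eval (t i) * hv i
    obtain ⟨c0, e0⟩ := prop_of_wr (p := Pe G 0) hA2 (by linear_combination h0)
    obtain ⟨c1, e1⟩ := prop_of_wr (p := Pe G 1) hA2 (by linear_combination h1)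
    have hq : (X ^ 2 + C c1 * X + C c0 : K[X]).natDegree = 2 := by compute_degree!
    have c2 := (roots_card ht univ hA2).trans (Pe_deg G 2)
    have c3 := card_filter_add_card_filter_not (s := univ) fun i => (Pe G 2).eval (t i) = 0
    rw [card_univ] at c3
    have h5 := zero_of_roots hX {i | ¬(Pe G 2).eval (t i) = 0}
      (p := X ^ 2 + C c1 * X + C c0) (by omega) fun i hi => by
        have h2 := hv i
        rw [e0, e1, eval_mul, eval_mul, eval_C, eval_C] at h2
        simp only [eval_add, eval_mul, eval_pow, eval_X, eval_C]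
        exact mul_left_cancel₀ (mem_filter.1 hi).2 (by linear_combination h2)
    rw [h5, natDegree_zero] at hq
    omega
  have c1 := card_filter_add_card_filter_not (s := univ) fun i => rowv t Xv (i, true) ⬝ᵥ G = 0
  rw [card_univ] at c1
  set I' : Finset I := {i | ¬rowv t Xv (i, true) ⬝ᵥ G = 0} with hI'
  obtain ⟨b, b1, -, b2, b3⟩ := exists_linearIndepOn_extension
    (linearIndepOn_empty K (rowv t Xv (N := N)))
    (Set.empty_subset {ρ : I × Bool | ρ.2 = false ∧ ρ.1 ∈ I'})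
  set S0 : Finset I := {i | (i, false) ∈ b} with hS0
  have kill : ∀ g : Fin N × Fin 3 → K, (∀ i ∈ S0, rowv t Xv (i, false) ⬝ᵥ g = 0) → ∀ i ∈ I',
      (Pe g 0).eval (t i) + (Pe g 1).eval (t i) * Xv i + (Pe g 2).eval (t i) * Xv i ^ 2 = 0 :=
    fun g hg i hi => by
      rw [← row_false]
      refine kill_span (rowv t Xv) (b := b) (fun ρ hρ => ?_) (b2 ⟨(i, false), ⟨rfl, hi⟩, rfl⟩)
      have e : ρ = (ρ.1, false) := Prod.ext rfl (b1 hρ).1
      rw [e] at hρ ⊢
      exact hg _ (mem_filter.2 ⟨mem_univ _, hρ⟩)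
  have hS : 2 * N ≤ #S0 := by
    let φ : (Fin N × Fin 3 → K) →ₗ[K] (S0 → K) × (Fin N → K) :=
      { toFun := fun g => (fun i => rowv t Xv (i.1, false) ⬝ᵥ g, fun c => g (c, 2))
        map_add' := fun g g' => Prod.ext (funext fun i => dotProduct_add _ _ _) rfl
        map_smul' := fun a g => Prod.ext (funext fun i => dotProduct_smul _ _ _) rfl }
    have hφ : Function.Injective φ := (injective_iff_map_eq_zero φ).2 fun g hg => by
      have h2 : Pe g 2 = 0 := sum_eq_zero fun c _ => by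
        rw [show g (c, 2) = 0 from congrFun (congrArg Prod.snd hg) c, monomial_zero_right]
      obtain ⟨h0, h1⟩ := hlin I' _ _ (hd2 g 0) (hd2 g 1) (by omega) fun i hi => by
        simpa [h2] using kill g (fun j hj => congrFun (congrArg Prod.fst hg) ⟨j, hj⟩) i hi
      exact Pe_zero h0 h1 h2
    have h3 := LinearMap.finrank_le_finrank_of_injective hφ
    simp only [Module.finrank_prod, Module.finrank_fintype_fun_eq_card, Fintype.card_prod,
      Fintype.card_fin, Fintype.card_coe] at h3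
    omega
  have key : ∀ T ⊆ S0, N ≤ #T → ∃ r : Fin N × Fin 3 → I × Bool, Good t Xv r ∧
      (∀ ρ, ((r ρ).1, false) ∈ b ∧ ((r ρ).2 = true → (r ρ).1 ∈ T)) ∧ ∀ x ∈ b, ∃ ρ, r ρ = x := by
    intro T hT hc
    obtain ⟨r, r1, r2, r3, r4⟩ := ext_basis (rowv t Xv (N := N)) b3
      (T := {ρ : I × Bool | (ρ.1, false) ∈ b ∧ (ρ.2 = true → ρ.1 ∈ T)})
      (fun ρ hρ => by
        have e : ρ = (ρ.1, false) := Prod.ext rfl (b1 hρ).1
        refine ⟨e ▸ hρ, fun h => ?_⟩
        rw [(b1 hρ).1] at h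
        exact absurd h Bool.false_ne_true)
      fun g hg => by
        have h1 := kill g fun i hi => hg _ ⟨(mem_filter.1 hi).2, fun h => absurd h Bool.false_ne_true⟩
        have dg : ∀ e, (Pe G 2 * Pe g e - Pe g 2 * Pe G e).natDegree ≤ 2 * N := fun e => by
          have := Pe_deg G 2
          have := Pe_deg g e
          have := Pe_deg g 2
          have := Pe_deg G e
          refine (natDegree_sub_le _ _).trans (max_le (natDegree_mul_le.trans ?_)
            (natDegree_mul_le.trans ?_)) <;> omega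
        obtain ⟨e0, e1⟩ := hlin I' _ _ (dg 0) (dg 1) (by omega) fun i hi => by
          simp only [eval_sub, eval_mul]
          linear_combination (Pe G 2).eval (t i) * h1 i hi - (Pe g 2).eval (t i) * hv i
        have h2 : Pe g 2 = 0 := zero_of_roots ht T (by have := Pe_deg' g 2; omega) fun i hi => by
          have hb := (mem_filter.1 (hT hi)).2
          have hi' : i ∈ I' := (b1 hb).2
          have h3 := hg (i, true) ⟨hb, fun _ => hi⟩
          have d0 := congrArg (fun p => (derivative p).eval (t i)) e0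
          have d1 := congrArg (fun p => (derivative p).eval (t i)) e1
          simp only [derivative_sub, derivative_mul, eval_sub, eval_add, eval_mul, derivative_zero,
            eval_zero] at d0 d1
          refine mul_right_cancel₀ (mem_filter.1 hi').2 ?_
          rw [row_true] at h3 ⊢
          linear_combination -d0 - Xv i * d1 + (derivative (Pe G 2)).eval (t i) * h1 i hi' +
            (Pe G 2).eval (t i) * h3 - (derivative (Pe g 2)).eval (t i) * hv i
        rw [h2, zero_mul, sub_zero] at e0 e1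
        exact Pe_zero ((mul_eq_zero.1 e0).resolve_left hA2) ((mul_eq_zero.1 e1).resolve_left hA2) h2
    refine ⟨r, ⟨r1, fun ρ => r3 _ (r2 ρ).1, ?_, r4⟩, r2, r3⟩
    have c2 := card_filter_add_card_filter_not (s := univ) fun ρ => (r ρ).2 = true
    have c3 : #S0 ≤ #{ρ | ¬(r ρ).2 = true} := by
      refine le_trans (card_le_card fun i hi => ?_) (card_image_le (f := fun ρ => (r ρ).1))
      obtain ⟨ρ, hρ⟩ := r3 _ (mem_filter.1 hi).2
      exact mem_image.2 ⟨ρ, mem_filter.2 ⟨mem_univ _, by simp [hρ]⟩, by rw [hρ]⟩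
    rw [card_univ, Fintype.card_prod, Fintype.card_fin, Fintype.card_fin] at c2
    omega
  obtain ⟨T, hT, hc⟩ := exists_subset_card_eq (show N ≤ #S0 by omega)
  obtain ⟨R1, g1, m1, s1⟩ := key T hT hc.ge
  obtain ⟨R2, g2, m2, s2⟩ := key (S0 \ T) sdiff_subset (by rw [card_sdiff_of_subset hT]; omega)
  refine ⟨R1, g1, fun j => ?_⟩
  rcases step g1 hN j with ⟨r', a1, a2, ρ, a3⟩ | u1
  · exact ⟨r', a1, a2, ρ, ρ, by rw [a3]⟩
  rcases step g2 hN j with ⟨r', a1, a2, ρ, a3⟩ | u2
  · obtain ⟨ρ0, h0⟩ := s1 _ (m2 ρ).1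
    exact ⟨r', a1, a2, ρ, ρ0, by rw [a3, h0]⟩
  have sub : ∀ {R : Fin N × Fin 3 → I × Bool} {T : Finset I},
      (∀ ρ, ((R ρ).1, false) ∈ b ∧ ((R ρ).2 = true → (R ρ).1 ∈ T)) →
      {x : I × Bool | x.2 = false ∧ (∃ ρ, R ρ = x) ∧ ∃ ρ, R ρ = (x.1, true)}
        ⊆ {x | x ∈ b ∧ x.1 ∈ T} := by
    rintro R T m x ⟨x1, ⟨ρ, rfl⟩, ρ', x2⟩
    have e : R ρ = ((R ρ).1, false) := Prod.ext rfl x1
    have h1 := (m ρ').2
    rw [x2] at h1
    exact ⟨e ▸ (m ρ).1, h1 rfl⟩
  have dj : Disjoint {x : I × Bool | x ∈ b ∧ x.1 ∈ T} {x | x ∈ b ∧ x.1 ∈ S0 \ T} :=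
    Set.disjoint_left.2 fun x h1 h2 => (mem_sdiff.1 h2.2).2 h1.2
  have ds := ((linearIndepOn_union_iff dj).1
    (b3.mono (Set.union_subset (fun x h => h.1) fun x h => h.1))).2.2
  exact absurd ((Submodule.disjoint_def.1 ds) _
    (Submodule.span_mono (Set.image_mono (sub m1)) u1)
    (Submodule.span_mono (Set.image_mono (sub m2)) u2)) (row_ne t Xv hN j)

end Pool.Agent.Lib.MP_44626f_nt.FF
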