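import Pool.Agent.Lib.MP_44626f_nt.FF.Tree
import Pool.Agent.Lib.MP_44626f_nt.FF.Side
import Pool.Agent.Lib.MP_44626f_nt.FF.Two

/-!
The local bound for the strip determinant: all levels together.
-/

open Polynomial Finset

noncomputable section

namespace Pool.Agent.Lib.MP_44626f_nt.FF

variable {K : Type} [Field K] {I : Type} {Q : Place K} {N : ℕ}

/-- one entry of the strip matrix -/
def rv (t X : K) (d : Bool) (b e : ℕ) : K :=
  if d then (b : K) * t ^ (b - 1) * X ^ e else t ^ b * X ^ e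

lemma rv_add (t c s Y : K) (d : Bool) (b : Fin N) (e : ℕ) :
    rv (t + c) (s * Y) d b e
      = ∑ j : Fin N, s ^ e * (((b : ℕ).choose j : K) * c ^ ((b : ℕ) - j)) * rv t Y d j e := by
  rw [← sum_range fun j => s ^ e * (((b : ℕ).choose j : K) * c ^ ((b : ℕ) - j)) * rv t Y d j e,
    ← sum_subset (range_subset_range.2 b.2 : range (b + 1) ⊆ range N) fun j _ hj => by
      rw [Nat.choose_eq_zero_of_lt (by simpa using hj)]; simp]
  cases d
  · simp only [rv, Bool.false_eq_true, if_false, add_pow, sum_mul]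
    exact sum_congr rfl fun j _ => by ring
  · have h := congrArg (fun p => eval t (derivative p)) (add_pow X (C c) (b : ℕ))
    simp only [derivative_pow, derivative_add, derivative_X, derivative_C, add_zero, mul_one,
      derivative_sum, derivative_mul, derivative_natCast, mul_zero, eval_finsetSum, eval_mul,
      eval_pow, eval_add, eval_X, eval_C, eval_natCast] at h
    simp only [rv, if_true, h, sum_mul]
    exact sum_congr rfl fun j _ => by ring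

lemma det_gauge (t Xv : I → K) (c : K) (r : Fin N × Fin 3 → I × Bool) :
    (Matrix.of fun ρ j => rowv (fun i => t i + c) Xv (r ρ) j).det
      = (Matrix.of fun ρ j => rowv t Xv (r ρ) j).det := by
  let U : Matrix (Fin N) (Fin N) K := fun j b => ((b : ℕ).choose j : K) * c ^ ((b : ℕ) - j)
  have h1 : U.det = 1 := by
    rw [Matrix.det_of_isUpperTriangular fun j b (h : b < j) => by
      simp [U, Nat.choose_eq_zero_of_lt h]]
    simp [U]
  have h2 : (Matrix.of fun ρ j => rowv (fun i => t i + c) Xv (r ρ) j)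
      = (Matrix.of fun ρ j => rowv t Xv (r ρ) j) * Matrix.blockDiagonal fun _ : Fin 3 => U := by
    ext ρ j
    have := rv_add (t (r ρ).1) c 1 (Xv (r ρ).1) (r ρ).2 j.1 j.2
    rw [one_mul] at this
    rw [Matrix.mul_apply, Fintype.sum_prod_type]
    refine this.trans (sum_congr rfl fun b _ => ?_)
    rw [sum_eq_single j.2 (fun e _ he => by simp [Matrix.blockDiagonal_apply, he]) (by simp)]
    simp only [Matrix.blockDiagonal_apply, if_true, Matrix.of_apply, one_pow, one_mul, U]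
    exact mul_comm _ _
  rw [h2, Matrix.det_mul, Matrix.det_blockDiagonal]
  simp [h1]

lemma exists_median {ι : Type} [Fintype ι] (k : ι → ℤ) :
    ∃ k0, 2 * #{ρ | k0 < k ρ} ≤ Fintype.card ι ∧ 2 * #{ρ | k ρ < k0} ≤ Fintype.card ι := by
  rcases isEmpty_or_nonempty ι with h | h
  · exact ⟨0, by simp⟩
  obtain ⟨a, ha⟩ := Finite.exists_le k
  obtain ⟨b, hb⟩ := Finite.exists_ge k
  obtain ⟨k0, h1, h2⟩ := Int.exists_least_of_bdd
    (P := fun z => 2 * #{ρ | z < k ρ} ≤ Fintype.card ι)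
    ⟨b, fun z hz => by
      by_contra h
      rw [filter_true_of_mem fun ρ _ => (not_le.1 h).trans_le (hb ρ), card_univ] at hz
      have := Fintype.card_pos (α := ι)
      omega⟩
    ⟨a, by rw [filter_false_of_mem fun ρ _ => not_lt.2 (ha ρ)]; simp⟩
  refine ⟨k0, h1, ?_⟩
  have h3 : ¬ 2 * #{ρ | k0 - 1 < k ρ} ≤ Fintype.card ι := fun h => by
    have := h2 _ h
    omega
  have h4 := card_filter_add_card_filter_not (s := univ) fun ρ => k0 - 1 < k ρ
  have h5 : #{ρ | k ρ < k0} = #{ρ | ¬ k0 - 1 < k ρ} := by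
    congr 1; ext ρ; simp only [mem_filter, mem_univ, true_and]; omega
  rw [card_univ] at h4
  omega

lemma Place.L_zpow (Q : Place K) {f : K} (hf : f ≠ 0) (n : ℤ) : Q.L (f ^ n) = n * Q.L f := by
  obtain ⟨m, rfl | rfl⟩ := n.eq_nat_or_neg
  · rw [zpow_natCast, Q.L_pow hf, Int.cast_natCast]
  · rw [zpow_neg, zpow_natCast, ← one_div, Q.L_div one_ne_zero (pow_ne_zero _ hf), Q.L_pow hf,
      Q.L_one]
    simp

lemma Place.ge_L_pi (Q : Place K) : Q.Ge (Q.L Q.pi) (-1) := by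
  have h1 := ((Q.ge_L Q.pi_ne).mono (m := -1) (by simp)).add
    (((Q.ge_int (Q.v Q.pi)).div Q.pi_ne).mono (by simp [Q.v_pi]))
  rwa [sub_add_cancel] at h1

lemma Lev.ev_mono (U : Lev Q I) (ρ : I × Bool) (e b : ℕ) :
    ev Q 0 ρ (U.XX ^ e * U.TT ^ b) = rv (Q.L (U.u ρ.1)) (U.u ρ.1 ^ 4) ρ.2 b e := by
  simp only [ev_apply, rv, Pi.mul_apply, Pi.pow_apply, Lev.XX, Lev.TT]
  split_ifs <;> simp [TrivSqZeroExt.snd_pow, mul_comm]

variable [CharZero K] {x : I → K}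

omit [CharZero K] in
lemma mu_unit {a b : K} (h0 : a ^ 2 + b ^ 2 ≠ 0) (ha : a ≠ 0) (hb : b ≠ 0) (h : Q.v a = Q.v b) :
    (a / Q.pi ^ Q.v a) ^ 2 + (b / Q.pi ^ Q.v b) ^ 2 ≠ 0 ∧
      Q.mu (a / Q.pi ^ Q.v a) (b / Q.pi ^ Q.v b) = Q.mu a b := by
  have hp : Q.pi ^ Q.v b ≠ 0 := zpow_ne_zero _ Q.pi_ne
  have e : (a / Q.pi ^ Q.v b) ^ 2 + (b / Q.pi ^ Q.v b) ^ 2
      = (a ^ 2 + b ^ 2) / (Q.pi ^ Q.v b) ^ 2 := by field_simp
  rw [Place.mu, Place.mu, h, e, Q.v_div h0 (pow_ne_zero _ hp), Q.v_pow hp, Q.v_div ha hp,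
    Q.v_div hb hp]
  exact ⟨div_ne_zero h0 (pow_ne_zero _ hp), by omega⟩

/-- the units on level `α` -/
def Brick.lev (hx : Brick x) (Q : Place K) (α : ℤ) : Lev Q I where
  u i := x i / Q.pi ^ Q.v (x i)
  S := {i | Q.v (x i) = α}
  sg := (Q.exists_sg x hx.ne hx.add_ne).choose
  ne i := div_ne_zero (hx.ne i) (zpow_ne_zero _ Q.pi_ne)
  v0 i := by rw [Q.v_div (hx.ne i) (zpow_ne_zero _ Q.pi_ne), Q.v_pi_zpow, sub_self]
  add_ne i hi j hj := (mu_unit (hx.add_ne i j) (hx.ne i) (hx.ne j) (hi.trans hj.symm)).1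
  even i hi j hj := by
    rw [(mu_unit (hx.add_ne i j) (hx.ne i) (hx.ne j) (hi.trans hj.symm)).2]
    by_cases h : i = j
    · subst h
      rw [Place.mu, ← two_mul, Q.v_mul _ _ two_ne_zero (pow_ne_zero _ (hx.ne i)), Q.v_two,
        Q.v_pow (hx.ne i)]
      exact ⟨0, by push_cast; ring⟩
    · exact Q.mu_even (hx.add_ne i j) (hx.sq i j h) (hi.trans hj.symm)
  sgn i hi j hj h := by
    rw [(mu_unit (hx.add_ne i j) (hx.ne i) (hx.ne j) (hi.trans hj.symm)).2] at h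
    exact (Q.exists_sg x hx.ne hx.add_ne).choose_spec i j (hi.trans hj.symm) h

theorem axis [Finite I] (hx : Brick x) (Q : Place K) (hN : 4000 ≤ N)
    {r : Fin N × Fin 3 → I × Bool} (hr : Adm N Set.univ r) :
    Q.GeR (Matrix.of fun ρ c => rowv (fun i => Q.L (x i)) (fun i => x i ^ 4) (r ρ) c).det
      (4 * ∑ ρ, (Q.v (x (r ρ).1) : ℝ)
        + (2 * N + 7) / (12 * N) * ∑ ρ, ∑ ρ', (Q.mu (x (r ρ).1) (x (r ρ').1) : ℝ)
        + 1 / (120 * N) * ∑ ρ, ∑ ρ', ((|Q.v (x (r ρ).1) - Q.v (x (r ρ').1)| : ℤ) : ℝ)) := by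
  classical
  have hp := Q.pi_ne
  let β : Fin N × Fin 3 → ℤ := fun ρ => Q.v (x (r ρ).1)
  obtain ⟨k0, hk1, hk2⟩ := exists_median β
  rw [Fintype.card_prod, Fintype.card_fin, Fintype.card_fin, mul_comm N] at hk1 hk2
  let u : I → K := fun i => x i / Q.pi ^ Q.v (x i)
  let cf : Fin N × Fin 3 → ℤ → ℕ → K := fun c α j => (Q.pi ^ (4 * α)) ^ (c.2 : ℕ) *
    (((c.1 : ℕ).choose j : K) * ((α - k0 : ℤ) * Q.L Q.pi) ^ ((c.1 : ℕ) - j))
  let w : (ℤ × ℕ) × ℕ → Fin N × Fin 3 → K := fun j ρ =>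
    if β ρ = j.1.1 then rv (Q.L (u (r ρ).1)) (u (r ρ).1 ^ 4) (r ρ).2 j.1.2 j.2 else 0
  have e : (Matrix.of fun ρ c => rowv (fun i => Q.L (x i) + -(k0 * Q.L Q.pi)) (fun i => x i ^ 4)
      (r ρ) c) = Matrix.of fun ρ c => ∑ j : ↥(univ.image β) × Fin N,
        cf c j.1 j.2 * w ((j.1, j.2), c.2) ρ := by
    ext ρ c
    rw [Matrix.of_apply, Matrix.of_apply, Fintype.sum_prod_type, sum_eq_single ⟨β ρ, by simp⟩]
    · simp only [w, cf, if_true]
      rw [← rv_add]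
      have hz : Q.pi ^ Q.v (x (r ρ).1) ≠ 0 := zpow_ne_zero _ hp
      change rv _ _ _ _ _ = _
      congr 1
      · simp only [u, β]
        rw [Q.L_div (hx.ne _) hz, Q.L_zpow hp]; push_cast; ring
      · simp only [u, β]
        rw [mul_comm 4, zpow_mul, div_pow, zpow_ofNat]
        exact (mul_div_cancel₀ _ (pow_ne_zero 4 hz)).symm
    · exact fun α _ hne => sum_eq_zero fun j _ => by
        simp only [w]
        rw [if_neg fun h => hne (Subtype.ext h.symm), mul_zero]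
    · simp
  rw [← det_gauge _ _ (-(k0 * Q.L Q.pi)), e]
  refine geR_det_sum (fun c (j : ↥(univ.image β) × Fin N) ρ =>
    cf c j.1 j.2 * w ((j.1, j.2), c.2) ρ) fun a => ?_
  rw [det_col_mul]
  by_cases h0 : ∃ c, cf c (a c).1 (a c).2 = 0
  · obtain ⟨c, hc⟩ := h0
    exact Or.inl (by rw [prod_eq_zero (mem_univ c) hc, zero_mul])
  have hj : ∀ c, ((a c).2 : ℕ) ≤ c.1 := fun c => by
    by_contra h
    exact h0 ⟨c, by simp [cf, Nat.choose_eq_zero_of_lt (not_le.1 h)]⟩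
  by_cases hi : Function.Injective fun c => ((((a c).1 : ℤ), ((a c).2 : ℕ)), (c.2 : ℕ))
  swap
  · exact Or.inl (by rw [det_eq_zero_of_not_inj w hi, mul_zero])
  have h1 : Q.GeR (∏ c, cf c (a c).1 (a c).2) (∑ c, ((4 * (a c).1 * (c.2 : ℕ)
      - (if ((a c).1 : ℤ) - k0 = 0 then 0 else ((c.1 : ℕ) : ℤ) - ((a c).2 : ℕ)) : ℤ) : ℝ)) := by
    refine Place.GeR.prod fun c _ => Place.Ge.toR ?_
    refine ((Q.ge_pi_zpow _).pow _).mul' ((Q.ge_nat _).mul (m := -(if ((a c).1 : ℤ) - k0 = 0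
      then 0 else ((c.1 : ℕ) : ℤ) - ((a c).2 : ℕ))) ?_) (le_of_eq (by ring))
    split_ifs with h
    · simpa [h] using (Q.ge_zero 0).pow ((c.1 : ℕ) - (a c).2)
    · refine (((Q.ge_int _).mul Q.ge_L_pi).pow _).mono (le_of_eq ?_)
      rw [Nat.cast_sub (hj c)]; ring
  refine (h1.mul (geR_det_block β (fun c => (a c).1) _ (fun ρ c hne => if_neg hne)
    fun σ hσ => ⟨fun α => (2 * N + 7) / (12 * N) * (hx.lev Q α).T 0
      fun ρ : {ρ // β ρ = α} => r ρ, ?_, fun α => ?_⟩)).mono (le_of_eq (add_sub_cancel _ _).symm)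
  · have s1 := side hN (fun c => (a c).1 - k0) (fun c => (a c).2) hj
      (fun c c' e1 e2 e3 => hi (by simp only [sub_left_inj.1 e1, e2, e3]))
      (by rw [← card_equiv σ (s := {ρ | k0 < β ρ}) (by simp [hσ])]; exact hk1)
      (by rw [← card_equiv σ (s := {ρ | β ρ < k0}) (by simp [hσ])]; exact hk2)
    have s2 := dsum_block β (fun ρ ρ' => (Q.mu (x (r ρ).1) (x (r ρ').1) : ℝ)
      + ((|β ρ - β ρ'| : ℤ) : ℝ)) fun ρ ρ' hne => by
        rw [Q.mu_of_ne (hx.ne _) (hx.ne _) hne]; simp [β]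
    have s3 : ∑ α ∈ univ.image β, ∑ ρ : {ρ // β ρ = α}, ∑ ρ' : {ρ // β ρ = α},
        ((Q.mu (x (r ρ).1) (x (r ρ').1) : ℝ) + ((|β ρ - β ρ'| : ℤ) : ℝ))
        ≤ ∑ α ∈ univ.image β, (hx.lev Q α).T 0 fun ρ : {ρ // β ρ = α} => r ρ :=
      sum_le_sum fun α _ => sum_le_sum fun ρ _ => sum_le_sum fun ρ' _ => by
        have := (mu_unit (hx.add_ne (r ρ).1 (r ρ').1) (hx.ne _) (hx.ne _)
          (ρ.2.trans ρ'.2.symm)).2
        rw [ρ.2, ρ'.2, sub_self, abs_zero, Int.cast_zero, add_zero, ← this]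
        exact_mod_cast (by simp [Brick.lev])
    have s4 : ∑ c, ∑ c', ((|(a c).1 - k0 - ((a c').1 - k0)| : ℤ) : ℝ)
        = ∑ ρ, ∑ ρ', ((|β ρ - β ρ'| : ℤ) : ℝ) := by
      rw [← Equiv.sum_comp σ]
      refine sum_congr rfl fun ρ _ => ?_
      rw [← Equiv.sum_comp σ]
      simp [hσ]
    have s5 : ∑ ρ, (Q.v (x (r ρ).1) : ℝ) = ∑ c, (((a c).1 : ℤ) : ℝ) := by
      rw [← Equiv.sum_comp σ fun c => (((a c).1 : ℤ) : ℝ)]
      simp [hσ, β]
    have s6 : ∑ c : Fin N × Fin 3, (((c.2 : ℕ) : ℝ) - 1) = 0 := by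
      simp only [Fintype.sum_prod_type, Fin.sum_univ_three]
      norm_num
    have s7 : ∑ c, ((4 * ((a c).1 - k0) * ((c.2 : ℕ) - 1)
        - (if ((a c).1 : ℤ) - k0 = 0 then 0 else ((c.1 : ℕ) : ℤ) - ((a c).2 : ℕ)) : ℤ) : ℝ)
        = ∑ c, ((4 * (a c).1 * (c.2 : ℕ)
          - (if ((a c).1 : ℤ) - k0 = 0 then 0 else ((c.1 : ℕ) : ℤ) - ((a c).2 : ℕ)) : ℤ) : ℝ)
          - 4 * ∑ c, (((a c).1 : ℤ) : ℝ)
          - 4 * k0 * ∑ c : Fin N × Fin 3, (((c.2 : ℕ) : ℝ) - 1) := by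
      rw [mul_sum, mul_sum, ← sum_sub_distrib, ← sum_sub_distrib]
      exact sum_congr rfl fun c _ => by push_cast; ring
    have hl : (0 : ℝ) ≤ (2 * N + 7) / (12 * N) := by positivity
    have s8 := mul_le_mul_of_nonneg_left (s2.trans s3) hl
    simp only [sum_add_distrib] at s8
    have s9 : ((20 * N + 69) / (120 * N) : ℝ) = (2 * N + 7) / (12 * N) - 1 / (120 * N) := by
      have : (N : ℝ) ≠ 0 := Nat.cast_ne_zero.2 (by omega)
      field_simp; ring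
    rw [s4, s7, s6, s9] at s1
    rw [← mul_sum, s5]
    simp only [β] at s1 s8 ⊢
    linarith
  · have := (hx.lev Q α).tree hN (hr.sub (fun i => Q.v (x i) = α) fun ρ h => h)
      (fun c => (hx.lev Q α).XX ^ ((σ c).2 : ℕ) * (hx.lev Q α).TT ^ ((a (σ c)).2 : ℕ))
      fun c => inL_mono _ _ _ _
    convert this using 2
    ext ρ c
    rw [Matrix.of_apply, Matrix.of_apply, Lev.ev_mono]
    exact if_pos (ρ.2.trans ((hσ c).trans c.2).symm)

end Pool.Agent.Lib.MP_44626f_nt.FF
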