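import Pool.Agent.Lib.MP_44626f_nt.FF.Defs

/-!
Bricks over a field, and functions on places whose sum is a multiple of the canonical degree.
-/

open Polynomial

noncomputable section

namespace Pool.Agent.Lib.MP_44626f_nt.FF

variable {K : Type} [Field K]

/-- nonzero edges with distinct fourth powers and square face sums -/
structure Brick {I : Type} (x : I → K) : Prop where
  ne : ∀ i, x i ≠ 0
  inj : Function.Injective fun i => x i ^ 4
  sq : ∀ i j, i ≠ j → IsSquare (x i ^ 2 + x j ^ 2)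

lemma Brick.comp {I J : Type} {x : I → K} (h : Brick x) {f : J → I}
    (hf : Function.Injective f) : Brick fun j => x (f j) :=
  ⟨fun _ => h.ne _, h.inj.comp hf, fun _ _ hij => h.sq _ _ (hf.ne hij)⟩

lemma Brick.add_ne [CharZero K] {I : Type} {x : I → K} (h : Brick x) (i j : I) :
    x i ^ 2 + x j ^ 2 ≠ 0 := by
  intro h0
  have h1 : x i ^ 4 = x j ^ 4 := by linear_combination (x i ^ 2 - x j ^ 2) * h0
  have h2 : i = j := h.inj h1
  subst h2
  exact pow_ne_zero 2 (h.ne i) (by linear_combination (1 / 2 : K) * h0)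

namespace Glob

variable (G : Glob K)

/-- global logarithmic derivative -/
def L (f : K) : K := G.D f / f

lemma L_eq (p : G.P) (f : K) : (G.pl p).L f = G.g p * G.L f := by
  simp only [Place.L, L, G.D_eq]; ring

/-- the degree of the canonical class -/
def gam : ℝ := ∑ᶠ p, ((G.pl p).v (G.g p) : ℝ)

/-- the sum of `φ` over all places is `ω` times the degree of the canonical class -/
def Bal (φ : G.P → ℝ) (ω : ℝ) : Prop :=
  (Function.support φ).Finite ∧ ∑ᶠ p, φ p = ω * G.gam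

lemma cast_finsum {φ : G.P → ℤ} (h : (Function.support φ).Finite) :
    ∑ᶠ p, (φ p : ℝ) = ((∑ᶠ p, φ p : ℤ) : ℝ) :=
  ((Int.castAddHom ℝ).map_finsum h).symm

lemma bal_v {f : K} (hf : f ≠ 0) : G.Bal (fun p => ((G.pl p).v f : ℝ)) 0 :=
  ⟨(G.fin f hf).subset fun p hp => by simpa using hp,
    by rw [G.cast_finsum (G.fin f hf), G.sum f hf]; simp⟩

lemma bal_g : G.Bal (fun p => ((G.pl p).v (G.g p) : ℝ)) 1 :=
  ⟨G.gfin.subset fun p hp => by simpa using hp, by simp [gam]⟩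

lemma bal_zero : G.Bal (fun _ => 0) 0 := ⟨by simp, by simp⟩

variable {G}

lemma Bal.add {φ ψ : G.P → ℝ} {a b : ℝ} (h : G.Bal φ a) (h' : G.Bal ψ b) :
    G.Bal (fun p => φ p + ψ p) (a + b) :=
  ⟨(h.1.union h'.1).subset (Function.support_add _ _),
    by rw [finsum_add_distrib h.1 h'.1, h.2, h'.2]; ring⟩

lemma Bal.smul {φ : G.P → ℝ} {a : ℝ} (c : ℝ) (h : G.Bal φ a) :
    G.Bal (fun p => c * φ p) (c * a) :=
  ⟨h.1.subset (Function.support_mul_subset_right (fun _ => c) _),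
    by rw [← mul_finsum, h.2]; ring⟩

lemma Bal.sub {φ ψ : G.P → ℝ} {a b : ℝ} (h : G.Bal φ a) (h' : G.Bal ψ b) :
    G.Bal (fun p => φ p - ψ p) (a - b) := by
  simpa [sub_eq_add_neg] using h.add (h'.smul (-1))

lemma Bal.sum {ι : Type} (s : Finset ι) {φ : ι → G.P → ℝ} {a : ι → ℝ}
    (h : ∀ i ∈ s, G.Bal (φ i) (a i)) : G.Bal (fun p => ∑ i ∈ s, φ i p) (∑ i ∈ s, a i) := by
  classical
  induction s using Finset.induction_on with
  | empty => simpa using G.bal_zero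
  | insert i s hi ih =>
    simp only [Finset.sum_insert hi]
    exact (h i (Finset.mem_insert_self _ _)).add
      (ih fun j hj => h j (Finset.mem_insert_of_mem hj))

/-- the sum of `φ` over all places is at most `c` -/
def Sm (G : Glob K) (φ : G.P → ℝ) (c : ℝ) : Prop := (Function.support φ).Finite ∧ ∑ᶠ p, φ p ≤ c

lemma Bal.sm {φ : G.P → ℝ} {ω : ℝ} (h : G.Bal φ ω) : G.Sm φ (ω * G.gam) := ⟨h.1, h.2.le⟩

lemma Sm.mono {φ : G.P → ℝ} {a b : ℝ} (h : G.Sm φ a) (hab : a ≤ b) : G.Sm φ b :=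
  ⟨h.1, h.2.trans hab⟩

lemma Sm.of_le {φ ψ : G.P → ℝ} {a : ℝ} (h : G.Sm φ a) (hψ : (Function.support ψ).Finite)
    (hle : ∀ p, ψ p ≤ φ p) : G.Sm ψ a := ⟨hψ, (finsum_le_finsum' hψ h.1 hle).trans h.2⟩

lemma Sm.of_nonneg {φ ψ : G.P → ℝ} {a : ℝ} (h : G.Sm φ a) (h0 : ∀ p, 0 ≤ ψ p)
    (hle : ∀ p, ψ p ≤ φ p) : G.Sm ψ a :=
  h.of_le (h.1.subset fun p hp e => hp (le_antisymm (e ▸ hle p) (h0 p))) hle

lemma Sm.add {φ ψ : G.P → ℝ} {a b : ℝ} (h : G.Sm φ a) (h' : G.Sm ψ b) :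
    G.Sm (fun p => φ p + ψ p) (a + b) :=
  ⟨(h.1.union h'.1).subset (Function.support_add _ _),
    by rw [finsum_add_distrib h.1 h'.1]; exact add_le_add h.2 h'.2⟩

lemma Sm.smul {φ : G.P → ℝ} {a c : ℝ} (hc : 0 ≤ c) (h : G.Sm φ a) :
    G.Sm (fun p => c * φ p) (c * a) :=
  ⟨h.1.subset (Function.support_mul_subset_right (fun _ => c) _),
    by rw [← mul_finsum]; exact mul_le_mul_of_nonneg_left h.2 hc⟩

lemma Sm.sum {ι : Type} (s : Finset ι) {φ : ι → G.P → ℝ} {a : ι → ℝ}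
    (h : ∀ i ∈ s, G.Sm (φ i) (a i)) : G.Sm (fun p => ∑ i ∈ s, φ i p) (∑ i ∈ s, a i) := by
  classical
  induction s using Finset.induction_on with
  | empty => simpa using G.bal_zero.sm
  | insert i s hi ih =>
    simp only [Finset.sum_insert hi]
    exact (h i (Finset.mem_insert_self _ _)).add
      (ih fun j hj => h j (Finset.mem_insert_of_mem hj))

/-- twice the degree of the ratio -/
def dist (G : Glob K) (a b : K) : ℝ := ∑ᶠ p, ((|(G.pl p).v a - (G.pl p).v b| : ℤ) : ℝ)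

lemma dist_fin {a b : K} (ha : a ≠ 0) (hb : b ≠ 0) :
    (Function.support fun p => ((|(G.pl p).v a - (G.pl p).v b| : ℤ) : ℝ)).Finite :=
  ((G.bal_v ha).sub (G.bal_v hb)).1.subset fun p hp e => hp (by
    have e' : ((G.pl p).v a : ℝ) - (G.pl p).v b = 0 := e
    have : (G.pl p).v a - (G.pl p).v b = 0 := by exact_mod_cast e'
    simp [this])

lemma sm_dist {a b : K} (ha : a ≠ 0) (hb : b ≠ 0) :
    G.Sm (fun p => ((|(G.pl p).v a - (G.pl p).v b| : ℤ) : ℝ)) (G.dist a b) :=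
  ⟨dist_fin ha hb, le_rfl⟩

lemma dist_le {a b : K} {φ : G.P → ℝ} {c : ℝ} (h : G.Sm φ c)
    (hle : ∀ p, ((|(G.pl p).v a - (G.pl p).v b| : ℤ) : ℝ) ≤ φ p) : G.dist a b ≤ c :=
  (h.of_nonneg (fun _ => by positivity) hle).2

lemma dist_nonneg (a b : K) : 0 ≤ G.dist a b := finsum_nonneg fun _ => by positivity

lemma dist_comm (a b : K) : G.dist a b = G.dist b a := by simp only [dist, abs_sub_comm]

lemma dist_self (a : K) : G.dist a a = 0 := by simp [dist]

lemma dist_triangle {a b c : K} (ha : a ≠ 0) (hb : b ≠ 0) (hc : c ≠ 0) :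
    G.dist a c ≤ G.dist a b + G.dist b c :=
  dist_le ((sm_dist ha hb).add (sm_dist hb hc)) fun _ => by exact_mod_cast abs_sub_le _ _ _

end Glob

end Pool.Agent.Lib.MP_44626f_nt.FF
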