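import Mathlib

/-!
The counting argument behind the local inequality for points on a curve of degree one.
-/

open Polynomial Finset

noncomputable section

namespace Pool.Agent.Lib.MP_44626f_nt.FF

/-- numerical data of points on a curve `X = A / B` at one place -/
structure Num (I : Type) (Dg : ℕ) where
  k : I → ℤ
  V : I → I → ℤ
  mu : I → I → ℤ
  c2 : I → I → Prop
  sg : I → Bool
  h : I → ℤ
  w : I → ℤ
  wh : I → ℤ
  R : I → ℤ
  La : I → ℤ
  V_symm : ∀ i j, V i j = V j i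
  c2_refl : ∀ i, c2 i i
  c2_symm : ∀ i j, c2 i j → c2 j i
  c2_trans : ∀ i j l, c2 i j → c2 j l → c2 i l
  c2_V : ∀ i j, i ≠ j → c2 i j → 1 ≤ V i j
  lev_ne : ∀ i j, k i ≠ k j → V i j ≤ 0 ∧ V i j - mu i j = |k i - k j| - 1
  lev_eq : ∀ i j, i ≠ j → k i = k j →
    (mu i j = 0 ∧ 0 ≤ V i j) ∨ (c2 i j ∧ sg i ≠ sg j ∧ V i j - mu i j = -1)
  w_nonneg : ∀ i, 0 ≤ w i
  wh_nonneg : ∀ i, 0 ≤ wh i
  R_nonneg : ∀ i, 0 ≤ R i
  La_nonneg : ∀ i, 0 ≤ La i
  h_ge : ∀ i, -2 * w i ≤ h i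
  h_good : ∀ i j, i ≠ j → c2 i j → w i = 0 → 1 ≤ h i
  h_hat : ∀ i, 1 - 2 * wh i ≤ h i
  wh_le : ∀ i, wh i ≤ w i + 2
  lag_w : ∀ (s : ℕ) (S : Finset I), (∀ i ∈ S, ∀ j ∈ S, k i = k j) →
    (∀ i ∈ S, (Dg : ℤ) * s + 1 ≤ w i) → (∀ i ∈ S, ∀ j ∈ S, i ≠ j → V i j ≤ s) → #S ≤ Dg
  lag_wh : ∀ (s : ℕ) (S : Finset I), (∀ i ∈ S, ∀ j ∈ S, c2 i j) →
    (∀ i ∈ S, (Dg : ℤ) * s + 1 ≤ wh i) → (∀ i ∈ S, ∀ j ∈ S, i ≠ j → V i j ≤ s + 1) → #S ≤ Dg
  lag_lev : ∀ S : Finset I, (∀ i ∈ S, 1 ≤ w i) → (∀ i ∈ S, ∀ j ∈ S, i ≠ j → k i ≠ k j) →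
    #S ≤ 2 * Dg
  w_le : ∀ i j, w i ≤ R j + 2 * Dg + 8 * |k i - k j|
  one_le : ∀ i j, 1 ≤ w i → 1 ≤ R j + La j
  pair_le : ∀ i j, k i ≠ k j → 1 ≤ La i + La j
  w_le_R : ∀ i, w i ≤ R i

theorem cover {I : Type} (E : I → I → Prop) (hE : ∀ i j, E i j → E j i) (A : Finset I) (q l : ℕ)
    (hq : ∀ S ⊆ A, (∀ i ∈ S, ∀ j ∈ S, i ≠ j → ¬ E i j) → #S ≤ q)
    (hl : ∀ i ∈ A, ∀ T ⊆ A, (∀ j ∈ T, j = i ∨ E i j) → #T ≤ l) : #A ≤ q * l := by
  classical
  obtain ⟨S, hS, hmax⟩ := exists_max_image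
    (A.powerset.filter (fun S => ∀ i ∈ S, ∀ j ∈ S, i ≠ j → ¬ E i j)) card ⟨∅, by simp⟩
  simp only [mem_filter, mem_powerset] at hS hmax
  have hsub : A ⊆ S.biUnion (fun i => {j ∈ A | j = i ∨ E i j}) := by
    intro j hj
    by_contra hn
    simp only [mem_biUnion, mem_filter, not_exists, not_and, not_or] at hn
    have hjS : j ∉ S := fun h => (hn j h hj).1 rfl
    have := hmax (insert j S) ⟨insert_subset hj hS.1, ?_⟩
    · rw [card_insert_of_notMem hjS] at this; omega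
    · intro a ha b hb hab
      rcases mem_insert.1 ha with rfl | ha' <;> rcases mem_insert.1 hb with rfl | hb'
      · exact absurd rfl hab
      · exact fun h => (hn b hb' hj).2 (hE _ _ h)
      · exact (hn a ha' hj).2
      · exact hS.2 a ha' b hb' hab
  calc #A ≤ _ := card_le_card hsub
    _ ≤ ∑ i ∈ S, #{j ∈ A | j = i ∨ E i j} := card_biUnion_le
    _ ≤ ∑ _i ∈ S, l := sum_le_sum fun i hi =>
        hl i (hS.1 hi) _ (filter_subset _ _) (fun j hj => (mem_filter.1 hj).2)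
    _ = #S * l := by simp
    _ ≤ q * l := Nat.mul_le_mul_right _ (hq S hS.1 hS.2)

theorem split_sg {I : Type} (sg : I → Bool) (S : Finset I) (m : ℕ)
    (h : ∀ T ⊆ S, (∀ i ∈ T, ∀ j ∈ T, sg i = sg j) → #T ≤ m) : #S ≤ 2 * m := by
  classical
  have h1 := h {i ∈ S | sg i = true} (filter_subset _ _) (fun i hi j hj => by
    rw [(mem_filter.1 hi).2, (mem_filter.1 hj).2])
  have h2 := h {i ∈ S | ¬ sg i = true} (filter_subset _ _) (fun i hi j hj => by
    have a := (mem_filter.1 hi).2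
    have b := (mem_filter.1 hj).2
    simp only [Bool.not_eq_true] at a b
    rw [a, b])
  have := card_filter_add_card_filter_not (s := S) (fun i => sg i = true)
  omega

theorem layer_le (D F : ℕ) (x : ℤ) :
    min x (D * F) ≤ D * ∑ s ∈ range F, (if (D : ℤ) * s + 1 ≤ x then (1 : ℤ) else 0) := by
  induction F with
  | zero => simp
  | succ F ih =>
    rw [sum_range_succ, mul_add]
    have hD : (0 : ℤ) ≤ D := by positivity
    push_cast
    rw [mul_add, mul_one]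
    split_ifs with h
    · rw [min_eq_right (by omega)] at ih
      have := min_le_right x ((D : ℤ) * F + D)
      omega
    · rw [min_eq_left (by omega)] at ih
      have := min_le_left x ((D : ℤ) * F + D)
      omega

theorem count_le (F : ℕ) (v : ℤ) :
    ∑ s ∈ range F, (if (s : ℤ) + 2 ≤ v then (1 : ℤ) else 0) ≤ min (F : ℤ) (max (v - 1) 0) := by
  induction F with
  | zero => simp
  | succ F ih =>
    rw [sum_range_succ]
    push_cast
    split_ifs with h <;> omega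

theorem tail {I : Type} [Fintype I] [DecidableEq I] (sg : I → Bool) (V : I → I → ℤ)
    (hV : ∀ i j, V i j = V j i) (A : Finset I) (f : I → ℤ) (D q L F : ℕ) (hD : 1 ≤ D)
    (hfF : ∀ i ∈ A, f i ≤ F)
    (hq : ∀ s : ℕ, ∀ S ⊆ A, (∀ i ∈ S, (D : ℤ) * s + 1 ≤ f i) →
      (∀ i ∈ S, ∀ j ∈ S, i ≠ j → ¬ (sg i = sg j ∧ (s : ℤ) + 2 ≤ V i j)) → #S ≤ q) :
    (L : ℤ) * ∑ i ∈ A, f i ≤
      D * (∑ i, ∑ j ∈ univ.erase i, (if sg i = sg j then max (V i j - 1) 0 else 0)
        + q * L ^ 2 * F) := by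
  have hA : ∑ i ∈ A, f i ≤
      D * ∑ s ∈ range F, ∑ i ∈ A, (if (D : ℤ) * s + 1 ≤ f i then (1 : ℤ) else 0) := by
    rw [sum_comm, mul_sum]
    refine sum_le_sum fun i hi => ?_
    have h1 := layer_le D F (f i)
    have h2 : (F : ℤ) ≤ D * F := by
      have : (1 : ℤ) ≤ D := by exact_mod_cast hD
      nlinarith [Int.natCast_nonneg F]
    rwa [min_eq_left ((hfF i hi).trans h2)] at h1
  have hB : ∀ s : ℕ, (L : ℤ) * ∑ i ∈ A, (if (D : ℤ) * s + 1 ≤ f i then (1 : ℤ) else 0) ≤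
      q * L ^ 2 + ∑ i, ∑ j ∈ univ.erase i,
        (if sg i = sg j ∧ (s : ℤ) + 2 ≤ V i j then (1 : ℤ) else 0) := by
    intro s
    set deg : I → ℕ := fun i => #{j ∈ univ.erase i | sg i = sg j ∧ (s : ℤ) + 2 ≤ V i j} with hdeg
    have hdz : ∀ i, ∑ j ∈ univ.erase i,
        (if sg i = sg j ∧ (s : ℤ) + 2 ≤ V i j then (1 : ℤ) else 0) = deg i := by
      intro i
      rw [hdeg, sum_boole]
    set B : Finset I := {i ∈ A | (D : ℤ) * s + 1 ≤ f i ∧ deg i < L} with hBd
    have hBc : #B ≤ q * L := by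
      refine cover (fun i j => sg i = sg j ∧ (s : ℤ) + 2 ≤ V i j)
        (fun i j h => ⟨h.1.symm, hV i j ▸ h.2⟩) B q L (fun S hS hind => ?_) (fun i hi T _ hT => ?_)
      · exact hq s S (hS.trans (filter_subset _ _)) (fun i hi => (mem_filter.1 (hS hi)).2.1) hind
      · have hsub : T ⊆ insert i {j ∈ univ.erase i | sg i = sg j ∧ (s : ℤ) + 2 ≤ V i j} := by
          intro j hj
          by_cases hji : j = i
          · simp [hji]
          · rcases hT j hj with h | h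
            · exact absurd h hji
            · exact mem_insert_of_mem (mem_filter.2 ⟨mem_erase.2 ⟨hji, mem_univ _⟩, h⟩)
        have h1 := (card_le_card hsub).trans (card_insert_le _ _)
        have h2 : deg i < L := (mem_filter.1 hi).2.2
        simp only [hdeg] at h2
        omega
    have hpt : ∀ i ∈ A, (L : ℤ) * (if (D : ℤ) * s + 1 ≤ f i then (1 : ℤ) else 0) ≤
        L * (if (D : ℤ) * s + 1 ≤ f i ∧ deg i < L then (1 : ℤ) else 0) + deg i := by
      intro i _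
      by_cases h1 : (D : ℤ) * s + 1 ≤ f i <;> by_cases h2 : deg i < L <;> simp [h1, h2]
      omega
    have hs : ∑ i ∈ A, (if (D : ℤ) * s + 1 ≤ f i ∧ deg i < L then (1 : ℤ) else 0) = #B := by
      rw [hBd, sum_boole]
    have hle : ∑ i ∈ A, (deg i : ℤ) ≤ ∑ i, (deg i : ℤ) :=
      sum_le_sum_of_subset_of_nonneg (subset_univ _) (fun i _ _ => by positivity)
    have hBz : (#B : ℤ) ≤ q * L := by exact_mod_cast hBc
    simp only [hdz]
    rw [mul_sum]
    refine (sum_le_sum hpt).trans ?_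
    rw [sum_add_distrib, ← mul_sum, hs]
    nlinarith [Int.natCast_nonneg L]
  have hC : ∑ s ∈ range F, ∑ i, ∑ j ∈ univ.erase i,
        (if sg i = sg j ∧ (s : ℤ) + 2 ≤ V i j then (1 : ℤ) else 0) ≤
      ∑ i, ∑ j ∈ univ.erase i, (if sg i = sg j then max (V i j - 1) 0 else 0) := by
    rw [sum_comm]
    refine sum_le_sum fun i _ => ?_
    rw [sum_comm]
    refine sum_le_sum fun j _ => ?_
    by_cases h : sg i = sg j
    · simp only [h, true_and, if_true]
      exact (count_le F (V i j)).trans (min_le_right _ _)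
    · simp [h]
  have hS := sum_le_sum (s := range F) (fun s _ => hB s)
  rw [← mul_sum, sum_add_distrib, sum_const, card_range, nsmul_eq_mul] at hS
  have hDz : (0 : ℤ) ≤ D := by positivity
  have hLz : (0 : ℤ) ≤ L := by positivity
  calc (L : ℤ) * ∑ i ∈ A, f i ≤ L * (D * ∑ s ∈ range F, ∑ i ∈ A,
        (if (D : ℤ) * s + 1 ≤ f i then (1 : ℤ) else 0)) := mul_le_mul_of_nonneg_left hA hLz
    _ = D * (L * ∑ s ∈ range F, ∑ i ∈ A, (if (D : ℤ) * s + 1 ≤ f i then (1 : ℤ) else 0)) := by ring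
    _ ≤ _ := mul_le_mul_of_nonneg_left (by linarith) hDz

theorem class_nonneg {I J : Type} [Fintype I] [Fintype J] [DecidableEq J] (c : I → J) (x : I → ℤ) :
    0 ≤ ∑ i, ∑ j, (if c j = c i then x i * x j else 0) := by
  rw [← sum_fiberwise (s := univ) c]
  refine sum_nonneg fun a _ => ?_
  have : ∑ i ∈ univ with c i = a, ∑ j, (if c j = c i then x i * x j else 0) =
      (∑ i ∈ univ with c i = a, x i) * (∑ i ∈ univ with c i = a, x i) := by
    rw [sum_mul_sum]
    refine sum_congr rfl fun i hi => ?_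
    rw [(mem_filter.1 hi).2, sum_filter]
  rw [this]
  exact mul_self_nonneg _

namespace Num

variable {I : Type} {D : ℕ} (u : Num I D)

theorem lagAll (s : ℕ) (S : Finset I) (hw : ∀ i ∈ S, (D : ℤ) * s + 1 ≤ u.w i)
    (hV : ∀ i ∈ S, ∀ j ∈ S, i ≠ j → u.V i j ≤ s) : #S ≤ 2 * D * D := by
  have h0 : (0 : ℤ) ≤ D * s := by positivity
  refine cover (fun i j => u.k i = u.k j) (fun i j h => h.symm) S _ _ (fun T hT hind => ?_)
    (fun i _ T hT h => ?_)
  · exact u.lag_lev T (fun i hi => by have := hw i (hT hi); omega) hind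
  · have hk : ∀ j ∈ T, u.k j = u.k i := fun j hj => by
      rcases h j hj with rfl | h
      · rfl
      · exact h.symm
    exact u.lag_w s T (fun a ha b hb => by rw [hk a ha, hk b hb]) (fun a ha => hw a (hT ha))
      (fun a ha b hb => hV a (hT ha) b (hT hb))

theorem ind_w (s : ℕ) (S : Finset I) (hw : ∀ i ∈ S, (D : ℤ) * s + 1 ≤ max (u.w i - D) 0)
    (hE : ∀ i ∈ S, ∀ j ∈ S, i ≠ j → ¬ (u.sg i = u.sg j ∧ (s : ℤ) + 2 ≤ u.V i j)) :
    #S ≤ 2 * D * D * (6 * D + 1) := by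
  have h0 : (0 : ℤ) ≤ D * s := by positivity
  have h1 : #S ≤ 2 * (2 * D * D) := by
    refine split_sg u.sg S _ fun T hT hsg => u.lagAll (s + 1) T (fun i hi => ?_)
      (fun i hi j hj hij => ?_)
    · have := hw i (hT hi)
      push_cast
      rw [mul_add, mul_one]
      omega
    · have h2 := hE i (hT hi) j (hT hj) hij
      push_cast
      by_contra hc
      exact h2 ⟨hsg i hi j hj, by omega⟩
  rcases Nat.eq_zero_or_pos D with rfl | hD
  · simpa using h1
  · nlinarith [Nat.zero_le (D * D)]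

theorem ind_wh (s : ℕ) (S : Finset I) (hbad : ∀ i ∈ S, 1 ≤ u.w i)
    (hT : ∀ i ∈ S, ∀ T : Finset I, (∀ j ∈ T, j ≠ i ∧ 1 ≤ u.V i j ∧ ¬ u.c2 i j) → #T ≤ 4 * D + 1)
    (hw : ∀ i ∈ S, (D : ℤ) * s + 1 ≤ u.wh i)
    (hE : ∀ i ∈ S, ∀ j ∈ S, i ≠ j → ¬ (u.sg i = u.sg j ∧ (s : ℤ) + 2 ≤ u.V i j)) :
    #S ≤ 2 * D * D * (6 * D + 1) := by
  classical
  refine cover (fun i j => 1 ≤ u.V i j) (fun i j h => u.V_symm i j ▸ h) S _ _
    (fun T hTS hind => ?_) (fun i hi T hTS h => ?_)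
  · refine u.lagAll 0 T (fun i hi => by simpa using hbad i (hTS hi)) (fun i hi j hj hij => ?_)
    have := hind i hi j hj hij
    push_cast
    omega
  · have h1 : #{j ∈ T | u.c2 i j} ≤ 2 * D := by
      refine split_sg u.sg _ _ fun W hW hsg => u.lag_wh s W (fun a ha b hb => ?_)
        (fun a ha => hw a (hTS (mem_filter.1 (hW ha)).1)) (fun a ha b hb hab => ?_)
      · exact u.c2_trans a i b (u.c2_symm _ _ (mem_filter.1 (hW ha)).2) (mem_filter.1 (hW hb)).2
      · have h2 := hE a (hTS (mem_filter.1 (hW ha)).1) b (hTS (mem_filter.1 (hW hb)).1) hab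
        by_contra hc
        exact h2 ⟨hsg a ha b hb, by omega⟩
    have h2 : #{j ∈ T | ¬ u.c2 i j} ≤ 4 * D + 1 := by
      refine hT i hi _ fun j hj => ?_
      obtain ⟨hjT, hc⟩ := mem_filter.1 hj
      have hji : j ≠ i := fun e => hc (e ▸ u.c2_refl _)
      exact ⟨hji, (h j hjT).resolve_left hji, hc⟩
    have := card_filter_add_card_filter_not (s := T) (fun j => u.c2 i j)
    omega

open Classical in
theorem pair_ge (i j : I) (hij : i ≠ j) :
    (if u.c2 i j then (if u.sg i = u.sg j then (1 : ℤ) else -1) else 0)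
      + (if u.sg i = u.sg j then max (u.V i j - 1) 0 else 0)
      + (if 1 ≤ u.V i j ∧ ¬ u.c2 i j then (1 : ℤ) else 0)
      + max (|u.k i - u.k j| - 1) 0 ≤ u.V i j - u.mu i j := by
  have hc := u.c2_V i j hij
  by_cases hk : u.k i = u.k j
  · have h0 : max (|u.k i - u.k j| - 1) 0 = 0 := by simp [hk]
    rw [h0]
    rcases u.lev_eq i j hij hk with ⟨h1, h2⟩ | ⟨h1, h2, h3⟩
    · by_cases a : u.c2 i j <;> by_cases b : u.sg i = u.sg j <;> by_cases c : 1 ≤ u.V i j <;>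
        simp only [a, b, c, if_true, if_false, not_true, not_false_iff, and_true, and_false,
          forall_true_left] at hc ⊢ <;> omega
    · simp [h1, h2, h3]
  · obtain ⟨h1, h2⟩ := u.lev_ne i j hk
    have h3 : ¬ u.c2 i j := fun h => by have := hc h; omega
    have h4 : ¬ 1 ≤ u.V i j := by omega
    have h5 : 1 ≤ |u.k i - u.k j| := Int.one_le_abs (sub_ne_zero.2 hk)
    have h6 : max (u.V i j - 1) 0 = 0 := by omega
    simp only [h3, h4, h6, if_false, false_and, ite_self]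
    omega

open Classical in
theorem sign_ge [Fintype I] [DecidableEq I] :
    -∑ i, (if ∃ j, j ≠ i ∧ u.c2 i j then (1 : ℤ) else 0) ≤
      ∑ i, ∑ j ∈ univ.erase i,
        (if u.c2 i j then (if u.sg i = u.sg j then (1 : ℤ) else -1) else 0) := by
  set x : I → ℤ := fun i =>
    if ∃ j, j ≠ i ∧ u.c2 i j then (if u.sg i = true then 1 else -1) else 0 with hx
  have h := class_nonneg (fun i => {j ∈ (univ : Finset I) | u.c2 i j}) x
  have hc : ∀ i j, ({l ∈ (univ : Finset I) | u.c2 j l} = {l ∈ (univ : Finset I) | u.c2 i l}) ↔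
      u.c2 i j := by
    intro i j
    constructor
    · intro e
      have : j ∈ {l ∈ (univ : Finset I) | u.c2 j l} := by simp [u.c2_refl]
      rw [e] at this
      exact (mem_filter.1 this).2
    · intro e
      ext l
      simp only [mem_filter, mem_univ, true_and]
      exact ⟨u.c2_trans i j l e, u.c2_trans j i l (u.c2_symm _ _ e)⟩
  simp only [hc] at h
  rw [neg_le_iff_add_nonneg, ← sum_add_distrib]
  refine h.trans (le_of_eq (sum_congr rfl fun i _ => ?_))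
  rw [← sum_erase_add _ _ (mem_univ i)]
  congr 1
  · refine sum_congr rfl fun j hj => ?_
    have hji := (mem_erase.1 hj).1
    by_cases e : u.c2 i j
    · have e1 : ∃ l, l ≠ i ∧ u.c2 i l := ⟨j, hji, e⟩
      have e2 : ∃ l, l ≠ j ∧ u.c2 j l := ⟨i, hji.symm, u.c2_symm _ _ e⟩
      simp only [hx, e, e1, e2, if_true]
      cases u.sg i <;> cases u.sg j <;> simp
    · simp [e]
  · simp only [hx, u.c2_refl, if_true]
    split_ifs <;> simp

end Num

theorem point_ge (n K D w wh h T c : ℤ) (hn : K * (D + 1) ≤ n) (hK : 0 ≤ K) (hD : 0 ≤ D)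
    (hw : 0 ≤ w) (hT : 0 ≤ T) (hc0 : 0 ≤ c) (hc : c ≤ 1) (h1 : -2 * w ≤ h)
    (h2 : c = 1 → w = 0 → 1 ≤ h) (h3 : 1 - 2 * wh ≤ h) :
    -(n * (5 * max (w - D) 0 + 4 * (if 1 ≤ w ∧ T ≤ 4 * D + 1 then wh else 0))) ≤
      n * (-c + T + 2 * h) - K * w := by
  have hKn : K ≤ n := by nlinarith
  have hn0 : 0 ≤ n := hK.trans hKn
  by_cases hw0 : w = 0
  · have e : 0 ≤ -c + T + 2 * h := by
      by_cases hc1 : c = 1
      · have := h2 hc1 hw0; omega
      · omega
    have e1 : max (w - D) 0 = 0 := by omega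
    rw [e1, if_neg (by omega), hw0]
    nlinarith [mul_nonneg hn0 e]
  by_cases hwD : w ≤ D
  · have e1 : max (w - D) 0 = 0 := by omega
    have e2 : K * w ≤ n := by nlinarith
    rw [e1]
    split_ifs with hU
    · nlinarith [mul_nonneg hn0 (show 0 ≤ -c + T + 2 * h + 4 * wh - 1 by omega)]
    · nlinarith [mul_nonneg hn0 (show 0 ≤ -c + T + 2 * h - 1 by omega)]
  · have e1 : max (w - D) 0 = w - D := by omega
    have e2 : K * w ≤ n * (w - D) := by
      nlinarith [mul_le_mul_of_nonneg_right hKn (show 0 ≤ w - D - 1 by omega)]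
    rw [e1]
    split_ifs with hU
    · nlinarith [mul_nonneg hn0 (show 0 ≤ -c + T + 2 * h + 4 * wh + 4 * (w - D) by omega)]
    · nlinarith [mul_nonneg hn0 (show 0 ≤ -c + T + 2 * h + 4 * (w - D) by omega)]

theorem comb (Dg : ℕ) : ∃ κ n1 : ℕ, ∀ (I : Type) [Fintype I] [DecidableEq I] (u : Num I Dg),
    n1 ≤ Fintype.card I →
    ∑ i, ∑ j, |u.k i - u.k j| + ∑ i, u.w i ≤ 2 * (Fintype.card I : ℤ) *
      ((Fintype.card I : ℤ) * ∑ i, ∑ j ∈ univ.erase i, (u.V i j - u.mu i j)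
      + 2 * (Fintype.card I : ℤ) * ∑ i, u.h i
      + κ * ∑ i, (u.R i + u.La i - (2 * Dg + 2) * u.w i)) := by
  obtain ⟨q, hq⟩ : ∃ q : ℕ, q = 2 * Dg * Dg * (6 * Dg + 1) := ⟨_, rfl⟩
  obtain ⟨C, hC⟩ : ∃ C : ℕ, C = 81 * q * Dg ^ 2 := ⟨_, rfl⟩
  obtain ⟨κ, hκ⟩ : ∃ κ : ℕ, κ = C * (2 * Dg + 11) + 1 := ⟨_, rfl⟩
  refine ⟨κ, 16 * C + κ * (2 * Dg + 2) * (Dg + 1) + 1, fun I _ _ u hn => ?_⟩
  classical
  obtain ⟨n, hnd⟩ : ∃ n : ℤ, n = Fintype.card I := ⟨_, rfl⟩
  rw [← hnd]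
  have hnz : 16 * (C : ℤ) + κ * (2 * Dg + 2) * (Dg + 1) + 1 ≤ n := by
    rw [hnd]; exact_mod_cast hn
  have hC0 : (0 : ℤ) ≤ C := by positivity
  have hK0 : (0 : ℤ) ≤ κ * (2 * Dg + 2) := by positivity
  have hK1 : (0 : ℤ) ≤ κ * (2 * Dg + 2) * (Dg + 1) := by positivity
  have hn0 : 0 ≤ n := by linarith
  set c : I → ℤ := fun i => if ∃ j, j ≠ i ∧ u.c2 i j then (1 : ℤ) else 0 with hc
  set T : I → ℤ := fun i =>
    ∑ j ∈ univ.erase i, (if 1 ≤ u.V i j ∧ ¬ u.c2 i j then (1 : ℤ) else 0) with hT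
  set S : ℤ := ∑ i, ∑ j ∈ univ.erase i,
    (if u.sg i = u.sg j then max (u.V i j - 1) 0 else 0) with hS
  set P : I → ℤ := fun i => ∑ j ∈ univ.erase i, max (|u.k i - u.k j| - 1) 0 with hP
  set U : Finset I := {i | 1 ≤ u.w i ∧ T i ≤ 4 * Dg + 1} with hU
  have hS0 : 0 ≤ S := sum_nonneg fun i _ => sum_nonneg fun j _ => by
    split_ifs
    · exact le_max_right _ _
    · exact le_rfl
  have hP0 : ∀ i, 0 ≤ P i := fun i => sum_nonneg fun j _ => le_max_right _ _
  have hT0 : ∀ i, 0 ≤ T i := fun i => sum_nonneg fun j _ => by split_ifs <;> simp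
  have hRL : ∀ i, 0 ≤ u.R i + u.La i := fun i => add_nonneg (u.R_nonneg i) (u.La_nonneg i)
  have h1 : -∑ i, c i + S + ∑ i, T i + ∑ i, P i ≤
      ∑ i, ∑ j ∈ univ.erase i, (u.V i j - u.mu i j) := by
    have a := u.sign_ge
    have b := sum_le_sum (s := (univ : Finset I)) fun i _ =>
      sum_le_sum (s := univ.erase i) fun j hj => u.pair_ge i j (mem_erase.1 hj).1.symm
    simp only [sum_add_distrib] at b
    have a' : -∑ i, c i ≤ ∑ i, ∑ j ∈ univ.erase i,
        (if u.c2 i j then (if u.sg i = u.sg j then (1 : ℤ) else -1) else 0) := by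
      convert a
    have b' : ∑ i, ∑ j ∈ univ.erase i,
        (if u.c2 i j then (if u.sg i = u.sg j then (1 : ℤ) else -1) else 0) + S + ∑ i, T i
        + ∑ i, P i ≤ ∑ i, ∑ j ∈ univ.erase i, (u.V i j - u.mu i j) := by
      convert b
    linarith
  have h2 : -(n * (5 * ∑ i, max (u.w i - Dg) 0 + 4 * ∑ i ∈ U, u.wh i)) ≤
      n * (-∑ i, c i + ∑ i, T i + 2 * ∑ i, u.h i) - κ * (2 * Dg + 2) * ∑ i, u.w i := by
    have b := sum_le_sum (s := (univ : Finset I)) fun i _ =>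
      point_ge n (κ * (2 * Dg + 2)) Dg (u.w i) (u.wh i) (u.h i) (T i) (c i) (by linarith) hK0
        (by positivity) (u.w_nonneg i) (hT0 i) (by simp only [hc]; split_ifs <;> simp)
        (by simp only [hc]; split_ifs <;> simp) (u.h_ge i)
        (fun e e0 => by
          by_cases hx : ∃ j, j ≠ i ∧ u.c2 i j
          · obtain ⟨j, hj, hj2⟩ := hx
            exact u.h_good i j hj.symm hj2 e0
          · simp [hc, hx] at e) (u.h_hat i)
    rw [hU, sum_filter]
    simpa only [sum_neg_distrib, sum_sub_distrib, sum_add_distrib, ← mul_sum] using b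
  have hUm : ∀ i ∈ U, 1 ≤ u.w i ∧ T i ≤ 4 * Dg + 1 := fun i hi => (mem_filter.1 hi).2
  clear_value U P S T c
  have hκz : (κ : ℤ) = C * (2 * Dg + 11) + 1 := by rw [hκ]; push_cast; ring
  have hPs : 0 ≤ ∑ i, P i := sum_nonneg fun i _ => hP0 i
  have h3 : 2 * (n * (5 * ∑ i, max (u.w i - Dg) 0 + 4 * ∑ i ∈ U, u.wh i)) ≤
      2 * (n * S) + n * ∑ i, P i + 2 * (C * (2 * Dg + 11) * ∑ i, (u.R i + u.La i)) := by
    have hRs : 0 ≤ ∑ i, (u.R i + u.La i) := sum_nonneg fun i _ => hRL i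
    by_cases hbad : ∃ i, 1 ≤ u.w i
    · obtain ⟨i0, hi0⟩ := hbad
      obtain ⟨m, -, hm⟩ := exists_max_image univ u.w ⟨i0, mem_univ _⟩
      have hm1 : 1 ≤ u.w m := hi0.trans (hm i0 (mem_univ _))
      have hD : 1 ≤ Dg := by
        have := u.lag_w 0 {m} (by simp) (by simpa using hm1) (by simp)
        simpa using this
      have hDz : (1 : ℤ) ≤ Dg := by exact_mod_cast hD
      obtain ⟨F, hF⟩ : ∃ F : ℕ, (F : ℤ) = u.w m + 2 := ⟨(u.w m + 2).toNat, by omega⟩
      have t1 := tail u.sg u.V u.V_symm univ (fun i => max (u.w i - Dg) 0) Dg q (9 * Dg) F hD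
        (fun i hi => by have := hm i hi; omega) (fun s W _ hw hE => hq ▸ u.ind_w s W hw hE)
      have t2 := tail u.sg u.V u.V_symm U u.wh Dg q (9 * Dg) F hD
        (fun i _ => by have := hm i (mem_univ _); have := u.wh_le i; omega)
        (fun s W hW hw hE => hq ▸ u.ind_wh s W (fun i hi => (hUm i (hW hi)).1)
          (fun i hi X hX => by
            have a : T i ≤ 4 * Dg + 1 := (hUm i (hW hi)).2
            simp only [hT, sum_boole] at a
            have b : X ⊆ {j ∈ univ.erase i | 1 ≤ u.V i j ∧ ¬ u.c2 i j} := fun j hj =>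
              mem_filter.2 ⟨mem_erase.2 ⟨(hX j hj).1, mem_univ _⟩, (hX j hj).2⟩
            have := card_le_card b
            omega) hw hE)
      rw [← hS] at t1 t2
      have hCz : (q : ℤ) * ((9 * Dg : ℕ) : ℤ) ^ 2 = C := by rw [hC]; push_cast; ring
      rw [hCz] at t1 t2
      have t3 : 9 * ∑ i, max (u.w i - Dg) 0 ≤ S + C * F :=
        le_of_mul_le_mul_left (a := (Dg : ℤ)) (by push_cast at t1; linarith) (by omega)
      have t4 : 9 * ∑ i ∈ U, u.wh i ≤ S + C * F :=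
        le_of_mul_le_mul_left (a := (Dg : ℤ)) (by push_cast at t2; linarith) (by omega)
      have t5 : 5 * ∑ i, max (u.w i - Dg) 0 + 4 * ∑ i ∈ U, u.wh i ≤ S + C * F := by linarith
      have t6 : n * F ≤ (2 * Dg + 11) * ∑ j, (u.R j + u.La j) + 8 * P m := by
        have b := sum_le_sum (s := (univ : Finset I)) (f := fun _ => (F : ℤ))
          (g := fun j => (2 * Dg + 11) * (u.R j + u.La j) + 8 * max (|u.k m - u.k j| - 1) 0)
          fun j _ => by
            have a1 := u.w_le m j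
            have a2 := u.one_le m j hm1
            have a3 := u.La_nonneg j
            have a4 := le_max_left (|u.k m - u.k j| - 1) 0
            nlinarith [mul_le_mul_of_nonneg_left a2 (show (0 : ℤ) ≤ 2 * Dg + 10 by omega)]
        rw [sum_const, card_univ, nsmul_eq_mul, ← hnd, sum_add_distrib, ← mul_sum, ← mul_sum,
          ← sum_erase_add _ (fun j => max (|u.k m - u.k j| - 1) 0) (mem_univ m)] at b
        simpa [hP] using b
      have t7 : P m ≤ ∑ i, P i := single_le_sum (fun i _ => hP0 i) (mem_univ m)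
      have t8 := mul_le_mul_of_nonneg_left t5 hn0
      have t9 := mul_le_mul_of_nonneg_left t6 hC0
      have t10 : 16 * (C : ℤ) * P m ≤ n * ∑ i, P i :=
        mul_le_mul (by linarith) t7 (hP0 m) hn0
      linarith
    · have hw0 : ∀ i, u.w i = 0 := fun i => by
        have := u.w_nonneg i
        have : ¬ 1 ≤ u.w i := fun h => hbad ⟨i, h⟩
        omega
      have e1 : ∑ i, max (u.w i - Dg) 0 = 0 := sum_eq_zero fun i _ => by have := hw0 i; omega
      have e2 : ∑ i ∈ U, u.wh i = 0 :=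
        sum_eq_zero fun i hi => absurd ⟨i, (hUm i hi).1⟩ hbad
      rw [e1, e2]
      have := mul_nonneg hn0 hS0
      have := mul_nonneg hn0 hPs
      have := mul_nonneg (show (0 : ℤ) ≤ C * (2 * Dg + 11) by positivity) hRs
      linarith
  have h4 := mul_le_mul_of_nonneg_left h1 hn0
  have h5 : ∑ i, ∑ j, |u.k i - u.k j| ≤ ∑ i, P i + 2 * (n * ∑ i, u.La i) := by
    have b := sum_le_sum (s := (univ : Finset I)) fun i _ =>
      sum_le_sum (s := (univ : Finset I)) (f := fun j => |u.k i - u.k j|)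
        (g := fun j => max (|u.k i - u.k j| - 1) 0 + (u.La i + u.La j)) fun j _ => by
          have a1 := u.La_nonneg i
          have a2 := u.La_nonneg j
          have a3 := le_max_left (|u.k i - u.k j| - 1) 0
          have a4 := le_max_right (|u.k i - u.k j| - 1) 0
          by_cases e : u.k i = u.k j
          · have : |u.k i - u.k j| = 0 := by simp [e]
            linarith
          · linarith [u.pair_le i j e]
    have e : ∀ i, ∑ j, max (|u.k i - u.k j| - 1) 0 = P i := fun i => by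
      rw [← sum_erase_add _ _ (mem_univ i)]
      simp [hP]
    simp only [sum_add_distrib, e, sum_const, card_univ, nsmul_eq_mul, ← hnd, ← mul_sum] at b
    linarith
  have h6 : ∑ i, u.w i ≤ ∑ i, u.R i := sum_le_sum fun i _ => u.w_le_R i
  have h7 : 0 ≤ ∑ i, u.R i := sum_nonneg fun i _ => u.R_nonneg i
  have hn1 : 1 ≤ n := by linarith
  have h8 : n * ∑ i, P i + 2 * (∑ i, u.R i + ∑ i, u.La i) ≤
      2 * (n * ∑ i, ∑ j ∈ univ.erase i, (u.V i j - u.mu i j) + 2 * n * ∑ i, u.h i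
        + κ * ∑ i, (u.R i + u.La i - (2 * Dg + 2) * u.w i)) := by
    rw [sum_sub_distrib (fun i => u.R i + u.La i), ← mul_sum, ← sum_add_distrib]
    have : (κ : ℤ) * ∑ i, (u.R i + u.La i) =
        C * (2 * Dg + 11) * ∑ i, (u.R i + u.La i) + ∑ i, (u.R i + u.La i) := by rw [hκz]; ring
    linarith
  have h9 := mul_le_mul_of_nonneg_left h8 hn0
  have h10 : ∑ i, P i ≤ n * (n * ∑ i, P i) :=
    (le_mul_of_one_le_left hPs hn1).trans (le_mul_of_one_le_left (mul_nonneg hn0 hPs) hn1)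
  have h11 : ∑ i, u.R i ≤ n * ∑ i, u.R i := le_mul_of_one_le_left h7 hn1
  linarith

end Pool.Agent.Lib.MP_44626f_nt.FF
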