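import Pool.Agent.Lib.MP_44626f_nt.FF.Poly

/-!
Points on a curve X = A / B at one place: the normalised pairs and their invariants.
-/

open Polynomial Finset

noncomputable section

namespace Pool.Agent.Lib.MP_44626f_nt.FF

variable {K : Type} [Field K]

/-- `A` in the coordinates of level `k` -/
def nA (Q : Place K) (A : K[X]) (m k : ℤ) : K[X] :=
  C (Q.pi ^ (-m - 4 * k)) * taylor ((k : K) / Q.pi) A

/-- `B` in the coordinates of level `k` -/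
def nB (Q : Place K) (B : K[X]) (m k : ℤ) : K[X] :=
  C (Q.pi ^ (-m)) * taylor ((k : K) / Q.pi) B

/-- points `(t i, Xv i)` of level `k i` on the curve `A = Xv * B` -/
structure Crv (Q : Place K) (I : Type) (Dg : ℕ) where
  k : I → ℤ
  t : I → K
  Xv : I → K
  A : K[X]
  B : K[X]
  m : ℤ → ℤ
  t_int : ∀ i, Q.Ge (t i - (k i : K) / Q.pi) 0
  t_inj : Function.Injective t
  X_ne : ∀ i, Xv i ≠ 0
  X_v : ∀ i, Q.v (Xv i) = 4 * k i
  cop : IsCoprime A B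
  degA : A.natDegree ≤ Dg
  degB : B.natDegree ≤ Dg
  pos : A.natDegree ≠ 0 ∨ B.natDegree ≠ 0
  onA : ∀ i, A.eval (t i) = Xv i * B.eval (t i)
  B_ne : ∀ i, B.eval (t i) ≠ 0
  W_ne : ∀ i, (derivative A * B - A * derivative B).eval (t i) ≠ 0
  prim : ∀ l, Q.Prim (nA Q A (m l) l) (nB Q B (m l) l)
  c2_v : ∀ i j, i ≠ j → k i = k j → Q.Ge (Xv i - Xv j) (4 * k i + 2) →
    Xv i ≠ Xv j ∧ Q.v (t i - t j) = Q.v (Xv i - Xv j) - 4 * k i - 1

namespace Crv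

variable {Q : Place K} {I : Type} {Dg : ℕ} (c : Crv Q I Dg)

def V (i j : I) : ℤ := Q.v (c.t i - c.t j)

def c2 (i j : I) : Prop := c.k i = c.k j ∧ Q.Ge (c.Xv i - c.Xv j) (4 * c.k i + 2)

def w (i : I) : ℤ := Q.v (c.B.eval (c.t i)) - c.m (c.k i)

def h (i : I) : ℤ :=
  Q.v ((derivative c.A * c.B - c.A * derivative c.B).eval (c.t i))
    - Q.v (c.A.eval (c.t i)) - Q.v (c.B.eval (c.t i))

def R (i : I) : ℤ :=
  Q.v (resultant c.A c.B) - (c.A.natDegree + c.B.natDegree) * c.m (c.k i)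
    - 4 * c.k i * c.B.natDegree

def La (i : I) : ℤ :=
  Q.v c.A.leadingCoeff + Q.v c.B.leadingCoeff - 2 * c.m (c.k i) - 4 * c.k i

lemma c2_refl (i : I) : c.c2 i i := ⟨rfl, by simpa using Q.ge_zero _⟩

lemma c2_symm (i j : I) (h : c.c2 i j) : c.c2 j i :=
  ⟨h.1.symm, by simpa [h.1] using h.2.neg⟩

lemma c2_trans (i j l : I) (h : c.c2 i j) (h' : c.c2 j l) : c.c2 i l :=
  ⟨h.1.trans h'.1, by
    have := h.2.add (h.1 ▸ h'.2 : Q.Ge (c.Xv j - c.Xv l) (4 * c.k i + 2))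
    rwa [sub_add_sub_cancel] at this⟩

lemma c2_V (i j : I) (hne : i ≠ j) (h : c.c2 i j) : 1 ≤ c.V i j := by
  obtain ⟨h1, h2⟩ := c.c2_v i j hne h.1 h.2
  have := h.2.le (sub_ne_zero.2 h1)
  simp only [V]; omega

lemma v_A (i : I) : Q.v (c.A.eval (c.t i)) = 4 * c.k i + Q.v (c.B.eval (c.t i)) := by
  rw [c.onA, Q.v_mul _ _ (c.X_ne i) (c.B_ne i), c.X_v]

end Crv

end Pool.Agent.Lib.MP_44626f_nt.FF
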