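import Mathlib

/-!
Places of a differential field: valuations, lower bounds, logarithmic derivatives.
-/

open Polynomial

noncomputable section

namespace Pool.Agent.Lib.MP_44626f_nt.FF

/-- a discrete valuation `v` with uniformiser `pi` and a derivation `D` adapted to it -/
structure Place (K : Type) [Field K] where
  v : K → ℤ
  pi : K
  D : K → K
  pi_ne : pi ≠ 0
  v_pi : v pi = 1
  v_mul : ∀ f g, f ≠ 0 → g ≠ 0 → v (f * g) = v f + v g
  v_add : ∀ f g, f ≠ 0 → g ≠ 0 → f + g ≠ 0 → min (v f) (v g) ≤ v (f + g)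
  v_nat : ∀ n : ℕ, n ≠ 0 → v n = 0
  D_add : ∀ f g, D (f + g) = D f + D g
  D_mul : ∀ f g, D (f * g) = f * D g + g * D f
  D_v : ∀ f, f ≠ 0 → pi * D f - v f * f = 0 ∨ v f + 1 ≤ v (pi * D f - v f * f)

/-- a family of places with a sum formula -/
structure Glob (K : Type) [Field K] where
  P : Type
  pl : P → Place K
  D : K → K
  g : P → K
  D_add : ∀ f g, D (f + g) = D f + D g
  D_mul : ∀ f g, D (f * g) = f * D g + g * D f
  g_ne : ∀ p, g p ≠ 0
  D_eq : ∀ p f, (pl p).D f = g p * D f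
  fin : ∀ f, f ≠ 0 → (Function.support fun p => (pl p).v f).Finite
  sum : ∀ f, f ≠ 0 → ∑ᶠ p, (pl p).v f = 0
  gfin : (Function.support fun p => (pl p).v (g p)).Finite

variable {K : Type} [Field K]

namespace Place

variable (Q : Place K)

/-- `f` has valuation at least `n` -/
def Ge (f : K) (n : ℤ) : Prop := f = 0 ∨ n ≤ Q.v f

/-- the same with a real bound -/
def GeR (f : K) (x : ℝ) : Prop := f = 0 ∨ x ≤ (Q.v f : ℝ)

/-- all coefficients have valuation at least `n` -/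
def PGe (p : K[X]) (n : ℤ) : Prop := ∀ j, Q.Ge (p.coeff j) n

/-- logarithmic derivative -/
def L (f : K) : K := Q.D f / f

lemma v_one : Q.v 1 = 0 := by simpa using Q.v_nat 1 one_ne_zero

lemma v_neg (f : K) : Q.v (-f) = Q.v f := by
  have h : Q.v (-1) = 0 := by
    have := Q.v_mul (-1) (-1) (by simp) (by simp)
    rw [neg_mul_neg, one_mul, Q.v_one] at this; omega
  by_cases hf : f = 0
  · simp [hf]
  · rw [← neg_one_mul, Q.v_mul _ _ (by simp) hf, h, zero_add]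

lemma v_sub_comm (f g : K) : Q.v (f - g) = Q.v (g - f) := by rw [← Q.v_neg, neg_sub]

lemma v_inv {f : K} (hf : f ≠ 0) : Q.v f⁻¹ = -Q.v f := by
  have := Q.v_mul f f⁻¹ hf (inv_ne_zero hf)
  rw [mul_inv_cancel₀ hf, Q.v_one] at this; omega

lemma v_div {f g : K} (hf : f ≠ 0) (hg : g ≠ 0) : Q.v (f / g) = Q.v f - Q.v g := by
  rw [div_eq_mul_inv, Q.v_mul _ _ hf (inv_ne_zero hg), Q.v_inv hg]; ring

lemma v_pow {f : K} (hf : f ≠ 0) (n : ℕ) : Q.v (f ^ n) = n * Q.v f := by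
  induction n with
  | zero => simp [Q.v_one]
  | succ n ih => rw [pow_succ, Q.v_mul _ _ (pow_ne_zero _ hf) hf, ih]; push_cast; ring

lemma v_zpow {f : K} (hf : f ≠ 0) (n : ℤ) : Q.v (f ^ n) = n * Q.v f := by
  obtain ⟨m, rfl | rfl⟩ := n.eq_nat_or_neg
  · rw [zpow_natCast, Q.v_pow hf]
  · rw [zpow_neg, zpow_natCast, Q.v_inv (pow_ne_zero _ hf), Q.v_pow hf]; ring

lemma v_pi_zpow (n : ℤ) : Q.v (Q.pi ^ n) = n := by rw [Q.v_zpow Q.pi_ne, Q.v_pi, mul_one]

lemma v_int {n : ℤ} (hn : n ≠ 0) : Q.v n = 0 := by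
  obtain ⟨m, rfl | rfl⟩ := n.eq_nat_or_neg
  · rw [Int.cast_natCast]; exact Q.v_nat m (by simpa using hn)
  · rw [Int.cast_neg, Q.v_neg, Int.cast_natCast]; exact Q.v_nat m (by simpa using hn)

lemma v_prod {ι : Type} (s : Finset ι) {f : ι → K} (hf : ∀ i ∈ s, f i ≠ 0) :
    Q.v (∏ i ∈ s, f i) = ∑ i ∈ s, Q.v (f i) := by
  classical
  induction s using Finset.induction_on with
  | empty => simp [Q.v_one]
  | insert a s ha ih =>
    have h' : ∀ i ∈ s, f i ≠ 0 := fun i hi => hf i (Finset.mem_insert_of_mem hi)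
    rw [Finset.prod_insert ha, Finset.sum_insert ha,
      Q.v_mul _ _ (hf a (Finset.mem_insert_self _ _)) (Finset.prod_ne_zero_iff.2 h'), ih h']

lemma ge_self (f : K) : Q.Ge f (Q.v f) := Or.inr le_rfl

lemma ge_zero (n : ℤ) : Q.Ge 0 n := Or.inl rfl

lemma ge_one : Q.Ge 1 0 := Or.inr Q.v_one.ge

lemma ge_int (n : ℤ) : Q.Ge n 0 := by
  by_cases hn : n = 0
  · simp [hn, Ge]
  · exact Or.inr (Q.v_int hn).ge

lemma ge_nat (n : ℕ) : Q.Ge n 0 := by simpa using Q.ge_int n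

lemma ge_pi_zpow (n : ℤ) : Q.Ge (Q.pi ^ n) n := Or.inr (Q.v_pi_zpow n).ge

lemma ge_pi : Q.Ge Q.pi 1 := Or.inr Q.v_pi.ge

variable {Q}

lemma Ge.le {f : K} {n : ℤ} (h : Q.Ge f n) (hf : f ≠ 0) : n ≤ Q.v f := h.resolve_left hf

lemma Ge.mono {f : K} {n m : ℤ} (h : Q.Ge f n) (hm : m ≤ n) : Q.Ge f m :=
  h.imp_right fun h => hm.trans h

lemma Ge.neg {f : K} {n : ℤ} (h : Q.Ge f n) : Q.Ge (-f) n :=
  h.imp (fun h => by simp [h]) fun h => by rwa [Q.v_neg]

lemma Ge.add {f g : K} {n : ℤ} (hf : Q.Ge f n) (hg : Q.Ge g n) : Q.Ge (f + g) n := by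
  by_cases h1 : f = 0
  · simpa [h1] using hg
  by_cases h2 : g = 0
  · simpa [h2] using hf
  by_cases h3 : f + g = 0
  · exact Or.inl h3
  exact Or.inr ((le_min (hf.le h1) (hg.le h2)).trans (Q.v_add f g h1 h2 h3))

lemma Ge.sub {f g : K} {n : ℤ} (hf : Q.Ge f n) (hg : Q.Ge g n) : Q.Ge (f - g) n := by
  rw [sub_eq_add_neg]; exact hf.add hg.neg

lemma Ge.mul {f g : K} {n m : ℤ} (hf : Q.Ge f n) (hg : Q.Ge g m) : Q.Ge (f * g) (n + m) := by
  by_cases h1 : f = 0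
  · simp [h1, Ge]
  by_cases h2 : g = 0
  · simp [h2, Ge]
  exact Or.inr (by rw [Q.v_mul _ _ h1 h2]; exact add_le_add (hf.le h1) (hg.le h2))

lemma Ge.mul' {f g : K} {n m l : ℤ} (hf : Q.Ge f n) (hg : Q.Ge g m) (h : l ≤ n + m) :
    Q.Ge (f * g) l := (hf.mul hg).mono h

lemma Ge.div {f g : K} {n : ℤ} (hf : Q.Ge f n) (hg : g ≠ 0) : Q.Ge (f / g) (n - Q.v g) := by
  rw [div_eq_mul_inv, sub_eq_add_neg, ← Q.v_inv hg]; exact hf.mul (Q.ge_self _)

lemma Ge.pow {f : K} {n : ℤ} (hf : Q.Ge f n) (m : ℕ) : Q.Ge (f ^ m) (m * n) := by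
  induction m with
  | zero => simpa using Q.ge_one
  | succ m ih => rw [pow_succ]; exact ih.mul' hf (by push_cast; linarith)

lemma Ge.sum {ι : Type} {s : Finset ι} {f : ι → K} {n : ℤ} (h : ∀ i ∈ s, Q.Ge (f i) n) :
    Q.Ge (∑ i ∈ s, f i) n :=
  Finset.sum_induction f (fun a => Q.Ge a n) (fun _ _ => Ge.add) (Q.ge_zero n) h

lemma Ge.prod {ι : Type} {s : Finset ι} {f : ι → K} {n : ι → ℤ} (h : ∀ i ∈ s, Q.Ge (f i) (n i)) :
    Q.Ge (∏ i ∈ s, f i) (∑ i ∈ s, n i) := by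
  classical
  induction s using Finset.induction_on with
  | empty => simpa using Q.ge_one
  | insert a s ha ih =>
    rw [Finset.prod_insert ha, Finset.sum_insert ha]
    exact (h a (Finset.mem_insert_self _ _)).mul
      (ih fun i hi => h i (Finset.mem_insert_of_mem hi))

/-- the term of smaller valuation wins -/
lemma v_add_eq {f g : K} (hf : f ≠ 0) (hg : Q.Ge g (Q.v f + 1)) :
    f + g ≠ 0 ∧ Q.v (f + g) = Q.v f := by
  have h1 : ¬ Q.Ge (f + g) (Q.v f + 1) := fun h => by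
    have := (h.sub hg).le (by simpa using hf)
    rw [add_sub_cancel_right] at this; omega
  have h2 : f + g ≠ 0 := fun h => h1 (Or.inl h)
  have h3 := ((Q.ge_self f).add (hg.mono (by omega))).le h2
  have h4 : ¬ Q.v f + 1 ≤ Q.v (f + g) := fun h => h1 (Or.inr h)
  exact ⟨h2, by omega⟩

lemma Ge.toR {f : K} {n : ℤ} (h : Q.Ge f n) : Q.GeR f n :=
  h.imp_right fun h => by exact_mod_cast h

lemma GeR.le {f : K} {x : ℝ} (h : Q.GeR f x) (hf : f ≠ 0) : x ≤ Q.v f := h.resolve_left hf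

lemma GeR.mono {f : K} {x y : ℝ} (h : Q.GeR f x) (hy : y ≤ x) : Q.GeR f y :=
  h.imp_right fun h => hy.trans h

lemma geR_iff {f : K} {x : ℝ} : Q.GeR f x ↔ Q.Ge f ⌈x⌉ := by simp [GeR, Ge, Int.ceil_le]

lemma GeR.neg {f : K} {x : ℝ} (h : Q.GeR f x) : Q.GeR (-f) x := geR_iff.2 (geR_iff.1 h).neg

lemma GeR.sum {ι : Type} {s : Finset ι} {f : ι → K} {x : ℝ} (h : ∀ i ∈ s, Q.GeR (f i) x) :
    Q.GeR (∑ i ∈ s, f i) x := geR_iff.2 (Ge.sum fun i hi => geR_iff.1 (h i hi))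

lemma GeR.mul {f g : K} {x y : ℝ} (hf : Q.GeR f x) (hg : Q.GeR g y) : Q.GeR (f * g) (x + y) := by
  by_cases h1 : f = 0
  · simp [h1, GeR]
  by_cases h2 : g = 0
  · simp [h2, GeR]
  refine Or.inr ?_
  rw [Q.v_mul _ _ h1 h2]; push_cast
  exact add_le_add (hf.le h1) (hg.le h2)

lemma GeR.prod {ι : Type} {s : Finset ι} {f : ι → K} {x : ι → ℝ}
    (h : ∀ i ∈ s, Q.GeR (f i) (x i)) : Q.GeR (∏ i ∈ s, f i) (∑ i ∈ s, x i) := by
  classical
  induction s using Finset.induction_on with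
  | empty => simpa using Q.ge_one.toR
  | insert a s ha ih =>
    rw [Finset.prod_insert ha, Finset.sum_insert ha]
    exact (h a (Finset.mem_insert_self _ _)).mul
      (ih fun i hi => h i (Finset.mem_insert_of_mem hi))

variable (Q)

lemma D_one : Q.D 1 = 0 := by
  have := Q.D_mul 1 1
  simp only [mul_one, one_mul] at this
  linear_combination -this

lemma D_zero : Q.D 0 = 0 := by
  have := Q.D_add 0 0
  rw [add_zero] at this
  linear_combination -this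

lemma D_neg (f : K) : Q.D (-f) = -Q.D f := by
  have := Q.D_add f (-f)
  rw [add_neg_cancel, Q.D_zero] at this
  linear_combination -this

lemma D_sub (f g : K) : Q.D (f - g) = Q.D f - Q.D g := by
  rw [sub_eq_add_neg, Q.D_add, Q.D_neg, sub_eq_add_neg]

lemma L_mul {f g : K} (hf : f ≠ 0) (hg : g ≠ 0) : Q.L (f * g) = Q.L f + Q.L g := by
  simp only [L, Q.D_mul]; field_simp; ring

lemma L_one : Q.L 1 = 0 := by simp [L, Q.D_one]

lemma L_div {f g : K} (hf : f ≠ 0) (hg : g ≠ 0) : Q.L (f / g) = Q.L f - Q.L g := by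
  have := Q.L_mul (div_ne_zero hf hg) hg
  rw [div_mul_cancel₀ _ hg] at this
  rw [this]; ring

lemma L_pow {f : K} (hf : f ≠ 0) (n : ℕ) : Q.L (f ^ n) = n * Q.L f := by
  induction n with
  | zero => simp [Q.L_one]
  | succ n ih => rw [pow_succ, Q.L_mul (pow_ne_zero _ hf) hf, ih]; push_cast; ring

variable {Q}

lemma Ge.euler {f : K} {n : ℤ} (h : Q.Ge f n) : Q.Ge (Q.pi * Q.D f - n * f) (n + 1) := by
  by_cases hf : f = 0
  · simp [hf, Q.D_zero, Ge]
  have h1 : Q.Ge (Q.pi * Q.D f - Q.v f * f) (Q.v f + 1) := Q.D_v f hf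
  have h2 := h.le hf
  rcases h2.eq_or_lt with h3 | h3
  · rwa [h3]
  · have : Q.pi * Q.D f - n * f = (Q.pi * Q.D f - Q.v f * f) + ((Q.v f - n : ℤ) : K) * f := by
      push_cast; ring
    rw [this]
    exact (h1.mono (by omega)).add ((Q.ge_int _).mul' (Q.ge_self f) (by omega))

/-- the logarithmic derivative has a simple pole with residue `v f` -/
lemma ge_L (Q : Place K) {f : K} (hf : f ≠ 0) : Q.Ge (Q.L f - Q.v f / Q.pi) 0 := by
  have h := ((Q.ge_self f).euler.div hf).div Q.pi_ne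
  have hp := Q.pi_ne
  have e : Q.L f - Q.v f / Q.pi = (Q.pi * Q.D f - Q.v f * f) / f / Q.pi := by
    simp only [L]; field_simp
  rw [e]; exact h.mono (by rw [Q.v_pi]; omega)

/-- first order behaviour of the logarithmic derivative near `1` -/
lemma Ge.near_one {f : K} {l : ℤ} (h : Q.Ge (f - 1) l) (hl : 1 ≤ l) :
    Q.Ge (Q.pi * Q.L f - l * (f - 1)) (l + 1) := by
  obtain ⟨hf, hv⟩ := v_add_eq (Q := Q) one_ne_zero (g := f - 1) (h.mono (by rw [Q.v_one]; omega))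
  rw [add_sub_cancel] at hf hv
  rw [Q.v_one] at hv
  have h1 := h.euler
  rw [Q.D_sub, Q.D_one, sub_zero] at h1
  have e : Q.pi * Q.L f - l * (f - 1)
      = ((Q.pi * Q.D f - l * (f - 1)) - l * ((f - 1) * (f - 1))) / f := by
    simp only [L]; field_simp; ring
  rw [e]
  exact ((h1.sub ((Q.ge_int l).mul' (h.mul h) (by omega))).div hf).mono (by omega)

end Place

end Pool.Agent.Lib.MP_44626f_nt.FF
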