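import Pool.Agent.Lib.MP_44626f_nt.FF.Defs

/-!
Expansion of determinants in their columns and along blocks of rows.
-/

open Finset

noncomputable section

namespace Pool.Agent.Lib.MP_44626f_nt.FF

variable {K : Type} [Field K] {Q : Place K} {ι : Type} [Fintype ι] [DecidableEq ι]

lemma det_sum_cols {J : Type} [Fintype J] (t : ι → J → ι → K) :
    (Matrix.of fun ρ c => ∑ j, t c j ρ).det
      = ∑ a : ι → J, (Matrix.of fun ρ c => t c (a c) ρ).det := by
  simp only [Matrix.det_apply', Matrix.of_apply, Fintype.prod_sum, mul_sum]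
  exact sum_comm

lemma geR_det_sum {J : Type} [Fintype J] (t : ι → J → ι → K) {x : ℝ}
    (h : ∀ a : ι → J, Q.GeR (Matrix.of fun ρ c => t c (a c) ρ).det x) :
    Q.GeR (Matrix.of fun ρ c => ∑ j, t c j ρ).det x := by
  rw [det_sum_cols]; exact Place.GeR.sum fun a _ => h a

lemma ge_det {M : Matrix ι ι K} (h : ∀ ρ c, Q.Ge (M ρ c) 0) : Q.Ge M.det 0 := by
  rw [Matrix.det_apply']
  refine Place.Ge.sum fun σ _ => (Q.ge_int _).mul' (Place.Ge.prod fun c _ => h (σ c) c) ?_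
  simp

lemma det_col_mul (a : ι → K) (M : ι → ι → K) :
    (Matrix.of fun ρ c => a c * M ρ c).det = (∏ c, a c) * (Matrix.of M).det :=
  Matrix.det_mul_row a (Matrix.of M)

lemma det_row_mul (a : ι → K) (M : ι → ι → K) :
    (Matrix.of fun ρ c => a ρ * M ρ c).det = (∏ ρ, a ρ) * (Matrix.of M).det :=
  Matrix.det_mul_column a (Matrix.of M)

lemma det_eq_zero_of_not_inj {J : Type} (u : J → ι → K) {a : ι → J}
    (ha : ¬ Function.Injective a) : (Matrix.of fun ρ c => u (a c) ρ).det = 0 := by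
  obtain ⟨c, c', h, hne⟩ := Function.not_injective_iff.1 ha
  exact Matrix.det_zero_of_column_eq hne fun ρ => by simp [h]

/-- a matrix whose column `c` lives on the rows of block `a c` -/
lemma geR_det_block {γ : Type} [DecidableEq γ] (β a : ι → γ) (M : Matrix ι ι K)
    (h0 : ∀ ρ c, β ρ ≠ a c → M ρ c = 0) {x : ℝ}
    (h : ∀ σ : Equiv.Perm ι, (∀ ρ, a (σ ρ) = β ρ) → ∃ y : γ → ℝ, x ≤ ∑ α ∈ univ.image β, y α ∧
      ∀ α, Q.GeR (Matrix.of fun ρ c : {ρ // β ρ = α} => M ρ (σ c)).det (y α)) :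
    Q.GeR M.det x := by
  classical
  by_cases hd : M.det = 0
  · exact Or.inl hd
  rw [Matrix.det_apply] at hd
  obtain ⟨τ, -, hτ⟩ := exists_ne_zero_of_sum_ne_zero hd
  have h1 : ∀ c, M (τ c) c ≠ 0 := fun c hc =>
    hτ (by rw [prod_eq_zero (f := fun i => M (τ i) i) (mem_univ c) hc, smul_zero])
  have h2 : ∀ ρ, a (τ⁻¹ ρ) = β ρ := fun ρ => by
    by_contra hne
    exact h1 (τ⁻¹ ρ) (h0 _ _ (by simpa using Ne.symm hne))
  obtain ⟨y, hy, hb⟩ := h τ⁻¹ h2
  let _ : LinearOrder γ := linearOrderOfSTO WellOrderingRel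
  have h3 : (M.submatrix id (τ⁻¹ : Equiv.Perm ι)).BlockTriangular β := fun ρ c hlt =>
    h0 _ _ (by rw [h2]; exact hlt.ne')
  have h4 : Q.GeR (M.submatrix id (τ⁻¹ : Equiv.Perm ι)).det x := by
    rw [h3.det]
    refine (Place.GeR.prod (x := y) fun α _ => ?_).mono (by convert hy)
    convert hb α
    rfl
  rw [Matrix.det_permute'] at h4
  rcases Int.units_eq_one_or (Equiv.Perm.sign τ⁻¹) with e | e
  · simpa [e] using h4
  · simpa [e] using h4.neg

end Pool.Agent.Lib.MP_44626f_nt.FF
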