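import Mathlib

/-!
Weights of distinct monomials in a strip of width three.
-/

open Finset

namespace Pool.Agent.Lib.MP_44626f_nt.FF

variable {ι : Type} [Fintype ι]

omit [Fintype ι] in
lemma sq_le_sum_inj (s : Finset ι) (f : ι → ℕ) (hf : Set.InjOn f s) :
    (#s : ℤ) ^ 2 - #s ≤ 2 * ∑ c ∈ s, (f c : ℤ) := by
  have hi : Set.InjOn (fun c => (f c : ℤ)) s := fun a ha b hb h =>
    hf ha hb (Nat.cast_injective (R := ℤ) h)
  have h := sum_range_le_sum (s := s.image fun c => (f c : ℤ)) (c := 0) (by simp)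
  rw [sum_image hi, card_image_of_injOn hi] at h
  have h2 : ∀ n : ℕ, 2 * ∑ i ∈ range n, ((0 : ℤ) + i) = (n : ℤ) ^ 2 - n := fun n => by
    induction n with
    | zero => simp
    | succ n ih => rw [sum_range_succ, mul_add, ih]; push_cast; ring
  have := h2 #s
  omega

lemma gain_nu {a : ι → Fin 3 × ℕ} (ha : Function.Injective a) (α β : ℕ) :
    ∃ n0 n1 n2 : ℕ, n0 + n1 + n2 = Fintype.card ι ∧
      (2 * α * (n1 + 2 * n2) + β * (n0 ^ 2 + n1 ^ 2 + n2 ^ 2 - (n0 + n1 + n2)) : ℤ)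
        ≤ 2 * ((∑ c, (α * (a c).1 + β * (a c).2) : ℕ) : ℤ) := by
  have h1 := card_eq_sum_card_fiberwise (f := fun c => (a c).1) (s := univ) (t := univ)
    (fun _ _ => mem_univ _)
  have h2 : ∀ e : Fin 3, (2 * α * e * #{c | (a c).1 = e}
      + β * (#{c | (a c).1 = e} ^ 2 - #{c | (a c).1 = e}) : ℤ)
      ≤ 2 * ∑ c with (a c).1 = e, ((α * (a c).1 + β * (a c).2 : ℕ) : ℤ) := fun e => by
    have h3 := sq_le_sum_inj {c | (a c).1 = e} (fun c => (a c).2) fun c hc c' hc' h =>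
      ha (Prod.ext ((mem_filter.1 hc).2.trans (mem_filter.1 hc').2.symm) h)
    have h4 : ∑ c with (a c).1 = e, ((α * (a c).1 + β * (a c).2 : ℕ) : ℤ)
        = α * e * #{c | (a c).1 = e} + β * ∑ c with (a c).1 = e, ((a c).2 : ℤ) := by
      rw [mul_sum, mul_comm _ (_ : ℤ), ← nsmul_eq_mul, ← sum_const, ← sum_add_distrib]
      exact sum_congr rfl fun c hc => by rw [(mem_filter.1 hc).2]; push_cast; ring
    rw [h4]
    nlinarith [mul_le_mul_of_nonneg_left h3 (Int.natCast_nonneg β)]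
  refine ⟨#{c | (a c).1 = 0}, #{c | (a c).1 = 1}, #{c | (a c).1 = 2}, ?_, ?_⟩
  · rw [← card_univ, h1, Fin.sum_univ_three]
  · rw [Nat.cast_sum, ← sum_fiberwise (s := univ) (g := fun c => (a c).1), Fin.sum_univ_three]
    have a0 := h2 0
    have a1 := h2 1
    have a2 := h2 2
    simp only [Fin.val_zero, Fin.val_one, Fin.val_two] at a0 a1 a2
    push_cast at a0 a1 a2 ⊢
    linarith

/-- `m` rows, `m1` of them derivatives, `p` the product of the two sign classes -/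
def Cnt (N m m1 p : ℕ) : Prop :=
  4000 ≤ N ∧ m ≤ 3 * N ∧ m1 ≤ N ∧ 2 * m1 ≤ m ∧ m1 + 2 ≤ m ∧ 4 * p ≤ m ^ 2

lemma gain_real {N p m1 τ S : ℕ} (hN : 4000 ≤ N)
    (h : (4 * N + 14) * p + 6 * N * τ * m1 ≤ (6 * N * S : ℤ)) :
    (2 * N + 7) / (3 * N) * (p : ℝ) + τ * m1 ≤ S := by
  have h0 : (0 : ℝ) < N := by exact_mod_cast (by omega : 0 < N)
  have h1 : (4 * N + 14) * p + 6 * N * τ * m1 ≤ (6 * N * S : ℝ) := by exact_mod_cast h
  rw [div_mul_eq_mul_div, div_add' _ _ _ (by positivity), div_le_iff₀ (by positivity)]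
  linarith

variable {N m1 p : ℕ} {a : ι → Fin 3 × ℕ}

lemma gain21 (h : Cnt N (Fintype.card ι) m1 p) (hm : Fintype.card ι ≤ 6)
    (ha : Function.Injective a) :
    (2 * N + 7) / (3 * N) * (p : ℝ) + (1 : ℕ) * m1
      ≤ ∑ c, ((2 * (a c).1 + 1 * (a c).2 : ℕ) : ℝ) := by
  obtain ⟨n0, n1, n2, e, hg⟩ := gain_nu ha 2 1
  obtain ⟨h1, h2, h3, h4, h5, h6⟩ := h
  rw [← Nat.cast_sum]
  refine gain_real h1 ?_
  generalize ∑ c, (2 * ((a c).1 : ℕ) + 1 * (a c).2) = S at hg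
  rw [← e] at hm h4 h5 h6
  have b0 : n0 ≤ 6 := by omega
  have b1 : n1 ≤ 6 := by omega
  have b2 : n2 ≤ 6 := by omega
  have key : 4 * p + 6 * m1 + 1 ≤ 6 * S ∧ p ≤ 9 := by
    interval_cases n0 <;> interval_cases n1 <;> interval_cases n2 <;> omega
  have k1 : (4 * p + 6 * m1 + 1 : ℤ) ≤ 6 * S := by exact_mod_cast key.1
  have k2 : (14 * p : ℤ) ≤ N := by omega
  push_cast
  nlinarith [mul_le_mul_of_nonneg_left k1 (Int.natCast_nonneg N)]

lemma gain31 (h : Cnt N (Fintype.card ι) m1 p) (hm : 6 < Fintype.card ι)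
    (ha : Function.Injective a) :
    (2 * N + 7) / (3 * N) * (p : ℝ) + (2 : ℕ) * m1
      ≤ ∑ c, ((3 * (a c).1 + 1 * (a c).2 : ℕ) : ℝ) := by
  obtain ⟨n0, n1, n2, e, hg⟩ := gain_nu ha 3 1
  obtain ⟨h1, h2, h3, h4, h5, h6⟩ := h
  rw [← Nat.cast_sum]
  refine gain_real h1 ?_
  generalize ∑ c, (3 * ((a c).1 : ℕ) + 1 * (a c).2) = S at hg
  generalize Fintype.card ι = m at *
  have e' : (n0 + n1 + n2 : ℤ) = m := by exact_mod_cast e
  have k1 : (m : ℤ) ^ 2 + 15 * m - 54 ≤ 6 * S := by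
    push_cast at hg
    nlinarith [sq_nonneg ((n0 : ℤ) - n2 - 6), sq_nonneg ((n0 : ℤ) + n2 - 2 * n1)]
  have k2 : (4 * p : ℤ) ≤ m ^ 2 := by exact_mod_cast h6
  have k3 : (7 * m ^ 2 : ℤ) ≤ 2 * N * (15 * m - 54 - 12 * m1) := by
    zify at h1 h2 h3 h4 hm
    rcases le_total (m : ℤ) (2 * N) with c1 | c1
    · rcases le_total (m : ℤ) 27 with c2 | c2
      · nlinarith [mul_le_mul h1 (by omega : (9 : ℤ) ≤ 15 * m - 54 - 12 * m1) (by omega)
          (by omega)]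
      · nlinarith [mul_le_mul_of_nonneg_left (by omega : (7 * m : ℤ) ≤ 15 * m - 54 - 12 * m1)
          (by omega : (0 : ℤ) ≤ 2 * N)]
    · nlinarith [mul_nonneg (sub_nonneg.2 c1) (sub_nonneg.2 h2),
        mul_le_mul_of_nonneg_left h3 (by omega : (0 : ℤ) ≤ N),
        mul_le_mul_of_nonneg_left h2 (by omega : (0 : ℤ) ≤ N)]
  push_cast
  nlinarith [mul_le_mul_of_nonneg_left k1 (Int.natCast_nonneg N),
    mul_le_mul_of_nonneg_left k2 (Int.natCast_nonneg N)]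

lemma gain_aux {m S : ℕ} {τ : ℕ} (h : Cnt N m m1 p)
    (k1 : 2 * (m : ℤ) ^ 2 - 3 * m - 12 + 6 * τ * m1 ≤ 6 * S)
    (k4 : m ≤ 5 → 4 * p + 6 * τ * m1 + 1 ≤ 6 * S) :
    (4 * N + 14) * p + 6 * N * τ * m1 ≤ (6 * N * S : ℤ) := by
  obtain ⟨h1, h2, h3, h4, h5, h6⟩ := h
  have k2 : (4 * p : ℤ) ≤ m ^ 2 := by exact_mod_cast h6
  rcases le_or_gt m 5 with c | c
  · have k5 : (4 * p + 6 * τ * m1 + 1 : ℤ) ≤ 6 * S := by exact_mod_cast k4 c
    have k6 : (14 * p : ℤ) ≤ N := by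
      have : m ^ 2 ≤ 5 ^ 2 := Nat.pow_le_pow_left c 2
      omega
    nlinarith [mul_le_mul_of_nonneg_left k5 (Int.natCast_nonneg N)]
  · zify at h1 c
    have k7 : (m : ℤ) ^ 2 ≤ 6 * (m ^ 2 - 3 * m - 12) := by nlinarith
    have k8 : (4000 : ℤ) * (m ^ 2 - 3 * m - 12) ≤ N * (m ^ 2 - 3 * m - 12) :=
      mul_le_mul_of_nonneg_right h1 (by nlinarith)
    nlinarith [mul_le_mul_of_nonneg_left k1 (Int.natCast_nonneg N),
      mul_le_mul_of_nonneg_left k2 (Int.natCast_nonneg N)]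

lemma gain12 (h : Cnt N (Fintype.card ι) m1 p) (ha : Function.Injective a) :
    (2 * N + 7) / (3 * N) * (p : ℝ) + (1 : ℕ) * m1
      ≤ ∑ c, ((1 * (a c).1 + 2 * (a c).2 : ℕ) : ℝ) := by
  obtain ⟨n0, n1, n2, e, hg⟩ := gain_nu ha 1 2
  rw [← Nat.cast_sum]
  generalize ∑ c, (1 * ((a c).1 : ℕ) + 2 * (a c).2) = S at hg
  generalize Fintype.card ι = m at *
  have e' : (n0 + n1 + n2 : ℤ) = m := by exact_mod_cast e
  have k1 : 2 * (m : ℤ) ^ 2 - 3 ≤ 6 * S := by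
    push_cast at hg
    nlinarith [sq_nonneg ((n0 : ℤ) - n2 - 1), sq_nonneg ((n0 : ℤ) + n2 - 2 * n1)]
  have ⟨h1, h2, h3, h4, h5, h6⟩ := h
  refine gain_real h1 (gain_aux h (by omega) fun c => ?_)
  interval_cases m <;> omega

lemma gain22 (h : Cnt N (Fintype.card ι) m1 p) (ha : Function.Injective a) :
    (2 * N + 7) / (3 * N) * (p : ℝ) + (2 : ℕ) * m1
      ≤ ∑ c, ((2 * (a c).1 + 2 * (a c).2 : ℕ) : ℝ) := by
  obtain ⟨n0, n1, n2, e, hg⟩ := gain_nu ha 2 2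
  rw [← Nat.cast_sum]
  generalize ∑ c, (2 * ((a c).1 : ℕ) + 2 * (a c).2) = S at hg
  generalize Fintype.card ι = m at *
  have e' : (n0 + n1 + n2 : ℤ) = m := by exact_mod_cast e
  have k1 : 2 * (m : ℤ) ^ 2 + 6 * m - 12 ≤ 6 * S := by
    push_cast at hg
    nlinarith [sq_nonneg ((n0 : ℤ) - n2 - 2), sq_nonneg ((n0 : ℤ) + n2 - 2 * n1)]
  have ⟨h1, h2, h3, h4, h5, h6⟩ := h
  refine gain_real h1 (gain_aux h (by omega) fun c => ?_)
  interval_cases m <;> omega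

end Pool.Agent.Lib.MP_44626f_nt.FF
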