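import Pool.Agent.Lib.MP_44626f_nt.FF.Bal
import Pool.Agent.Lib.MP_13404a_ag.UB.CanB
import Pool.Agent.Lib.MP_13404a_ag.UB.Defs

/-!
The places of a function field in one variable.
-/

open scoped IntermediateField

noncomputable section

namespace Pool.Agent.Lib.MP_44626f_nt.FF

open Pool.Agent.Lib.MP_13404a_ag.UB Pool.Agent.Lib.MP_15f242_ag

section
variable {k K : Type} [Field k] [CharZero k] [Field K] [Algebra k K] [FF k K]

lemma lift_mem_globk {ω : Ω[K⁄k]} (h : ω ∈ regAlong k k K) (w : Derivation k K K) {P : Pt k K}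
    {m : ℤ} (hw : ∀ f ∈ P.1, w f ∈ fil P m) : w.liftKaehlerDifferential ω ∈ fil P m := by
  simp only [regAlong, Submodule.mem_iInf] at h
  have h1 := h P.1 P.2.2
  clear h
  induction h1 using Submodule.span_induction with
  | mem x hx =>
    obtain ⟨a, ha, b, hb, rfl⟩ := hx
    simpa using mul_fil ha (hw b hb)
  | zero => simp
  | add x y _ _ hx hy => rw [map_add]; exact add_mem hx hy
  | smul c x _ hx =>
    rw [LinearMap.map_smul_of_tower, Algebra.smul_def]
    exact mul_fil (P.1.algebraMap_mem _) hx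

lemma eq_smul_globk {x : K} (hx : Transcendental k x) {d : Derivation k K K} (hd : d x = 1)
    (ω : Ω[K⁄k]) : ω = d.liftKaehlerDifferential ω • KaehlerDifferential.D k K x := by
  refine LinearMap.congr_fun (Derivation.liftKaehlerDifferential_unique LinearMap.id
    (LinearMap.toSpanSingleton K _ (KaehlerDifferential.D k K x) ∘ₗ d.liftKaehlerDifferential)
    (Derivation.ext fun f => ?_)) ω
  simpa using sub_eq_zero.1 (der_eq_zero ((KaehlerDifferential.D k K - (LinearMap.toSpanSingleton
    K _ (KaehlerDifferential.D k K x)).compDer d).restrictScalars ℤ)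
    (fun c => Derivation.map_algebraMap _ c) hx (by simp [hd]) f)

lemma finrank_reg_globk : Module.finrank k (regAlong k k K) = gn k K := by
  obtain ⟨x, hx⟩ := FF.ex (k := k) (K := K)
  obtain ⟨d, hd⟩ := exists_der hx 1
  obtain ⟨κ, hκ⟩ := exists_isK (d := d) fun e => by simp [e] at hd
  have h1 : Function.Injective (d.liftKaehlerDifferential.restrictScalars k) := fun a b h => by
    rw [eq_smul_globk hx hd a, eq_smul_globk hx hd b]
    exact congrArg (· • _) h
  rw [(Submodule.equivMapOfInjective _ h1 _).finrank_eq, ← hκ.ll_eq, ll]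
  suffices h : (regAlong k k K).map (d.liftKaehlerDifferential.restrictScalars k) = H0 (OD κ) by
    rw [h]
  refine le_antisymm (Submodule.map_le_iff_le_comap.2 fun ω hω => mem_L.2 fun P =>
    lift_mem_globk hω d (hκ P).mem) fun f hf =>
      ⟨f • KaehlerDifferential.D k K x, ?_, by simp [hd]⟩
  simp only [regAlong, SetLike.mem_coe, Submodule.mem_iInf]
  intro O hO
  by_cases e : O = ⊤
  · exact Submodule.subset_span ⟨f, e ▸ trivial, x, e ▸ trivial, rfl⟩
  let P : Pt k K := ⟨O, e, hO⟩
  obtain ⟨π, -, hπ⟩ := exists_po P (-1)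
  obtain ⟨h2, h3⟩ := hκ.unif hπ
  refine Submodule.subset_span ⟨f * (d π)⁻¹, ?_, π, (mem_iff_po (P := P)).2 (by omega), ?_⟩
  · refine (mem_fil_zero (P := P)).1 (fil_mono P ?_
      (mul_mem_fil (mem_L.1 hf P) (mem_fil_of (le_refl (po P (d π)⁻¹)))))
    rw [po_inv]
    omega
  · rw [eq_smul_globk hx hd (KaehlerDifferential.D k K π), smul_smul,
      Derivation.liftKaehlerDifferential_comp_D, inv_mul_cancel_right₀ h2]

omit [CharZero k] [FF k K] in
lemma finsum_globk (D : Div k K) : ∑ᶠ P, D P = Finsupp.degree D :=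
  finsum_eq_sum_of_support_subset _ (Finsupp.fun_support_eq D).subset

lemma dv_globk {d : Derivation k K K} {κ : Div k K} (h : IsK d κ) {P : Pt k K} {π : K}
    (h0 : π ≠ 0) (hπ : po P π = -1) {f : K} (hf : f ≠ 0) :
    π * ((d π)⁻¹ * d f) - (-po P f : ℤ) * f ∈ fil P (po P f - 1) := by
  obtain ⟨h2, h3⟩ := h.unif hπ
  obtain ⟨n, hn⟩ : ∃ n, n = -po P f := ⟨_, rfl⟩
  obtain ⟨u, hu⟩ : ∃ u, f = π ^ n * u :=
    ⟨(π ^ n)⁻¹ * f, (mul_inv_cancel_left₀ (zpow_ne_zero n h0) f).symm⟩
  have u0 : u ≠ 0 := fun e => hf (by rw [hu, e, mul_zero])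
  have h4 : po P f = po P (π ^ n) + po P u := by rw [← po_mul P (zpow_ne_zero n h0) u0, ← hu]
  rw [po_zpow, hπ] at h4
  have h5 : u ∈ P.1 := mem_iff_po.2 (by omega)
  have e : π * ((d π)⁻¹ * d f) - n * f = π ^ (n + 1) * ((d π)⁻¹ * d u) := by
    rw [hu, d.leibniz, d.leibniz_zpow, zpow_add_one₀ h0, zpow_sub_one₀ h0]
    simp only [smul_eq_mul, zsmul_eq_mul]
    field_simp
    ring
  rw [← hn, e]
  refine fil_mono P ?_ (mul_mem_fil (mem_fil_of (le_refl _))
    (mul_mem_fil (mem_fil_of (le_refl _)) ((h P).mem u h5)))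
  rw [po_zpow, po_inv, hπ]
  omega

/-- the place at a point -/
def placeGlobk {d : Derivation k K K} {κ : Div k K} (h : IsK d κ) (P : Pt k K) (π : K)
    (h0 : π ≠ 0) (hπ : po P π = -1) : Place K where
  v f := -po P f
  pi := π
  D f := (d π)⁻¹ * d f
  pi_ne := h0
  v_pi := by rw [hπ, neg_neg]
  v_mul f g hf hg := by rw [po_mul P hf hg, neg_add]
  v_add f g _ _ hfg := by
    have := po_add_le P hfg (le_max_left (po P f) (po P g)) (le_max_right _ _)
    omega
  v_nat n _ := by rw [← map_natCast (algebraMap k K), po_const, neg_zero]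
  D_add f g := by rw [map_add, mul_add]
  D_mul f g := by rw [d.leibniz, smul_eq_mul, smul_eq_mul]; ring
  D_v f hf := or_iff_not_imp_left.2 fun hz => by
    have := (mem_fil hz).1 (dv_globk h h0 hπ hf)
    omega

end

theorem exists_glob (k K : Type) [Field k] [CharZero k] [IsAlgClosed k] [Field K] [Algebra k K]
    {t : K} (ht : Transcendental k t) [FiniteDimensional k⟮t⟯ K] :
    ∃ G : Glob K, G.gam = 2 * (Module.finrank k (regAlong k k K) : ℝ) - 2 ∧
      ∀ a b : K, a ≠ 0 → b ≠ 0 → Transcendental k (a / b) →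
        1 ≤ Module.finrank k⟮a / b⟯ K ∧ G.dist a b = 2 * (Module.finrank k⟮a / b⟯ K : ℝ) := by
  have : FF k K := ff_of_one ht
  obtain ⟨d, κ, h⟩ := exists_isK' (k := k) (K := K)
  choose π h0 hπ using fun P : Pt k K => exists_po P (-1)
  have hg : ∀ P, -po P (d (π P))⁻¹ = κ P := fun P => by rw [po_inv, neg_neg, (h.unif (hπ P)).2]
  let G : Glob K :=
    { P := Pt k K
      pl := fun P => placeGlobk h P (π P) (h0 P) (hπ P)
      D := d
      g := fun P => (d (π P))⁻¹
      D_add := fun f g => map_add d f g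
      D_mul := fun f g => by rw [d.leibniz, smul_eq_mul, smul_eq_mul]
      g_ne := fun P => inv_ne_zero (h.unif (hπ P)).1
      D_eq := fun _ _ => rfl
      fin := fun f _ => (-pdiv k f).hasFiniteSupport
      sum := fun f hf => (finsum_globk (-pdiv k f)).trans (by
        rw [map_neg, degree_pdiv hf, neg_zero])
      gfin := κ.hasFiniteSupport.subset fun P hP e => hP ((hg P).trans e) }
  refine ⟨G, ?_, fun a b ha hb hab => ⟨?_, ?_⟩⟩
  · have e : (fun P : Pt k K => (G.pl P).v (G.g P)) = κ := funext hg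
    rw [Glob.gam, G.cast_finsum G.gfin, finrank_reg_globk]
    exact_mod_cast (congrArg finsum e).trans ((finsum_globk κ).trans h.degree_eq)
  · have := FF.fin _ hab
    exact Module.finrank_pos
  · have e : (fun P : Pt k K => |(G.pl P).v a - (G.pl P).v b|) =
        (pol k (a / b) + pol k (a / b) - pdiv k (a / b) : Div k K) := funext fun P => by
      show |-po P a - -po P b| = max (po P (a / b)) 0 + max (po P (a / b)) 0 - po P (a / b)
      rw [div_eq_mul_inv, po_mul P ha (inv_ne_zero hb), po_inv, abs_eq_max_neg]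
      omega
    have e2 := (congrArg finsum e).trans (finsum_globk _)
    rw [map_sub, map_add, degree_pol hab, degree_pdiv (div_ne_zero ha hb)] at e2
    rw [Glob.dist, G.cast_finsum (φ := fun P : Pt k K => |(G.pl P).v a - (G.pl P).v b|)
      (e ▸ Finsupp.hasFiniteSupport _)]
    have e3 : ((∑ᶠ P : Pt k K, |(G.pl P).v a - (G.pl P).v b| : ℤ) : ℝ) = _ := congrArg _ e2
    refine e3.trans ?_
    push_cast
    ring

end Pool.Agent.Lib.MP_44626f_nt.FF
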