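import Pool.Agent.Lib.MP_44626f_nt.FF.Crv

/-!
Normalisation on the disc of a class of points that agree to order two.
-/

open Polynomial Finset

noncomputable section

namespace Pool.Agent.Lib.MP_44626f_nt.FF

variable {K : Type} [Field K]

namespace HatAux

lemma der_taylor (P : K[X]) (r a : K) :
    (derivative (taylor r P)).eval a = (derivative P).eval (a + r) := by
  simp [taylor_apply, derivative_comp, eval_comp]

/-- `P` on the disc of radius one around `a` -/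
def zoom (Q : Place K) (a : K) (P : K[X]) : K[X] := (taylor a P).comp (C Q.pi * X)

lemma zoom_eval (Q : Place K) (a s : K) (P : K[X]) :
    (zoom Q a P).eval s = P.eval (Q.pi * s + a) := by
  simp [zoom, eval_comp, taylor_eval]

lemma zoom_der (Q : Place K) (a s : K) (P : K[X]) :
    (derivative (zoom Q a P)).eval s = Q.pi * (derivative P).eval (Q.pi * s + a) := by
  simp [zoom, derivative_comp, eval_comp, der_taylor]

lemma zoom_deg (Q : Place K) (a : K) (P : K[X]) : (zoom Q a P).natDegree ≤ P.natDegree := by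
  refine natDegree_comp_le.trans ?_
  rw [natDegree_taylor, natDegree_C_mul_X _ Q.pi_ne, mul_one]

lemma zoom_ge {Q : Place K} {a : K} {P : K[X]} (h : Q.PGe P 0) (ha : Q.Ge a 0) :
    Q.PGe (zoom Q a P) 0 :=
  (h.taylor ha).comp ((Q.ge_pi.pge_C.mul Place.pge_X).mono (by omega))

variable {Q : Place K} {I : Type} {Dg : ℕ} (c : Crv Q I Dg)

def u (i : I) : K := c.t i - (c.k i : K) / Q.pi

def Xt (i : I) : K := Q.pi ^ (-(4 * c.k i)) * c.Xv i

def NA (l : ℤ) : K[X] := nA Q c.A (c.m l) l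

def NB (l : ℤ) : K[X] := nB Q c.B (c.m l) l

def F (i : I) : K[X] := NA c (c.k i) - C (Xt c i) * NB c (c.k i)

lemma evB (i : I) : (NB c (c.k i)).eval (u c i) = Q.pi ^ (-c.m (c.k i)) * c.B.eval (c.t i) := by
  simp [NB, nB, u, taylor_eval]

lemma pw (i : I) :
    Q.pi ^ (-c.m (c.k i) - 4 * c.k i) = Q.pi ^ (-(4 * c.k i)) * Q.pi ^ (-c.m (c.k i)) := by
  rw [← zpow_add₀ Q.pi_ne]; congr 1; ring

lemma evA (i : I) : (NA c (c.k i)).eval (u c i) = Xt c i * (NB c (c.k i)).eval (u c i) := by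
  rw [evB, NA, nA, eval_mul, eval_C, taylor_eval, u, sub_add_cancel, c.onA, pw, Xt]
  ring

lemma evB_ne (i : I) : (NB c (c.k i)).eval (u c i) ≠ 0 := by
  rw [evB]; exact mul_ne_zero (zpow_ne_zero _ Q.pi_ne) (c.B_ne i)

lemma evB_v (i : I) : Q.v ((NB c (c.k i)).eval (u c i)) = c.w i := by
  rw [evB, Q.v_mul _ _ (zpow_ne_zero _ Q.pi_ne) (c.B_ne i), Q.v_pi_zpow, Crv.w]; ring

lemma Xt_ge (i : I) : Q.Ge (Xt c i) 0 :=
  (Q.ge_pi_zpow _).mul' (Q.ge_self _) (by rw [c.X_v]; omega)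

lemma F_ge (i : I) : Q.PGe (F c i) 0 :=
  (c.prim _).1.sub (((Xt_ge c i).pge_C.mul (c.prim _).2.1).mono (by omega))

lemma NB_deg (l : ℤ) : (NB c l).natDegree ≤ Dg :=
  (natDegree_C_mul_le _ _).trans ((natDegree_taylor _ _).le.trans c.degB)

lemma F_deg (i : I) : (F c i).natDegree ≤ Dg :=
  (natDegree_sub_le _ _).trans (max_le
    ((natDegree_C_mul_le _ _).trans ((natDegree_taylor _ _).le.trans c.degA))
    ((natDegree_C_mul_le _ _).trans (NB_deg c _)))

lemma F_eval {i j : I} (h : c.k i = c.k j) :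
    (F c i).eval (u c j) = (Xt c j - Xt c i) * (NB c (c.k j)).eval (u c j) := by
  rw [F, h, eval_sub, eval_mul, eval_C, evA]; ring

lemma F_der (i : I) : (derivative (F c i)).eval (u c i) ≠ 0 ∧
    c.h i = Q.v ((derivative (F c i)).eval (u c i)) - c.w i := by
  have e1 : (derivative (F c i)).eval (u c i) = Q.pi ^ (-c.m (c.k i) - 4 * c.k i) *
      ((derivative c.A).eval (c.t i) - c.Xv i * (derivative c.B).eval (c.t i)) := by
    simp only [F, NA, NB, nA, nB, derivative_sub, derivative_C_mul, eval_sub, eval_mul, eval_C,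
      der_taylor, u, sub_add_cancel, Xt]
    rw [pw]; ring
  have e2 : (derivative c.A * c.B - c.A * derivative c.B).eval (c.t i) = c.B.eval (c.t i) *
      ((derivative c.A).eval (c.t i) - c.Xv i * (derivative c.B).eval (c.t i)) := by
    rw [eval_sub, eval_mul, eval_mul, c.onA]; ring
  have n1 := right_ne_zero_of_mul (e2 ▸ c.W_ne i)
  refine ⟨e1 ▸ mul_ne_zero (zpow_ne_zero _ Q.pi_ne) n1, ?_⟩
  rw [e1, Crv.h, e2, Q.v_mul _ _ (c.B_ne i) n1, Q.v_mul _ _ (zpow_ne_zero _ Q.pi_ne) n1,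
    Q.v_pi_zpow, c.v_A, Crv.w]
  ring

lemma Xt_sub {i j : I} (h : c.k i = c.k j) :
    Xt c j - Xt c i = Q.pi ^ (-(4 * c.k i)) * (c.Xv j - c.Xv i) := by
  rw [Xt, Xt, ← h]; ring

lemma u_sub {i j : I} (h : c.k i = c.k j) : u c j - u c i = c.t j - c.t i := by
  rw [u, u, h]; ring

/-- the position inside the disc around `a` -/
def ps (a i : I) : K := (c.t i - c.t a) / Q.pi

/-- the value inside the disc around `a` -/
def Y (a i : I) : K := Q.pi ^ (-2 : ℤ) * (Xt c i - Xt c a)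

def Ah (a : I) : K[X] := C (Q.pi ^ (-2 : ℤ)) * zoom Q (u c a) (F c a)

def Bh (a : I) : K[X] := zoom Q (u c a) (NB c (c.k a))

lemma ps_eq {a i : I} (h : c.k a = c.k i) : Q.pi * ps c a i + u c a = u c i := by
  have := u_sub c h
  rw [ps, mul_div_cancel₀ _ Q.pi_ne]
  linear_combination -this

lemma ps_ge {a i : I} (h : c.c2 i a) : Q.Ge (ps c a i) 0 := by
  by_cases e : i = a
  · simp [ps, e, Place.Ge]
  · have := c.c2_V i a e h
    exact ((Q.ge_self _).div Q.pi_ne).mono (by rw [Q.v_pi]; simp only [Crv.V] at this; omega)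

lemma Y_ge {a i : I} (h : c.c2 i a) : Q.Ge (Y c a i) 0 := by
  rw [Y, Xt_sub c h.1.symm, ← h.1]
  exact (Q.ge_pi_zpow _).mul' ((Q.ge_pi_zpow _).mul h.2) (by omega)

lemma Bh_eval {a i : I} (h : c.k a = c.k i) :
    (Bh c a).eval (ps c a i) = (NB c (c.k i)).eval (u c i) := by
  rw [Bh, zoom_eval, ps_eq c h, h]

lemma Ah_eval {a i : I} (h : c.k a = c.k i) :
    (Ah c a).eval (ps c a i) = Y c a i * (NB c (c.k i)).eval (u c i) := by
  rw [Ah, eval_mul, eval_C, zoom_eval, ps_eq c h, F_eval c h, Y, mul_assoc]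

lemma hat_der {a i : I} (h : c.k a = c.k i) :
    (derivative (Ah c a)).eval (ps c a i) - Y c a i * (derivative (Bh c a)).eval (ps c a i) =
      Q.pi ^ (-1 : ℤ) * (derivative (F c i)).eval (u c i) := by
  have e : Q.pi ^ (-1 : ℤ) = Q.pi ^ (-2 : ℤ) * Q.pi := by
    rw [← zpow_add_one₀ Q.pi_ne]; rfl
  rw [Ah, Bh, derivative_C_mul, eval_mul, eval_C, zoom_der, zoom_der, ps_eq c h, e, Y]
  simp only [F, h, derivative_sub, derivative_C_mul, eval_sub, eval_mul, eval_C]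
  ring

end HatAux

namespace Crv

open HatAux

variable [CharZero K] {Q : Place K} {I : Type} {Dg : ℕ} (c : Crv Q I Dg)

lemma h_good (i j : I) (hne : i ≠ j) (h : c.c2 i j) (hw : c.w i = 0) : 1 ≤ c.h i := by
  obtain ⟨n1, e1⟩ := c.c2_v i j hne h.1 h.2
  obtain ⟨n2, e2⟩ := F_der c i
  have d2 := h.2.le (sub_ne_zero.2 n1)
  have nd : c.t j - c.t i ≠ 0 := sub_ne_zero.2 fun e => hne (c.t_inj e).symm
  have vd : Q.v (c.t j - c.t i) = Q.v (c.Xv i - c.Xv j) - 4 * c.k i - 1 := by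
    rw [Q.v_sub_comm, e1]
  have a1 := (F_ge c i).taylor_two (a := u c i) (c.t_int i) (Q.ge_self (c.t j - c.t i)) (by omega)
  rw [← u_sub c h.1, add_sub_cancel, F_eval c h.1, F_eval c rfl, sub_self, zero_mul, sub_zero,
    u_sub c h.1, Xt_sub c h.1] at a1
  have a2 : Q.Ge (Q.pi ^ (-(4 * c.k i)) * (c.Xv j - c.Xv i) * (NB c (c.k j)).eval (u c j))
      (Q.v (c.Xv i - c.Xv j) - 4 * c.k i) :=
    ((Q.ge_pi_zpow _).mul (Q.ge_self _)).mul' ((c.prim _).2.1.eval (c.t_int j))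
      (by rw [Q.v_sub_comm (c.Xv j)]; omega)
  have a3 := (a2.sub (a1.mono (by omega))).le (by simpa using ⟨n2, nd⟩)
  rw [sub_sub_cancel, Q.v_mul _ _ n2 nd] at a3
  omega

lemma exists_wh : ∃ wh : I → ℤ, (∀ i, 0 ≤ wh i) ∧ (∀ i, 1 - 2 * wh i ≤ c.h i) ∧
    (∀ i, wh i ≤ c.w i + 2) ∧
    ∀ (s : ℕ) (S : Finset I), (∀ i ∈ S, ∀ j ∈ S, c.c2 i j) →
      (∀ i ∈ S, (Dg : ℤ) * s + 1 ≤ wh i) → (∀ i ∈ S, ∀ j ∈ S, i ≠ j → c.V i j ≤ s + 1) →
      #S ≤ Dg := by
  rcases isEmpty_or_nonempty I with hI | hI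
  · exact ⟨fun _ => 0, hI.elim, hI.elim, hI.elim, fun s S _ _ _ => by
      simp [eq_empty_of_isEmpty S]⟩
  let rep : I → I := fun i => Classical.epsilon (c.c2 i)
  have r1 : ∀ i, c.c2 i (rep i) := fun i => Classical.epsilon_spec ⟨i, c.c2_refl i⟩
  have r2 : ∀ i j, c.c2 i j → rep i = rep j := fun i j h => congrArg Classical.epsilon
    (funext fun l => propext ⟨c.c2_trans _ _ _ (c.c2_symm _ _ h), c.c2_trans _ _ _ h⟩)
  choose e he using fun a => Q.exists_prim (A := Ah c a) (B := Bh c a) (.inr fun h =>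
    evB_ne c a (by rw [← Bh_eval c (a := a) rfl, h, eval_zero]))
  have np : ∀ n : ℤ, Q.pi ^ n ≠ 0 := fun n => zpow_ne_zero _ Q.pi_ne
  have vB : ∀ a i, c.c2 i a → (C (Q.pi ^ (-e a)) * Bh c a).eval (ps c a i) ≠ 0 ∧
      Q.v ((C (Q.pi ^ (-e a)) * Bh c a).eval (ps c a i)) = c.w i - e a := fun a i h => by
    rw [eval_mul, eval_C, Bh_eval c h.1.symm, Q.v_mul _ _ (np _) (evB_ne c i), Q.v_pi_zpow, evB_v]
    exact ⟨mul_ne_zero (np _) (evB_ne c i), by ring⟩
  have w0 : ∀ i, 0 ≤ c.w i - e (rep i) := fun i => by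
    obtain ⟨a1, a2⟩ := vB _ i (r1 i)
    exact a2 ▸ ((he _).2.1.eval (ps_ge c (r1 i))).le a1
  refine ⟨fun i => c.w i - e (rep i), w0, fun i => ?_, fun i => ?_, fun s S h1 h2 h3 => ?_⟩
  · obtain ⟨n2, e2⟩ := F_der c i
    have a1 := ((he (rep i)).1.derivative.eval (ps_ge c (r1 i))).sub
      ((Y_ge c (r1 i)).mul' ((he (rep i)).2.1.derivative.eval (ps_ge c (r1 i))) (l := 0) (by omega))
    rw [derivative_C_mul, derivative_C_mul, eval_mul, eval_mul, eval_C, mul_left_comm, ← mul_sub,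
      hat_der c (r1 i).1.symm] at a1
    have a2 := a1.le (mul_ne_zero (np _) (mul_ne_zero (np _) n2))
    rw [Q.v_mul _ _ (np _) (mul_ne_zero (np _) n2), Q.v_mul _ _ (np _) n2, Q.v_pi_zpow,
      Q.v_pi_zpow] at a2
    have := w0 i
    dsimp only
    omega
  · dsimp only
    by_contra a
    refine (he (rep i)).2.2 ⟨((Q.ge_pi_zpow _).pge_C.mul ((Q.ge_pi_zpow _).pge_C.mul
      (zoom_ge (F_ge c _) (c.t_int _)))).mono (by omega), ((Q.ge_pi_zpow _).pge_C.mul
      (zoom_ge (c.prim _).2.1 (c.t_int _))).mono (by omega)⟩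
  · by_contra a
    rw [not_le] at a
    obtain ⟨i₀, hi₀⟩ := card_pos.1 (show 0 < #S by omega)
    have b1 : ∀ i ∈ S, c.c2 i (rep i₀) := fun i hi => c.c2_trans _ _ _ (h1 i hi i₀ hi₀) (r1 i₀)
    have b2 : ∀ i ∈ S, ∀ j ∈ S, i ≠ j → ps c (rep i₀) i ≠ ps c (rep i₀) j ∧
        Q.v (ps c (rep i₀) i - ps c (rep i₀) j) ≤ s := fun i hi j hj hij => by
      have nd : c.t i - c.t j ≠ 0 := sub_ne_zero.2 fun e => hij (c.t_inj e)
      have e1 : ps c (rep i₀) i - ps c (rep i₀) j = (c.t i - c.t j) / Q.pi := by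
        rw [ps, ps]; ring
      have := h3 i hi j hj hij
      refine ⟨sub_ne_zero.1 (e1 ▸ div_ne_zero nd Q.pi_ne), ?_⟩
      rw [e1, Q.v_div nd Q.pi_ne, Q.v_pi]
      simp only [V] at this
      omega
    have b3 : ∀ i ∈ S, Q.Ge ((C (Q.pi ^ (-e (rep i₀))) * Bh c (rep i₀)).eval (ps c (rep i₀) i))
        (1 + Dg * s) := fun i hi => by
      have := h2 i hi
      dsimp only at this
      rw [r2 i i₀ (h1 i hi i₀ hi₀)] at this
      exact .inr (by rw [(vB _ i (b1 i hi)).2]; omega)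
    refine (he (rep i₀)).2.2 ⟨Place.lagrange S (ps c (rep i₀)) (d := Dg) ?_ a
      (fun i hi => ps_ge c (b1 i hi)) b2 fun i hi => ?_, Place.lagrange S (ps c (rep i₀)) (d := Dg)
      ?_ a (fun i hi => ps_ge c (b1 i hi)) b2 b3⟩
    · exact (natDegree_C_mul_le _ _).trans ((natDegree_C_mul_le _ _).trans
        ((zoom_deg _ _ _).trans (F_deg c _)))
    · have := (Y_ge c (b1 i hi)).mul' (b3 i hi) (l := 1 + Dg * s) (by omega)
      rw [eval_mul, eval_C, Bh_eval c (b1 i hi).1.symm, mul_left_comm] at this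
      rwa [eval_mul, eval_C, Ah_eval c (b1 i hi).1.symm]
    · exact (natDegree_C_mul_le _ _).trans ((zoom_deg _ _ _).trans (NB_deg c _))

end Crv

end Pool.Agent.Lib.MP_44626f_nt.FF
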