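import Pool.Agent.Lib.MP_44626f_nt.FF.Axis

/-!
The strip determinant of a brick vanishes unless its points are close.
-/

open Polynomial Finset

noncomputable section

namespace Pool.Agent.Lib.MP_44626f_nt.FF

variable {K : Type} [Field K] {I : Type} {N : ℕ}

lemma det_scale (t Xv : I → K) {g : K} (hg : g ≠ 0) (r : Fin N × Fin 3 → I × Bool) :
    (Matrix.of fun ρ c => rowv (fun i => g * t i) Xv (r ρ) c).det
      = g ^ (((∑ c : Fin N × Fin 3, (c.1 : ℕ) : ℕ) : ℤ) - #{ρ | (r ρ).2 = true})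
        * (Matrix.of fun ρ c => rowv t Xv (r ρ) c).det := by
  have e : (Matrix.of fun ρ c => rowv (fun i => g * t i) Xv (r ρ) c)
      = Matrix.of fun ρ (c : Fin N × Fin 3) =>
      (if (r ρ).2 = true then g⁻¹ else 1) * (g ^ (c.1 : ℕ) * rowv t Xv (r ρ) c) := by
    ext ρ c
    simp only [Matrix.of_apply, rowv]
    split_ifs
    · rcases h : (c.1 : ℕ) with _ | b
      · simp
      · simp only [Nat.add_sub_cancel, mul_pow]; field_simp; ring
    · rw [mul_pow]; ring
  rw [e, det_row_mul, det_col_mul, prod_ite, prod_const_one, mul_one, prod_const,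
    prod_pow_eq_pow_sum, zpow_sub₀ hg, zpow_natCast, zpow_natCast, inv_pow]
  ring

variable [CharZero K] {x : I → K}

lemma Brick.bal_mu (hx : Brick x) (G : Glob K) (i j : I) :
    G.Bal (fun p => ((G.pl p).mu (x i) (x j) : ℝ)) 0 := by
  simpa [Place.mu] using ((G.bal_v (hx.add_ne i j)).sub (G.bal_v (hx.ne i))).sub (G.bal_v (hx.ne j))

theorem strip [Finite I] (hx : Brick x) (G : Glob K) (hN : 4000 ≤ N)
    {r : Fin N × Fin 3 → I × Bool} (hr : Good (fun i => G.L (x i)) (fun i => x i ^ 4) r)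
    (a b : Fin N × Fin 3) :
    G.dist (x (r a).1) (x (r b).1) ≤ 360 * N ^ 3 * max G.gam 0 := by
  obtain ⟨h1, h2, h3, hd⟩ := hr
  have hN0 : (0 : ℝ) < N := by exact_mod_cast (by omega : 0 < N)
  obtain ⟨ω, hω⟩ : ∃ ω : ℤ, ω = ((∑ c : Fin N × Fin 3, (c.1 : ℕ) : ℕ) : ℤ)
    - #{ρ | (r ρ).2 = true} := ⟨_, rfl⟩
  have w0 : (0 : ℝ) ≤ ω := by
    have h4 := single_le_sum (f := fun b : Fin N => ∑ _e : Fin 3, (b : ℕ)) (s := univ)
      (fun _ _ => Nat.zero_le _) (mem_univ ⟨N - 1, by omega⟩)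
    rw [Fintype.sum_prod_type] at hω
    simp only [sum_const, card_univ, Fintype.card_fin, smul_eq_mul] at h4 hω
    exact_mod_cast (by omega : 0 ≤ ω)
  have w1 : (ω : ℝ) ≤ 3 * N ^ 2 := by
    have h4 := sum_le_card_nsmul univ (fun c : Fin N × Fin 3 => (c.1 : ℕ)) N fun c _ => c.1.2.le
    simp only [card_univ, Fintype.card_prod, Fintype.card_fin, smul_eq_mul] at h4
    have h5 : ω ≤ ((N * 3 * N : ℕ) : ℤ) := by omega
    have h6 : (ω : ℝ) ≤ ((N * 3 * N : ℕ) : ℤ) := by exact_mod_cast h5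
    push_cast at h6
    linarith
  have hb := ((((G.bal_g.smul ω).add (G.bal_v hd)).sub
    ((Glob.Bal.sum univ fun ρ _ => G.bal_v (hx.ne (r ρ).1)).smul 4)).sub
    ((Glob.Bal.sum univ fun ρ _ => Glob.Bal.sum univ fun ρ' _ =>
      hx.bal_mu G (r ρ).1 (r ρ').1).smul ((2 * N + 7) / (12 * N)))).smul (120 * N)
  refine (Glob.dist_le hb.sm fun p => ?_).trans ?_
  · have h := axis hx (G.pl p) hN ⟨h1, h2, h3, by simp [mul_comm], fun _ => trivial⟩
    simp only [G.L_eq] at h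
    rw [det_scale _ _ (G.g_ne p), ← hω] at h
    have h4 := h.le (mul_ne_zero (zpow_ne_zero _ (G.g_ne p)) hd)
    rw [Place.v_mul _ _ _ (zpow_ne_zero _ (G.g_ne p)) hd, Place.v_zpow _ (G.g_ne p),
      Int.cast_add, Int.cast_mul] at h4
    have h5 := (single_le_sum (f := fun ρ' => ((|(G.pl p).v (x (r a).1)
      - (G.pl p).v (x (r ρ').1)| : ℤ) : ℝ)) (fun _ _ => by positivity) (mem_univ b)).trans
      (single_le_sum (f := fun ρ => ∑ ρ', ((|(G.pl p).v (x (r ρ).1)
        - (G.pl p).v (x (r ρ').1)| : ℤ) : ℝ)) (fun _ _ => by positivity) (mem_univ a))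
    refine h5.trans ((le_of_eq ?_).trans (mul_le_mul_of_nonneg_left
      (le_sub_iff_add_le'.2 (le_sub_iff_add_le'.2 ((add_assoc _ _ _).ge.trans h4)))
      (by positivity)))
    field_simp
  · simp only [sum_const_zero, mul_zero, sub_zero, add_zero, mul_one]
    calc 120 * N * ω * G.gam ≤ 120 * N * ω * max G.gam 0 :=
          mul_le_mul_of_nonneg_left (le_max_left _ _) (by positivity)
      _ ≤ 120 * N * (3 * N ^ 2) * max G.gam 0 := by gcongr
      _ = _ := by ring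

end Pool.Agent.Lib.MP_44626f_nt.FF
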