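import Pool.Agent.Lib.MP_44626f_nt.FF.LinOff
import Pool.Agent.Lib.MP_44626f_nt.FF.LinHat
import Pool.Agent.Lib.MP_44626f_nt.FF.Comb
import Pool.Agent.Lib.MP_44626f_nt.FF.Strip

/-!
Many points of a brick on a curve X = A / B of bounded degree are close to each other.
-/

open Polynomial Finset

noncomputable section

namespace Pool.Agent.Lib.MP_44626f_nt.FF

variable {K : Type} [Field K]

/-- rescaling of the variable -/
def sc (g : K) (A : K[X]) : K[X] := A.comp (C g⁻¹ * X)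

section

variable {g : K} (hg : g ≠ 0) (A B : K[X])
include hg

lemma sc_eval (t : K) : (sc g A).eval (g * t) = A.eval t := by
  simp [sc, eval_comp, hg]

lemma sc_natDegree : (sc g A).natDegree = A.natDegree := by
  rw [sc, natDegree_comp, natDegree_C_mul_X _ (inv_ne_zero hg), mul_one]

lemma sc_lc : (sc g A).leadingCoeff = A.leadingCoeff * g⁻¹ ^ A.natDegree := by
  rw [sc, leadingCoeff_comp (by rw [natDegree_C_mul_X _ (inv_ne_zero hg)]; simp),
    leadingCoeff_C_mul_X]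

lemma sc_W (t : K) :
    (derivative (sc g A) * sc g B - sc g A * derivative (sc g B)).eval (g * t)
      = g⁻¹ * (derivative A * B - A * derivative B).eval t := by
  simp [sc, derivative_comp, eval_comp, hg]
  ring

lemma sc_eq : sc g A = C (g⁻¹ ^ A.natDegree) * A.scaleRoots g := by
  ext n
  rw [sc, comp_C_mul_X_coeff, coeff_C_mul, coeff_scaleRoots]
  rcases le_or_gt n A.natDegree with h | h
  · obtain ⟨m, hm⟩ := Nat.exists_eq_add_of_le h
    rw [hm, Nat.add_sub_cancel_left, pow_add, inv_pow, inv_pow]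
    field_simp
  · simp [coeff_eq_zero_of_natDegree_lt h]

lemma sc_res : resultant (sc g A) (sc g B) = g⁻¹ ^ (A.natDegree * B.natDegree) * resultant A B := by
  have h := resultant_scaleRoots A B g
  rw [natDegree_scaleRoots, natDegree_scaleRoots] at h
  rw [sc_natDegree hg, sc_natDegree hg, sc_eq hg A, sc_eq hg B, resultant_C_mul_left,
    resultant_C_mul_right, h, ← pow_mul, ← pow_mul, mul_comm B.natDegree, inv_pow]
  field_simp

end

variable [CharZero K] {I : Type} {x : I → K} {Dg : ℕ}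

/-- the points of a brick on the curve, at one place -/
theorem exists_crv (hx : Brick x) (Q : Place K) (hL : Function.Injective fun i => Q.L (x i))
    {A B : K[X]} (hc : IsCoprime A B) (hA : A.natDegree ≤ Dg) (hB : B.natDegree ≤ Dg)
    (hp : A.natDegree ≠ 0 ∨ B.natDegree ≠ 0)
    (h : ∀ i, A.eval (Q.L (x i)) = x i ^ 4 * B.eval (Q.L (x i)) ∧ B.eval (Q.L (x i)) ≠ 0 ∧
      (derivative A * B - A * derivative B).eval (Q.L (x i)) ≠ 0) :
    ∃ c : Crv Q I Dg, c.k = (fun i => Q.v (x i)) ∧ c.t = (fun i => Q.L (x i)) ∧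
      c.Xv = (fun i => x i ^ 4) ∧ c.A = A ∧ c.B = B := by
  have h0 : A ≠ 0 ∨ B ≠ 0 := hp.imp (fun h e => h (by simp [e])) fun h e => h (by simp [e])
  have hm : ∀ l : ℤ, ∃ m, Q.Prim (nA Q A m l) (nB Q B m l) := fun l => by
    obtain ⟨m, hm⟩ := Q.exists_prim (A := C (Q.pi ^ (-(4 * l))) * taylor ((l : K) / Q.pi) A)
      (B := taylor ((l : K) / Q.pi) B) (by simpa [zpow_ne_zero _ Q.pi_ne] using h0)
    refine ⟨m, ?_⟩
    rwa [← mul_assoc, ← C_mul, ← zpow_add₀ Q.pi_ne, ← sub_eq_add_neg] at hm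
  choose m hm using hm
  exact ⟨⟨fun i => Q.v (x i), fun i => Q.L (x i), fun i => x i ^ 4, A, B, m,
    fun i => Q.ge_L (hx.ne i), hL, fun i => pow_ne_zero _ (hx.ne i),
    fun i => by simpa using Q.v_pow (hx.ne i) 4, hc, hA, hB, hp, fun i => (h i).1,
    fun i => (h i).2.1, fun i => (h i).2.2, hm, fun i j hne hk hge => by
      have h1 : x i ^ 4 - x j ^ 4 ≠ 0 := sub_ne_zero.2 (hx.inj.ne hne)
      have h2 := hge.le h1
      exact ⟨hx.inj.ne hne, by rw [Q.near_v (hx.ne i) (hx.ne j) h1 (by omega), hk]⟩⟩,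
    rfl, rfl, rfl, rfl, rfl⟩

theorem exists_num (hx : Brick x) {Q : Place K} (c : Crv Q I Dg) (hk : c.k = fun i => Q.v (x i))
    (ht : c.t = fun i => Q.L (x i)) (hX : c.Xv = fun i => x i ^ 4) :
    ∃ u : Num I Dg, u.k = c.k ∧ u.V = c.V ∧ u.mu = (fun i j => Q.mu (x i) (x j)) ∧ u.h = c.h ∧ u.w = c.w ∧
      u.R = c.R ∧ u.La = c.La := by
  obtain ⟨sg, hsg⟩ := Q.exists_sg x hx.ne hx.add_ne
  obtain ⟨wh, w1, w2, w3, w4⟩ := c.exists_wh
  refine ⟨⟨c.k, c.V, fun i j => Q.mu (x i) (x j), c.c2, sg, c.h, c.w, wh, c.R, c.La,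
    fun i j => Q.v_sub_comm _ _, c.c2_refl, c.c2_symm, c.c2_trans, c.c2_V, fun i j h => ?_,
    fun i j hne h => ?_, c.w_nonneg, w1, c.R_nonneg, c.La_nonneg, c.h_ge, c.h_good, w2, w3,
    c.lag_w, w4, c.lag_lev, c.w_le, c.one_le, c.pair_le, c.w_le_R⟩,
    rfl, rfl, rfl, rfl, rfl, rfl, rfl⟩
  · simp only [Crv.V, hk, ht] at h ⊢
    rw [Q.v_L_sub (hx.ne i) (hx.ne j) h, Q.mu_of_ne (hx.ne i) (hx.ne j) h]
    omega
  · have h0 := c.t_inj.ne hne
    simp only [Crv.V, Crv.c2, hk, ht, hX] at h h0 ⊢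
    rcases (Q.mu_nonneg (hx.add_ne i j) h).eq_or_lt with h1 | h1
    · exact Or.inl ⟨h1.symm, (Q.L_sub_ge (hx.ne i) (hx.ne j) h).le (sub_ne_zero.2 h0)⟩
    · obtain ⟨h2, h3⟩ := Q.mu_pos (hx.ne j) (hx.add_ne i j) h h1
      obtain ⟨z, hz⟩ := Q.mu_even (hx.add_ne i j) (hx.sq i j hne) h
      refine Or.inr ⟨⟨h, Or.inr (by omega)⟩, hsg i j h h1, ?_⟩
      rw [Q.near_v (hx.ne i) (hx.ne j) h2 (by omega)]
      omega

theorem lin_core (Dg : ℕ) : ∃ n1 : ℕ, ∀ (K : Type) [Field K] [CharZero K] (G : Glob K) (I : Type)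
    [Fintype I] (x : I → K), Brick x → (Function.Injective fun i => G.L (x i)) →
    ∀ A B : K[X], IsCoprime A B → A.natDegree ≤ Dg → B.natDegree ≤ Dg →
    (A.natDegree ≠ 0 ∨ B.natDegree ≠ 0) → n1 ≤ Fintype.card I →
    (∀ i, A.eval (G.L (x i)) = x i ^ 4 * B.eval (G.L (x i)) ∧ B.eval (G.L (x i)) ≠ 0 ∧
      (derivative A * B - A * derivative B).eval (G.L (x i)) ≠ 0) →
    0 ≤ G.gam ∧ ∃ c : ∀ p, Crv (G.pl p) I Dg, (∀ p, (c p).k = (fun i => (G.pl p).v (x i)) ∧
      (c p).t = (fun i => (G.pl p).L (x i)) ∧ (c p).Xv = (fun i => x i ^ 4) ∧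
      (c p).A = sc (G.g p) A ∧ (c p).B = sc (G.g p) B) ∧
      G.Sm (fun p => ((∑ i, ∑ j, |(G.pl p).v (x i) - (G.pl p).v (x j)| + ∑ i, (c p).w i : ℤ) : ℝ))
        (2 * Fintype.card I ^ 4 * G.gam) := by
  obtain ⟨κ, n1, hcomb⟩ := comb Dg
  refine ⟨n1 + κ * (Dg * Dg + 2 * Dg) + 4, fun K _ _ G I _ x hx hL A B hc hA hB hp hn h => ?_⟩
  classical
  have hA0 : ∀ i, A.eval (G.L (x i)) ≠ 0 := fun i =>
    (h i).1 ▸ mul_ne_zero (pow_ne_zero _ (hx.ne i)) (h i).2.1
  obtain ⟨i0⟩ : Nonempty I := Fintype.card_pos_iff.1 (by omega)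
  have hlA : A.leadingCoeff ≠ 0 := leadingCoeff_ne_zero.2 fun e => hA0 i0 (by simp [e])
  have hlB : B.leadingCoeff ≠ 0 := leadingCoeff_ne_zero.2 fun e => (h i0).2.1 (by simp [e])
  have hR := resultant_ne_zero A B hc
  have b1 := Glob.Bal.sum univ fun i _ => Glob.Bal.sum (univ.erase i) fun j hj =>
    (G.bal_g.add (G.bal_v (sub_ne_zero.2 (hL.ne (ne_of_mem_erase hj).symm)))).sub (hx.bal_mu G i j)
  have b2 := Glob.Bal.sum univ fun i _ =>
    (((G.bal_v (h i).2.2).sub G.bal_g).sub (G.bal_v (hA0 i))).sub (G.bal_v (h i).2.1)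
  have b3 := Glob.Bal.sum univ fun i _ => (((((G.bal_v hR).add (G.bal_v hlA)).add (G.bal_v hlB)).sub
    (G.bal_g.smul (A.natDegree * B.natDegree + A.natDegree + B.natDegree))).sub
    ((G.bal_v (hA0 i)).smul (B.natDegree + 1))).sub ((G.bal_v (h i).2.1).smul (A.natDegree + 1))
  have hb := (((b1.smul (Fintype.card I)).add (b2.smul (2 * Fintype.card I))).add
    (b3.smul κ)).smul (2 * Fintype.card I)
  choose c hcs using fun p => exists_crv (Dg := Dg) hx (G.pl p)
    (fun i j e => hL (mul_left_cancel₀ (G.g_ne p) (by simpa only [G.L_eq] using e)))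
    (A := sc (G.g p) A) (B := sc (G.g p) B) (hc.map (compRingHom _))
    (by rwa [sc_natDegree (G.g_ne p)]) (by rwa [sc_natDegree (G.g_ne p)])
    (by rwa [sc_natDegree (G.g_ne p), sc_natDegree (G.g_ne p)])
    fun i => by
      rw [G.L_eq, sc_eval (G.g_ne p), sc_eval (G.g_ne p), sc_W (G.g_ne p)]
      exact ⟨(h i).1, (h i).2.1, mul_ne_zero (inv_ne_zero (G.g_ne p)) (h i).2.2⟩
  have h0 : ∀ p, (0 : ℝ) ≤
      ((∑ i, ∑ j, |(G.pl p).v (x i) - (G.pl p).v (x j)| + ∑ i, (c p).w i : ℤ) : ℝ) := fun p =>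
    Int.cast_nonneg (add_nonneg (by positivity) (sum_nonneg fun i _ => (c p).w_nonneg i))
  have hs := hb.sm.of_nonneg h0 fun p => ?_
  · have e : ∀ i : I, (#(univ.erase i) : ℝ) = Fintype.card I - 1 := fun i => by
      rw [card_erase_of_mem (mem_univ i), card_univ, Nat.cast_sub (by omega), Nat.cast_one]
    simp only [sum_const, nsmul_eq_mul, e, card_univ] at hs
    have h1 : A.natDegree * B.natDegree + A.natDegree + B.natDegree ≤ Dg * Dg + 2 * Dg := by
      have := Nat.mul_le_mul hA hB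
      omega
    have h2 : κ * (A.natDegree * B.natDegree + A.natDegree + B.natDegree) + 4 ≤ Fintype.card I := by
      have := Nat.mul_le_mul_left κ h1
      omega
    have h3 : (κ * (A.natDegree * B.natDegree + A.natDegree + B.natDegree) + 4 : ℝ)
        ≤ Fintype.card I := by exact_mod_cast h2
    have h4 : (0 : ℝ) ≤ κ * (A.natDegree * B.natDegree + A.natDegree + B.natDegree) := by positivity
    have h6 := (finsum_nonneg h0).trans hs.2
    generalize (Fintype.card I : ℝ) = n at *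
    generalize (A.natDegree * B.natDegree + A.natDegree + B.natDegree : ℝ) = d at *
    have h5 : 0 < n * (n - 3) - κ * d := by nlinarith
    have h7 : 0 < n := by linarith
    have h8 : 0 ≤ G.gam := by
      refine nonneg_of_mul_nonneg_right (a := 2 * n ^ 2 * (n * (n - 3) - κ * d))
        (h6.trans (le_of_eq (by ring))) (by positivity)
    refine ⟨h8, c, hcs, hs.mono (mul_le_mul_of_nonneg_right ?_ h8)⟩
    nlinarith [mul_nonneg (sq_nonneg n) h4, mul_pos h7 (mul_pos h7 h7)]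
  have hg := G.g_ne p
  obtain ⟨ck, ct, cX, cA, cB⟩ := hcs p
  generalize c p = c at *
  obtain ⟨u, uk, uV, um, uh, uw, uR, uL⟩ := exists_num hx c ck ct cX
  have key := hcomb I u (by omega)
  rw [uk, uV, um, uh, uw, uR, uL, ck] at key
  have k1 : ∀ i, ∀ j ∈ univ.erase i, c.V i j
      = (G.pl p).v (G.g p) + (G.pl p).v (G.L (x i) - G.L (x j)) := fun i j hj => by
    simp only [Crv.V, ct, G.L_eq]
    rw [← mul_sub, Place.v_mul _ _ _ hg (sub_ne_zero.2 (hL.ne (ne_of_mem_erase hj).symm))]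
  have k2 : ∀ i, c.h i = (G.pl p).v ((derivative A * B - A * derivative B).eval (G.L (x i)))
      - (G.pl p).v (G.g p) - (G.pl p).v (A.eval (G.L (x i))) - (G.pl p).v (B.eval (G.L (x i))) :=
    fun i => by
      simp only [Crv.h, ct, cA, cB, G.L_eq]
      rw [sc_eval hg, sc_eval hg, sc_W hg, Place.v_mul _ _ _ (inv_ne_zero hg) (h i).2.2,
        Place.v_inv _ hg]
      ring
  have k3 : ∀ i, c.R i + c.La i - (2 * Dg + 2) * c.w i
      ≤ (G.pl p).v (resultant A B) + (G.pl p).v A.leadingCoeff + (G.pl p).v B.leadingCoeff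
        - (A.natDegree * B.natDegree + A.natDegree + B.natDegree) * (G.pl p).v (G.g p)
        - (B.natDegree + 1) * (G.pl p).v (A.eval (G.L (x i)))
        - (A.natDegree + 1) * (G.pl p).v (B.eval (G.L (x i))) := fun i => by
    have h1 := c.v_A i
    have h2 := mul_le_mul_of_nonneg_right (by omega : (A.natDegree + B.natDegree + 2 : ℤ)
      ≤ 2 * Dg + 2) (c.w_nonneg i)
    have hi := inv_ne_zero hg
    rw [Crv.R, cA, cB]
    simp only [Crv.La, Crv.w, ct, cA, cB, G.L_eq, sc_eval hg] at h1 h2 ⊢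
    rw [sc_res hg, sc_lc hg, sc_lc hg, sc_natDegree hg, sc_natDegree hg,
      Place.v_mul _ _ _ (pow_ne_zero _ hi) hR, Place.v_mul _ _ _ hlA (pow_ne_zero _ hi),
      Place.v_mul _ _ _ hlB (pow_ne_zero _ hi), Place.v_pow _ hi, Place.v_pow _ hi,
      Place.v_pow _ hi, Place.v_inv _ hg, h1]
    push_cast
    linarith
  have k4 := mul_le_mul_of_nonneg_left (sum_le_sum fun i (_ : i ∈ univ) => k3 i)
    (Int.natCast_nonneg κ)
  have k5 : ∑ i, ∑ j ∈ univ.erase i, (c.V i j - (G.pl p).mu (x i) (x j)) = _ :=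
    sum_congr rfl fun i _ => sum_congr rfl fun j hj => by rw [k1 i j hj]
  rw [k5, sum_congr rfl fun i _ => k2 i] at key
  exact_mod_cast key.trans (mul_le_mul_of_nonneg_left (add_le_add le_rfl k4) (by positivity))

end Pool.Agent.Lib.MP_44626f_nt.FF
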