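import Pool.Agent.Lib.MP_44626f_nt.FF.Crv

/-!
Invariants of the normalised pairs along the levels.
-/

open Polynomial Finset

noncomputable section

namespace Pool.Agent.Lib.MP_44626f_nt.FF

variable {K : Type} [Field K] [CharZero K]

namespace Crv

variable {Q : Place K} {I : Type} {Dg : ℕ} (c : Crv Q I Dg)

omit [CharZero K] in
lemma nA_eval (A : K[X]) (m l : ℤ) (x : K) :
    (nA Q A m l).eval (x - (l : K) / Q.pi) = Q.pi ^ (-m - 4 * l) * A.eval x := by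
  rw [nA, eval_mul, eval_C, taylor_eval_sub]

omit [CharZero K] in
lemma nB_eval (B : K[X]) (m l : ℤ) (x : K) :
    (nB Q B m l).eval (x - (l : K) / Q.pi) = Q.pi ^ (-m) * B.eval x := by
  rw [nB, eval_mul, eval_C, taylor_eval_sub]

omit [CharZero K] in
lemma nA_deg (A : K[X]) (m l : ℤ) : (nA Q A m l).natDegree = A.natDegree := by
  rw [nA, natDegree_C_mul (zpow_ne_zero _ Q.pi_ne), natDegree_taylor]

omit [CharZero K] in
lemma nB_deg (B : K[X]) (m l : ℤ) : (nB Q B m l).natDegree = B.natDegree := by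
  rw [nB, natDegree_C_mul (zpow_ne_zero _ Q.pi_ne), natDegree_taylor]

omit [CharZero K] in
lemma A_ev_ne (i : I) : c.A.eval (c.t i) ≠ 0 := by
  rw [c.onA]; exact mul_ne_zero (c.X_ne i) (c.B_ne i)

omit [CharZero K] in
lemma A_ne_zero (i : I) : c.A ≠ 0 := fun h => c.A_ev_ne i (by rw [h, eval_zero])

omit [CharZero K] in
lemma B_ne_zero (i : I) : c.B ≠ 0 := fun h => c.B_ne i (by rw [h, eval_zero])

omit [CharZero K] in
lemma v_nA_eval (i : I) (m l : ℤ) :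
    (nA Q c.A m l).eval (c.t i - (l : K) / Q.pi) ≠ 0 ∧
      Q.v ((nA Q c.A m l).eval (c.t i - (l : K) / Q.pi))
        = c.w i + c.m (c.k i) - m + 4 * (c.k i - l) := by
  have hz := zpow_ne_zero (-m - 4 * l) Q.pi_ne
  rw [nA_eval]
  refine ⟨mul_ne_zero hz (c.A_ev_ne i), ?_⟩
  rw [Q.v_mul _ _ hz (c.A_ev_ne i), Q.v_pi_zpow, c.v_A, w]; ring

omit [CharZero K] in
lemma v_nB_eval (i : I) (m l : ℤ) :
    (nB Q c.B m l).eval (c.t i - (l : K) / Q.pi) ≠ 0 ∧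
      Q.v ((nB Q c.B m l).eval (c.t i - (l : K) / Q.pi)) = c.w i + c.m (c.k i) - m := by
  have hz := zpow_ne_zero (-m) Q.pi_ne
  rw [nB_eval]
  refine ⟨mul_ne_zero hz (c.B_ne i), ?_⟩
  rw [Q.v_mul _ _ hz (c.B_ne i), Q.v_pi_zpow, w]; ring

omit [CharZero K] in
lemma pge_nA_iff (A : K[X]) (m l n : ℤ) :
    Q.PGe (nA Q A m l) n ↔ Q.PGe (taylor ((l : K) / Q.pi) A) (n + m + 4 * l) := by
  rw [nA, Place.pge_C_mul_iff (zpow_ne_zero _ Q.pi_ne), Q.v_pi_zpow]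
  congr! 1; ring

omit [CharZero K] in
lemma pge_nB_iff (B : K[X]) (m l n : ℤ) :
    Q.PGe (nB Q B m l) n ↔ Q.PGe (taylor ((l : K) / Q.pi) B) (n + m) := by
  rw [nB, Place.pge_C_mul_iff (zpow_ne_zero _ Q.pi_ne), Q.v_pi_zpow]
  congr! 1; ring

omit [CharZero K] in
lemma not_both (l : ℤ) (hA : Q.PGe (taylor ((l : K) / Q.pi) c.A) (1 + c.m l + 4 * l))
    (hB : Q.PGe (taylor ((l : K) / Q.pi) c.B) (1 + c.m l)) : False :=
  (c.prim l).2.2 ⟨(pge_nA_iff _ _ _ _).2 hA, (pge_nB_iff _ _ _ _).2 hB⟩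

omit [CharZero K] in
lemma key_w (i : I)
    (hA : Q.PGe (taylor ((c.k i : K) / Q.pi) c.A) (Q.v (c.A.eval (c.t i))))
    (hB : Q.PGe (taylor ((c.k i : K) / Q.pi) c.B) (Q.v (c.B.eval (c.t i)))) : c.w i ≤ 0 := by
  by_contra hw
  have h1 := c.v_A i
  have h2 : c.w i = Q.v (c.B.eval (c.t i)) - c.m (c.k i) := rfl
  exact c.not_both (c.k i) (hA.mono (by omega)) (hB.mono (by omega))

omit [CharZero K] in
lemma ge_int_div (n : ℤ) : Q.Ge ((n : K) / Q.pi) (-1) := by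
  have := (Q.ge_int n).div Q.pi_ne
  rwa [Q.v_pi, zero_sub] at this

omit [CharZero K] in
lemma shift_pge {P : K[X]} {n : ℤ} (k l : ℤ) (h : Q.PGe (taylor ((l : K) / Q.pi) P) n) :
    Q.PGe (taylor ((k : K) / Q.pi) P) (n - P.natDegree) := by
  have h1 := h.taylor_pole (ge_int_div (Q := Q) (k - l))
  rw [taylor_taylor, natDegree_taylor] at h1
  have e : (((k - l : ℤ) : K)) / Q.pi + (l : K) / Q.pi = (k : K) / Q.pi := by
    push_cast; ring
  rwa [e] at h1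

omit [CharZero K] in
lemma shift_A (k l : ℤ) :
    Q.PGe (taylor ((k : K) / Q.pi) c.A) (c.m l + 4 * l - c.A.natDegree) := by
  have := shift_pge k l ((pge_nA_iff _ _ _ _).1 (c.prim l).1)
  rwa [zero_add] at this

omit [CharZero K] in
lemma shift_B (k l : ℤ) :
    Q.PGe (taylor ((k : K) / Q.pi) c.B) (c.m l - c.B.natDegree) := by
  have := shift_pge k l ((pge_nB_iff _ _ _ _).1 (c.prim l).2.1)
  rwa [zero_add] at this

omit [CharZero K] in
lemma v_res (j : I) :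
    resultant (nA Q c.A (c.m (c.k j)) (c.k j)) (nB Q c.B (c.m (c.k j)) (c.k j)) ≠ 0 ∧
      Q.v (resultant (nA Q c.A (c.m (c.k j)) (c.k j)) (nB Q c.B (c.m (c.k j)) (c.k j)))
        = c.R j := by
  have hr := resultant_ne_zero _ _ c.cop
  have ht := resultant_taylor c.A c.B ((c.k j : K) / Q.pi)
  rw [natDegree_taylor, natDegree_taylor] at ht
  have h1 := zpow_ne_zero (-c.m (c.k j) - 4 * c.k j) Q.pi_ne
  have h2 := zpow_ne_zero (-c.m (c.k j)) Q.pi_ne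
  rw [nA_deg, nB_deg, nA, nB, resultant_C_mul_left, resultant_C_mul_right, ht]
  have h3 := mul_ne_zero (pow_ne_zero c.A.natDegree h2) hr
  refine ⟨mul_ne_zero (pow_ne_zero _ h1) h3, ?_⟩
  rw [Q.v_mul _ _ (pow_ne_zero _ h1) h3, Q.v_mul _ _ (pow_ne_zero _ h2) hr, Q.v_pow h1,
    Q.v_pow h2, Q.v_pi_zpow, Q.v_pi_zpow, R]
  ring

omit [CharZero K] in
lemma bez (j : I) : 0 ≤ c.R j ∧ ∀ (x : K) (n e : ℤ),
    (∀ U : K[X], Q.PGe U 0 → U.natDegree ≤ Dg → Q.Ge (U.eval x) e) →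
    Q.Ge ((nA Q c.A (c.m (c.k j)) (c.k j)).eval x) n →
    Q.Ge ((nB Q c.B (c.m (c.k j)) (c.k j)).eval x) n → n + e ≤ c.R j := by
  obtain ⟨h0, U, V, hU, hV, dU, dV, e⟩ := Place.bezout (c.prim (c.k j)).1 (c.prim (c.k j)).2.1
    (by rw [nA_deg, nB_deg]; exact c.pos)
  obtain ⟨hne, hv⟩ := c.v_res j
  refine ⟨hv ▸ h0.le hne, fun x n e' hx hA hB => ?_⟩
  rw [nB_deg] at dU
  rw [nA_deg] at dV
  have h1 := (hA.mul (hx U hU (dU.trans c.degB))).add (hB.mul (hx V hV (dV.trans c.degA)))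
  have h2 := congrArg (eval x) e
  rw [eval_add, eval_mul, eval_mul, eval_C] at h2
  rw [h2] at h1
  exact hv ▸ h1.le hne

omit [CharZero K] in
lemma v_lc (j : I) :
    0 ≤ Q.v (nA Q c.A (c.m (c.k j)) (c.k j)).leadingCoeff ∧
    0 ≤ Q.v (nB Q c.B (c.m (c.k j)) (c.k j)).leadingCoeff ∧
    Q.v (nA Q c.A (c.m (c.k j)) (c.k j)).leadingCoeff
      + Q.v (nB Q c.B (c.m (c.k j)) (c.k j)).leadingCoeff = c.La j := by
  have hA : nA Q c.A (c.m (c.k j)) (c.k j) ≠ 0 := fun h =>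
    (c.v_nA_eval j (c.m (c.k j)) (c.k j)).1 (by rw [h, eval_zero])
  have hB : nB Q c.B (c.m (c.k j)) (c.k j) ≠ 0 := fun h =>
    (c.v_nB_eval j (c.m (c.k j)) (c.k j)).1 (by rw [h, eval_zero])
  refine ⟨((c.prim (c.k j)).1 _).le (leadingCoeff_ne_zero.2 hA),
    ((c.prim (c.k j)).2.1 _).le (leadingCoeff_ne_zero.2 hB), ?_⟩
  rw [nA, nB, leadingCoeff_mul, leadingCoeff_mul, leadingCoeff_C, leadingCoeff_C,
    leadingCoeff_taylor, leadingCoeff_taylor,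
    Q.v_mul _ _ (zpow_ne_zero _ Q.pi_ne) (leadingCoeff_ne_zero.2 (c.A_ne_zero j)),
    Q.v_mul _ _ (zpow_ne_zero _ Q.pi_ne) (leadingCoeff_ne_zero.2 (c.B_ne_zero j)),
    Q.v_pi_zpow, Q.v_pi_zpow, La]
  ring

lemma w_nonneg (i : I) : 0 ≤ c.w i := by
  obtain ⟨h1, h2⟩ := c.v_nB_eval i (c.m (c.k i)) (c.k i)
  have := ((c.prim (c.k i)).2.1.eval (c.t_int i)).le h1
  omega

lemma R_nonneg (i : I) : 0 ≤ c.R i := (c.bez i).1

lemma La_nonneg (i : I) : 0 ≤ c.La i := by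
  obtain ⟨h1, h2, h3⟩ := c.v_lc i
  omega

lemma h_ge (i : I) : -2 * c.w i ≤ c.h i := by
  have hA := (c.prim (c.k i)).1
  have hB := (c.prim (c.k i)).2.1
  have h1 := ((hA.derivative.mul hB).sub (hA.mul hB.derivative)).eval (c.t_int i)
  have hd : ∀ P : K[X], (derivative (taylor ((c.k i : K) / Q.pi) P)).eval
      (c.t i - (c.k i : K) / Q.pi) = (derivative P).eval (c.t i) := fun P => by
    simp [taylor_apply, derivative_comp]
  have hz1 := zpow_ne_zero (-c.m (c.k i) - 4 * c.k i) Q.pi_ne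
  have hz2 := zpow_ne_zero (-c.m (c.k i)) Q.pi_ne
  have e : (derivative (nA Q c.A (c.m (c.k i)) (c.k i)) * nB Q c.B (c.m (c.k i)) (c.k i)
      - nA Q c.A (c.m (c.k i)) (c.k i) * derivative (nB Q c.B (c.m (c.k i)) (c.k i))).eval
        (c.t i - (c.k i : K) / Q.pi)
      = Q.pi ^ (-c.m (c.k i) - 4 * c.k i) * (Q.pi ^ (-c.m (c.k i)) *
        (derivative c.A * c.B - c.A * derivative c.B).eval (c.t i)) := by
    rw [eval_sub, eval_mul, eval_mul, nA_eval, nB_eval, nA, nB, derivative_C_mul, derivative_C_mul,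
      eval_mul, eval_mul, eval_C, eval_C, hd, hd, eval_sub, eval_mul, eval_mul]
    ring
  rw [e] at h1
  have h2 := h1.le (mul_ne_zero hz1 (mul_ne_zero hz2 (c.W_ne i)))
  rw [Q.v_mul _ _ hz1 (mul_ne_zero hz2 (c.W_ne i)), Q.v_mul _ _ hz2 (c.W_ne i), Q.v_pi_zpow,
    Q.v_pi_zpow] at h2
  have h3 := c.v_A i
  simp only [h, w]
  omega

lemma lag_w (s : ℕ) (S : Finset I) (h1 : ∀ i ∈ S, ∀ j ∈ S, c.k i = c.k j)
    (h2 : ∀ i ∈ S, (Dg : ℤ) * s + 1 ≤ c.w i) (h3 : ∀ i ∈ S, ∀ j ∈ S, i ≠ j → c.V i j ≤ s) :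
    #S ≤ Dg := by
  by_contra hS
  rw [not_le] at hS
  obtain ⟨i0, hi0⟩ := Finset.card_pos.1 (Nat.zero_lt_of_lt hS)
  have ha : ∀ i ∈ S, Q.Ge (c.t i - (c.k i0 : K) / Q.pi) 0 := fun i hi => by
    rw [← h1 i hi i0 hi0]; exact c.t_int i
  have hs : ∀ i ∈ S, ∀ j ∈ S, i ≠ j →
      c.t i - (c.k i0 : K) / Q.pi ≠ c.t j - (c.k i0 : K) / Q.pi ∧
      Q.v ((c.t i - (c.k i0 : K) / Q.pi) - (c.t j - (c.k i0 : K) / Q.pi)) ≤ s :=
    fun i hi j hj hne => by
      refine ⟨fun h => hne (c.t_inj (sub_left_injective h)), ?_⟩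
      rw [sub_sub_sub_cancel_right]
      exact h3 i hi j hj hne
  refine (c.prim (c.k i0)).2.2 ⟨?_, ?_⟩
  · refine Place.lagrange S (fun i => c.t i - (c.k i0 : K) / Q.pi) (d := Dg) (s := s)
      (by rw [nA_deg]; exact c.degA) hS ha hs fun i hi => Or.inr ?_
    have e1 := (c.v_nA_eval i (c.m (c.k i0)) (c.k i0)).2
    have e2 := h1 i hi i0 hi0
    have e3 := h2 i hi
    rw [e1, e2]; omega
  · refine Place.lagrange S (fun i => c.t i - (c.k i0 : K) / Q.pi) (d := Dg) (s := s)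
      (by rw [nB_deg]; exact c.degB) hS ha hs fun i hi => Or.inr ?_
    have e1 := (c.v_nB_eval i (c.m (c.k i0)) (c.k i0)).2
    have e2 := h1 i hi i0 hi0
    have e3 := h2 i hi
    rw [e1, e2]; omega

lemma lev_aux (P : K[X]) (hP : P.natDegree ≤ Dg) (i0 : I) (hne : P.eval (c.t i0) ≠ 0) :
    ∃ n : ℤ, (∀ l : ℤ, Q.PGe (taylor ((l : K) / Q.pi) P) n) ∧ ∀ T : Finset I,
      (∀ i ∈ T, ∀ j ∈ T, i ≠ j → c.k i ≠ c.k j) →
      (∀ i ∈ T, n + 1 ≤ Q.v (P.eval (c.t i))) → #T ≤ Dg := by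
  have hp := Q.pi_ne
  have hev : ∀ x : K, (P.comp (C Q.pi⁻¹ * X)).eval (Q.pi * x) = P.eval x := fun x => by
    rw [eval_comp, eval_mul, eval_C, eval_X, inv_mul_cancel_left₀ hp]
  have h0 : P.comp (C Q.pi⁻¹ * X) ≠ 0 := fun h => hne (by rw [← hev, h, eval_zero])
  obtain ⟨n, h1, -, h2⟩ := Q.exists_prim (A := P.comp (C Q.pi⁻¹ * X)) (B := 0) (Or.inl h0)
  rw [Place.pge_C_mul_iff (zpow_ne_zero _ hp), Q.v_pi_zpow] at h1 h2
  have h3 : ¬ Q.PGe (P.comp (C Q.pi⁻¹ * X)) (n + 1) := fun h =>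
    h2 ⟨h.mono (by omega), fun j => by simpa using Q.ge_zero 1⟩
  refine ⟨n, fun l => ?_, fun T hT hv => ?_⟩
  · have hq : Q.PGe (C (l : K) + C Q.pi * X) 0 :=
      (Q.ge_int l).pge_C.add ((Q.ge_pi.pge_C.mul Place.pge_X).mono (by omega))
    have h4 := (h1.comp hq).mono (l := n) (by omega)
    have e : (P.comp (C Q.pi⁻¹ * X)).comp (C (l : K) + C Q.pi * X)
        = taylor ((l : K) / Q.pi) P := by
      rw [comp_assoc, taylor_apply, mul_comp, C_comp, X_comp, mul_add, ← mul_assoc, ← C_mul,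
        ← C_mul, inv_mul_cancel₀ hp, C_1, one_mul, add_comm, div_eq_inv_mul]
    rwa [e] at h4
  · by_contra hS
    rw [not_le] at hS
    have hτ : ∀ i, Q.pi * c.t i = (c.k i : K) + Q.pi * (c.t i - (c.k i : K) / Q.pi) := fun i => by
      field_simp; ring
    refine h3 (Place.lagrange T (fun i => Q.pi * c.t i) (d := Dg) (s := 0) ?_ hS
      (fun i _ => ?_) (fun i hi j hj hij => ?_) fun i hi => Or.inr ?_)
    · refine natDegree_comp_le.trans ?_
      rw [natDegree_C_mul_X _ (inv_ne_zero hp), mul_one]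
      exact hP
    · rw [hτ]
      exact (Q.ge_int _).add (Q.ge_pi.mul' (c.t_int i) (by omega))
    · have hk : c.k i - c.k j ≠ 0 := sub_ne_zero.2 (hT i hi j hj hij)
      have hk' : ((c.k i - c.k j : ℤ) : K) ≠ 0 := Int.cast_ne_zero.2 hk
      have hg : Q.Ge (Q.pi * ((c.t i - (c.k i : K) / Q.pi) - (c.t j - (c.k j : K) / Q.pi)))
          (Q.v ((c.k i - c.k j : ℤ) : K) + 1) :=
        Q.ge_pi.mul' ((c.t_int i).sub (c.t_int j)) (by rw [Q.v_int hk]; omega)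
      obtain ⟨h5, h6⟩ := Place.v_add_eq hk' hg
      have e : ((c.k i - c.k j : ℤ) : K)
          + Q.pi * ((c.t i - (c.k i : K) / Q.pi) - (c.t j - (c.k j : K) / Q.pi))
          = Q.pi * c.t i - Q.pi * c.t j := by
        push_cast; field_simp; ring
      rw [e] at h5 h6
      refine ⟨sub_ne_zero.1 h5, ?_⟩
      rw [h6, Q.v_int hk]; simp
    · have := hv i hi
      rw [hev]; simpa using this

lemma lag_lev (S : Finset I) (h1 : ∀ i ∈ S, 1 ≤ c.w i)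
    (h2 : ∀ i ∈ S, ∀ j ∈ S, i ≠ j → c.k i ≠ c.k j) : #S ≤ 2 * Dg := by
  classical
  rcases S.eq_empty_or_nonempty with rfl | ⟨i0, -⟩
  · simp
  obtain ⟨a, ha, ha'⟩ := c.lev_aux c.A c.degA i0 (c.A_ev_ne i0)
  obtain ⟨b, hb, hb'⟩ := c.lev_aux c.B c.degB i0 (c.B_ne i0)
  have e := Finset.card_filter_add_card_filter_not (s := S)
    fun i => a + 1 ≤ Q.v (c.A.eval (c.t i))
  have e1 := ha' (S.filter fun i => a + 1 ≤ Q.v (c.A.eval (c.t i)))
    (fun i hi j hj => h2 i (Finset.mem_filter.1 hi).1 j (Finset.mem_filter.1 hj).1)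
    fun i hi => (Finset.mem_filter.1 hi).2
  have e2 := hb' (S.filter fun i => ¬ a + 1 ≤ Q.v (c.A.eval (c.t i)))
    (fun i hi j hj => h2 i (Finset.mem_filter.1 hi).1 j (Finset.mem_filter.1 hj).1)
    fun i hi => by
      obtain ⟨h3, h4⟩ := Finset.mem_filter.1 hi
      by_contra h5
      have := c.key_w i ((ha _).mono (by omega)) ((hb _).mono (by omega))
      have := h1 i h3
      omega
  omega

lemma w_le (i j : I) : c.w i ≤ c.R j + 2 * Dg + 8 * |c.k i - c.k j| := by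
  have a1 := le_abs_self (c.k i - c.k j)
  have a2 := neg_abs_le (c.k i - c.k j)
  have dA := c.degA
  have dB := c.degB
  have hm : c.m (c.k j) ≤ c.m (c.k i) + Dg + 4 * |c.k i - c.k j| := by
    by_contra h
    exact c.not_both (c.k i) ((c.shift_A _ (c.k j)).mono (by omega))
      ((c.shift_B _ (c.k j)).mono (by omega))
  have hx : Q.Ge (c.t i - (c.k j : K) / Q.pi) (-1) := by
    have e : c.t i - (c.k j : K) / Q.pi
        = (c.t i - (c.k i : K) / Q.pi) + ((c.k i - c.k j : ℤ) : K) / Q.pi := by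
      push_cast; ring
    rw [e]
    exact ((c.t_int i).mono (by omega)).add (ge_int_div _)
  have h1 := (c.bez j).2 (c.t i - (c.k j : K) / Q.pi)
    (c.w i + c.m (c.k i) - c.m (c.k j) - 4 * |c.k i - c.k j|) (-Dg)
    (fun U hU hd => (hU.eval_pole hx).mono (by omega))
    (Or.inr (by rw [(c.v_nA_eval i _ _).2]; omega))
    (Or.inr (by rw [(c.v_nB_eval i _ _).2]; omega))
  omega

lemma one_le (i j : I) (h : 1 ≤ c.w i) : 1 ≤ c.R j + c.La j := by
  by_contra hc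
  have hR := c.R_nonneg j
  obtain ⟨l1, l2, l3⟩ := c.v_lc j
  by_cases hk : c.k i = c.k j
  · have h1 := (c.bez j).2 (c.t i - (c.k j : K) / Q.pi) 1 0
      (fun U hU _ => hU.eval (hk ▸ c.t_int i))
      (Or.inr (by rw [(c.v_nA_eval i _ _).2, hk]; omega))
      (Or.inr (by rw [(c.v_nB_eval i _ _).2, hk]; omega))
    omega
  · have hk0 : c.k i - c.k j ≠ 0 := sub_ne_zero.2 hk
    have hk1 : ((c.k i - c.k j : ℤ) : K) ≠ 0 := Int.cast_ne_zero.2 hk0
    have hv : Q.v (((c.k i - c.k j : ℤ) : K) / Q.pi) = -1 := by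
      rw [Q.v_div hk1 Q.pi_ne, Q.v_int hk0, Q.v_pi]; rfl
    obtain ⟨h5, h6⟩ := Place.v_add_eq (div_ne_zero hk1 Q.pi_ne)
      (g := c.t i - (c.k i : K) / Q.pi) ((c.t_int i).mono (by omega))
    have e : ((c.k i - c.k j : ℤ) : K) / Q.pi + (c.t i - (c.k i : K) / Q.pi)
        = c.t i - (c.k j : K) / Q.pi := by
      push_cast; ring
    rw [e] at h5 h6
    rw [hv] at h6
    obtain ⟨nA0, vA⟩ := c.v_nA_eval i (c.m (c.k j)) (c.k j)
    obtain ⟨nB0, vB⟩ := c.v_nB_eval i (c.m (c.k j)) (c.k j)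
    have pA := ((c.prim (c.k j)).1.v_eval_pole (fun h0 => nA0 (by rw [h0, eval_zero]))
      (by omega) h5 h6).2
    have pB := ((c.prim (c.k j)).2.1.v_eval_pole (fun h0 => nB0 (by rw [h0, eval_zero]))
      (by omega) h5 h6).2
    rw [nA_deg] at pA
    rw [nB_deg] at pB
    have h7 := c.v_A i
    have h8 : c.w i = Q.v (c.B.eval (c.t i)) - c.m (c.k i) := rfl
    have := c.key_w i ((c.shift_A _ (c.k j)).mono (by omega))
      ((c.shift_B _ (c.k j)).mono (by omega))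
    omega

end Crv

end Pool.Agent.Lib.MP_44626f_nt.FF
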