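import Pool.Agent.Lib.MP_44626f_nt.FF.LinLev

/-!
Further local inequalities: pairs of levels, roots of the Wronskian, points off the curve.
-/

open Polynomial Finset

noncomputable section

namespace Pool.Agent.Lib.MP_44626f_nt.FF

variable {K : Type} [Field K] [CharZero K]

namespace Crv

variable {Q : Place K} {I : Type} {Dg : ℕ} (c : Crv Q I Dg)

omit [CharZero K] in
lemma eval_sub_off {P : K[X]} {n l : ℤ} {a b : K} (h : Q.PGe P n) (ha : Q.Ge a 0)
    (hd : Q.Ge (b - a) l) (hl : 0 ≤ l) : Q.Ge (P.eval b - P.eval a) (n + l) := by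
  have h1 : Q.PGe (taylor a P).divX n := fun j => by
    rw [coeff_divX]; exact h.taylor ha (j + 1)
  have h2 := congrArg (eval (b - a)) (divX_mul_X_add (taylor a P))
  rw [taylor_eval_sub, eval_add, eval_mul, eval_X, eval_C, taylor_coeff_zero] at h2
  rw [← h2, add_sub_cancel_right]
  exact (h1.eval (hd.mono hl)).mul hd

omit [CharZero K] in
lemma pge_off (l : ℤ) : Q.PGe (taylor ((l : K) / Q.pi) c.A) (c.m l + 4 * l) ∧
    Q.PGe (taylor ((l : K) / Q.pi) c.B) (c.m l) :=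
  ⟨((pge_nA_iff _ _ _ _).1 (c.prim l).1).mono (by omega),
    ((pge_nB_iff _ _ _ _).1 (c.prim l).2.1).mono (by omega)⟩

omit [CharZero K] in
lemma ev_off (k : ℤ) {s : K} {l : ℤ} (hs : Q.Ge (s - (l : K) / Q.pi) 0) :
    Q.Ge (c.A.eval s) (c.m k + 4 * k - Dg * |l - k|) ∧
      Q.Ge (c.B.eval s) (c.m k - Dg * |l - k|) := by
  obtain ⟨hA, hB⟩ := c.pge_off k
  rcases eq_or_ne l k with rfl | hk
  · have h1 := hA.eval hs
    have h2 := hB.eval hs
    rw [taylor_eval_sub] at h1 h2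
    simpa using And.intro h1 h2
  have hx : Q.Ge (s - (k : K) / Q.pi) (-1) := by
    have e : s - (k : K) / Q.pi = (s - (l : K) / Q.pi) + ((l - k : ℤ) : K) / Q.pi := by
      push_cast; ring
    rw [e]
    exact (hs.mono (by omega)).add (ge_int_div _)
  have h1 := hA.eval_pole hx
  have h2 := hB.eval_pole hx
  rw [taylor_eval_sub, natDegree_taylor] at h1 h2
  have h3 : (Dg : ℤ) ≤ Dg * |l - k| :=
    le_mul_of_one_le_right (Int.natCast_nonneg _) (Int.one_le_abs (sub_ne_zero.2 hk))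
  have dA := c.degA
  have dB := c.degB
  exact ⟨h1.mono (by omega), h2.mono (by omega)⟩

omit [CharZero K] in
lemma v_A_sub_off (i : I) : Q.v (c.A.eval (c.t i)) - c.w i = c.m (c.k i) + 4 * c.k i := by
  rw [c.v_A, w]; ring

lemma lev_off (i j : I) (hk : c.k i ≠ c.k j) (h : c.La j ≤ 0) :
    4 * (c.k i - c.k j) = c.B.natDegree - c.A.natDegree := by
  obtain ⟨l1, l2, l3⟩ := c.v_lc j
  have hk0 : c.k i - c.k j ≠ 0 := sub_ne_zero.2 hk
  have hk1 : ((c.k i - c.k j : ℤ) : K) ≠ 0 := Int.cast_ne_zero.2 hk0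
  have hv : Q.v (((c.k i - c.k j : ℤ) : K) / Q.pi) = -1 := by
    rw [Q.v_div hk1 Q.pi_ne, Q.v_int hk0, Q.v_pi]; rfl
  obtain ⟨h5, h6⟩ := Place.v_add_eq (div_ne_zero hk1 Q.pi_ne)
    (g := c.t i - (c.k i : K) / Q.pi) ((c.t_int i).mono (by omega))
  have e : ((c.k i - c.k j : ℤ) : K) / Q.pi + (c.t i - (c.k i : K) / Q.pi)
      = c.t i - (c.k j : K) / Q.pi := by
    push_cast; ring
  rw [e] at h5 h6
  rw [hv] at h6
  obtain ⟨nA0, vA⟩ := c.v_nA_eval i (c.m (c.k j)) (c.k j)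
  obtain ⟨nB0, vB⟩ := c.v_nB_eval i (c.m (c.k j)) (c.k j)
  have pA := ((c.prim (c.k j)).1.v_eval_pole (fun h0 => nA0 (by rw [h0, eval_zero]))
    (by omega) h5 h6).2
  have pB := ((c.prim (c.k j)).2.1.v_eval_pole (fun h0 => nB0 (by rw [h0, eval_zero]))
    (by omega) h5 h6).2
  rw [nA_deg] at pA
  rw [nB_deg] at pB
  omega

lemma pair_le (i j : I) (h : c.k i ≠ c.k j) : 1 ≤ c.La i + c.La j := by
  by_contra hc
  have h1 := c.La_nonneg i
  have h2 := c.La_nonneg j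
  have h3 := c.lev_off i j h (by omega)
  have h4 := c.lev_off j i h.symm (by omega)
  omega

lemma w_le_R (i : I) : c.w i ≤ c.R i := by
  have h1 := (c.bez i).2 (c.t i - (c.k i : K) / Q.pi) (c.w i) 0
    (fun U hU _ => hU.eval (c.t_int i))
    (Or.inr (by rw [(c.v_nA_eval i _ _).2]; omega))
    (Or.inr (by rw [(c.v_nB_eval i _ _).2]; omega))
  omega

lemma root_le (i : I) {s : K} {l : ℤ}
    (hs : (derivative c.A * c.B - c.A * derivative c.B).eval s = 0) (hl : 0 ≤ l)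
    (h : Q.Ge (s - c.t i) l) : l ≤ c.h i + 2 * c.w i := by
  obtain ⟨hA, hB⟩ := c.pge_off (c.k i)
  have hd : ∀ (P : K[X]) (x : K), (derivative (taylor ((c.k i : K) / Q.pi) P)).eval
      (x - (c.k i : K) / Q.pi) = (derivative P).eval x := fun P x => by
    simp [taylor_apply, derivative_comp]
  have e : ∀ x : K, (derivative (taylor ((c.k i : K) / Q.pi) c.A) * taylor ((c.k i : K) / Q.pi) c.B
      - taylor ((c.k i : K) / Q.pi) c.A * derivative (taylor ((c.k i : K) / Q.pi) c.B)).eval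
        (x - (c.k i : K) / Q.pi) = (derivative c.A * c.B - c.A * derivative c.B).eval x :=
    fun x => by
      rw [eval_sub, eval_mul, eval_mul, hd, hd, taylor_eval_sub, taylor_eval_sub, eval_sub,
        eval_mul, eval_mul]
  have h1 := eval_sub_off (b := s - (c.k i : K) / Q.pi)
    ((hA.derivative.mul hB).sub (hA.mul hB.derivative)) (c.t_int i)
    (by rwa [sub_sub_sub_cancel_right]) hl
  rw [e, e, hs, zero_sub] at h1
  have h2 := h1.le (neg_ne_zero.2 (c.W_ne i))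
  rw [Q.v_neg] at h2
  have h3 := c.v_A i
  simp only [Crv.h, w]
  omega

lemma off_far (i : I) {s Y : K} {l : ℤ} (hs : Q.Ge (s - (l : K) / Q.pi) 0) (hY : Q.Ge Y (4 * l)) :
    Q.Ge (c.A.eval s - Y * c.B.eval s)
      (Q.v (c.A.eval (c.t i)) - c.w i - (Dg + 4) * |l - c.k i|) := by
  obtain ⟨hA, hB⟩ := c.ev_off (c.k i) hs
  have a1 := neg_abs_le (l - c.k i)
  have a2 := abs_nonneg (l - c.k i)
  rw [c.v_A_sub_off, add_mul]
  exact (hA.mono (by omega)).sub (hY.mul' hB (by omega))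

lemma off_near (i : I) {s Y : K} {l : ℤ} (hl : 0 ≤ l) (hs : Q.Ge (s - c.t i) l)
    (hY : Q.Ge (Y - c.Xv i) (4 * c.k i + l)) :
    Q.Ge (c.A.eval s - Y * c.B.eval s) (Q.v (c.A.eval (c.t i)) - c.w i + l) := by
  obtain ⟨hA, hB⟩ := c.pge_off (c.k i)
  have hd : Q.Ge (s - (c.k i : K) / Q.pi - (c.t i - (c.k i : K) / Q.pi)) l := by
    rwa [sub_sub_sub_cancel_right]
  have h1 := eval_sub_off hA (c.t_int i) hd hl
  have h2 := eval_sub_off hB (c.t_int i) hd hl
  have h3 := hB.eval (a := s - (c.k i : K) / Q.pi) (by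
    have := (hd.mono hl).add (c.t_int i)
    rwa [sub_add_cancel] at this)
  rw [taylor_eval_sub, taylor_eval_sub] at h1 h2
  rw [taylor_eval_sub] at h3
  have h4 : Q.Ge (c.Xv i) (4 * c.k i) := Or.inr (c.X_v i).ge
  have e : c.A.eval s - Y * c.B.eval s = (c.A.eval s - c.A.eval (c.t i))
      - c.Xv i * (c.B.eval s - c.B.eval (c.t i)) - (Y - c.Xv i) * c.B.eval s := by
    rw [c.onA]; ring
  rw [c.v_A_sub_off, e]
  exact (h1.sub (h4.mul' h2 (by omega))).sub (hY.mul' h3 (by omega))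

lemma v_A_le (i j : I) :
    Q.v (c.A.eval (c.t j)) - c.w j - Dg * |c.k i - c.k j| ≤ Q.v (c.A.eval (c.t i)) := by
  rw [c.v_A_sub_off]
  exact (c.ev_off (c.k j) (c.t_int i)).1.le (c.A_ev_ne i)

end Crv

end Pool.Agent.Lib.MP_44626f_nt.FF
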