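import Pool.Agent.Lib.MP_44626f_nt.FF.Defs

/-!
Polynomials with integral coefficients at a place.
-/

open Polynomial Finset

noncomputable section

namespace Pool.Agent.Lib.MP_44626f_nt.FF

namespace Place

variable {K : Type} [Field K] {Q : Place K}

/-- an integral pair that is not divisible by the uniformiser -/
def Prim (Q : Place K) (A B : K[X]) : Prop :=
  Q.PGe A 0 ∧ Q.PGe B 0 ∧ ¬ (Q.PGe A 1 ∧ Q.PGe B 1)

lemma PGe.mono {P : K[X]} {m l : ℤ} (h : Q.PGe P m) (hl : l ≤ m) : Q.PGe P l := by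
  exact fun j => (h j).mono hl

lemma PGe.add {P R : K[X]} {m : ℤ} (h : Q.PGe P m) (h' : Q.PGe R m) : Q.PGe (P + R) m := by
  intro j; rw [coeff_add]; exact (h j).add (h' j)

lemma PGe.sub {P R : K[X]} {m : ℤ} (h : Q.PGe P m) (h' : Q.PGe R m) : Q.PGe (P - R) m := by
  intro j; rw [coeff_sub]; exact (h j).sub (h' j)

lemma PGe.mul {P R : K[X]} {m l : ℤ} (h : Q.PGe P m) (h' : Q.PGe R l) :
    Q.PGe (P * R) (m + l) := by
  intro j; rw [coeff_mul]; exact Ge.sum fun x _ => (h _).mul (h' _)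

lemma Ge.pge_C {a : K} {m : ℤ} (h : Q.Ge a m) : Q.PGe (C a) m := by
  intro j; rw [coeff_C]; split_ifs
  · exact h
  · exact Q.ge_zero m

lemma pge_X : Q.PGe X 0 := by
  intro j; rw [coeff_X]; split_ifs
  · exact Q.ge_one
  · exact Q.ge_zero 0

lemma pge_one : Q.PGe 1 0 := by
  rw [← C_1]; exact Q.ge_one.pge_C

lemma PGe.sum {ι : Type} {s : Finset ι} {f : ι → K[X]} {n : ℤ} (h : ∀ i ∈ s, Q.PGe (f i) n) :
    Q.PGe (∑ i ∈ s, f i) n := by
  intro j; rw [finsetSum_coeff]; exact Ge.sum fun i hi => h i hi j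

lemma PGe.pow {P : K[X]} {n : ℤ} (h : Q.PGe P n) (m : ℕ) : Q.PGe (P ^ m) (m * n) := by
  induction m with
  | zero => simpa using pge_one
  | succ m ih => rw [pow_succ]; exact (ih.mul h).mono (by push_cast; linarith)

lemma PGe.prod {ι : Type} {s : Finset ι} {f : ι → K[X]} {n : ℤ} (h : ∀ i ∈ s, Q.PGe (f i) n) :
    Q.PGe (∏ i ∈ s, f i) (#s * n) := by
  classical
  induction s using Finset.induction_on with
  | empty => simpa using pge_one
  | insert a s ha ih =>
    rw [Finset.prod_insert ha, Finset.card_insert_of_notMem ha]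
    exact ((h a (Finset.mem_insert_self _ _)).mul
      (ih fun i hi => h i (Finset.mem_insert_of_mem hi))).mono (by push_cast; linarith)

lemma comp_eq_sum_range (P R : K[X]) :
    P.comp R = ∑ j ∈ range (P.natDegree + 1), C (P.coeff j) * R ^ j := by
  rw [Polynomial.comp, eval₂_eq_sum_range]

lemma PGe.comp_gen {P R : K[X]} {m : ℤ} {e : ℕ} (h : Q.PGe P m) (h' : Q.PGe R (-e)) :
    Q.PGe (P.comp R) (m - P.natDegree * e) := by
  rw [comp_eq_sum_range]
  refine PGe.sum fun j hj => ((h j).pge_C.mul (h'.pow j)).mono ?_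
  have h1 : (j : ℤ) ≤ P.natDegree := by
    exact_mod_cast Nat.lt_succ_iff.1 (Finset.mem_range.1 hj)
  have h2 : (0 : ℤ) ≤ e := Int.natCast_nonneg e
  nlinarith

lemma PGe.eval_gen {P : K[X]} {m : ℤ} {a : K} {e : ℕ} (h : Q.PGe P m) (ha : Q.Ge a (-e)) :
    Q.Ge (P.eval a) (m - P.natDegree * e) := by
  have := h.comp_gen ha.pge_C 0
  rwa [comp_C, coeff_C_zero] at this

lemma pge_C_mul_iff {a : K} (ha : a ≠ 0) {P : K[X]} {m : ℤ} :
    Q.PGe (C a * P) m ↔ Q.PGe P (m - Q.v a) := by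
  constructor
  · intro h j
    have := (h j).div ha
    rwa [coeff_C_mul, mul_div_cancel_left₀ _ ha] at this
  · intro h
    exact ((Q.ge_self a).pge_C.mul h).mono (by omega)

lemma PGe.derivative {P : K[X]} {m : ℤ} (h : Q.PGe P m) : Q.PGe (derivative P) m := by
  intro j
  rw [coeff_derivative]
  have h1 : Q.Ge ((j : K) + 1) 0 := by simpa using Q.ge_nat (j + 1)
  exact (h (j + 1)).mul' h1 (by omega)

lemma PGe.comp {P R : K[X]} {m : ℤ} (h : Q.PGe P m) (h' : Q.PGe R 0) : Q.PGe (P.comp R) m := by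
  simpa using h.comp_gen (e := 0) (by simpa using h')

lemma PGe.eval {P : K[X]} {m : ℤ} {a : K} (h : Q.PGe P m) (ha : Q.Ge a 0) :
    Q.Ge (P.eval a) m := by
  simpa using h.eval_gen (e := 0) (by simpa using ha)

lemma PGe.eval_pole {P : K[X]} {m : ℤ} {a : K} (h : Q.PGe P m) (ha : Q.Ge a (-1)) :
    Q.Ge (P.eval a) (m - P.natDegree) := by
  simpa using h.eval_gen (e := 1) (by simpa using ha)

lemma PGe.taylor {P : K[X]} {m : ℤ} {a : K} (h : Q.PGe P m) (ha : Q.Ge a 0) :
    Q.PGe (taylor a P) m := by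
  rw [taylor_apply]
  exact h.comp (pge_X.add ha.pge_C)

lemma PGe.taylor_pole {P : K[X]} {m : ℤ} {a : K} (h : Q.PGe P m) (ha : Q.Ge a (-1)) :
    Q.PGe (Polynomial.taylor a P) (m - P.natDegree) := by
  rw [taylor_apply]
  simpa using h.comp_gen (e := 1) (R := X + C a)
    (by simpa using (pge_X.mono (by omega : (-1 : ℤ) ≤ 0)).add ha.pge_C)

/-- second order Taylor remainder -/
lemma PGe.taylor_two {P : K[X]} {a d : K} {l : ℤ} (h : Q.PGe P 0) (ha : Q.Ge a 0)
    (hd : Q.Ge d l) (hl : 0 ≤ l) :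
    Q.Ge (P.eval (a + d) - P.eval a - (Polynomial.derivative P).eval a * d) (2 * l) := by
  have hT := h.taylor ha
  set T := Polynomial.taylor a P with hTdef
  have e0 : P.eval (a + d) = T.eval d := by rw [hTdef, taylor_eval, add_comm]
  have e1 : P.eval a = T.coeff 0 := by rw [hTdef, taylor_coeff_zero]
  have e2 : (Polynomial.derivative P).eval a = T.coeff 1 := by rw [hTdef, taylor_coeff_one]
  have e3 : T = X * (X * T.divX.divX + C (T.coeff 1)) + C (T.coeff 0) := by
    have h1 := X_mul_divX_add T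
    have h2 := X_mul_divX_add T.divX
    rw [coeff_divX, zero_add] at h2
    rw [h2, h1]
  have e4 : T.eval d - T.coeff 0 - T.coeff 1 * d = d * d * T.divX.divX.eval d := by
    conv_lhs => rw [show T.eval d = Polynomial.eval d
      (X * (X * T.divX.divX + C (T.coeff 1)) + C (T.coeff 0)) from congrArg _ e3]
    simp only [eval_add, eval_mul, eval_X, eval_C]; ring
  rw [e0, e1, e2, e4]
  have h3 : Q.PGe T.divX.divX 0 := fun j => by rw [coeff_divX, coeff_divX]; exact hT _
  exact (hd.mul hd).mul' (h3.eval (hd.mono hl)) (by omega)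

/-- a unit leading coefficient dominates at a simple pole -/
lemma PGe.v_eval_pole {P : K[X]} {a : K} (h : Q.PGe P 0) (hP : P ≠ 0)
    (hl : Q.v P.leadingCoeff = 0) (ha : a ≠ 0) (hv : Q.v a = -1) :
    P.eval a ≠ 0 ∧ Q.v (P.eval a) = -P.natDegree := by
  have hlc : P.leadingCoeff ≠ 0 := leadingCoeff_ne_zero.2 hP
  have h1 : P.leadingCoeff * a ^ P.natDegree ≠ 0 := mul_ne_zero hlc (pow_ne_zero _ ha)
  have h2 : Q.v (P.leadingCoeff * a ^ P.natDegree) = -P.natDegree := by
    rw [Q.v_mul _ _ hlc (pow_ne_zero _ ha), Q.v_pow ha, hl, hv]; ring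
  have h3 : Q.Ge (∑ j ∈ range P.natDegree, P.coeff j * a ^ j)
      (Q.v (P.leadingCoeff * a ^ P.natDegree) + 1) := by
    rw [h2]
    refine Ge.sum fun j hj => (h j).mul' ((Q.ge_self a).pow j) ?_
    have : (j : ℤ) < P.natDegree := by exact_mod_cast Finset.mem_range.1 hj
    rw [hv]; omega
  have h4 := v_add_eq h1 h3
  rw [h2] at h4
  rw [eval_eq_sum_range, Finset.sum_range_succ, add_comm]
  exact h4

lemma exists_prim (Q : Place K) {A B : K[X]} (h : A ≠ 0 ∨ B ≠ 0) :
    ∃ m : ℤ, Q.Prim (C (Q.pi ^ (-m)) * A) (C (Q.pi ^ (-m)) * B) := by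
  have hb : ∀ {P : K[X]}, P ≠ 0 → ∀ z : ℤ, Q.PGe P z → z ≤ Q.v P.leadingCoeff :=
    fun hP z hz => (hz _).le (leadingCoeff_ne_zero.2 hP)
  have hl : ∀ P : K[X], ∃ z : ℤ, ∀ y ≤ z, Q.PGe P y := fun P => by
    obtain ⟨z, hz⟩ := (P.support.image fun j => Q.v (P.coeff j)).bddBelow
    refine ⟨z, fun y hy j => ?_⟩
    by_cases hj : P.coeff j = 0
    · exact Or.inl hj
    · refine Or.inr (hy.trans (hz ?_))
      simp only [Finset.coe_image, Set.mem_image, Finset.mem_coe, mem_support_iff]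
      exact ⟨j, hj, rfl⟩
  obtain ⟨m, hm, hmax⟩ := Int.exists_greatest_of_bdd (P := fun z => Q.PGe A z ∧ Q.PGe B z)
    (by
      rcases h with h | h
      · exact ⟨_, fun z hz => hb h z hz.1⟩
      · exact ⟨_, fun z hz => hb h z hz.2⟩)
    (by
      obtain ⟨z, hz⟩ := hl A
      obtain ⟨y, hy⟩ := hl B
      exact ⟨min z y, hz _ (min_le_left _ _), hy _ (min_le_right _ _)⟩)
  have hp : Q.pi ^ (-m) ≠ 0 := zpow_ne_zero _ Q.pi_ne
  refine ⟨m, ?_, ?_, ?_⟩
  · rw [pge_C_mul_iff hp, Q.v_pi_zpow]; exact hm.1.mono (by omega)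
  · rw [pge_C_mul_iff hp, Q.v_pi_zpow]; exact hm.2.mono (by omega)
  · rw [pge_C_mul_iff hp, pge_C_mul_iff hp, Q.v_pi_zpow]
    intro h1
    have := hmax _ h1
    omega

/-- Lagrange: small values at many separated integral points force small coefficients -/
lemma lagrange {ι : Type} (S : Finset ι) (a : ι → K) {P : K[X]} {d s : ℕ} {m : ℤ}
    (hd : P.natDegree ≤ d) (hS : d < #S) (ha : ∀ i ∈ S, Q.Ge (a i) 0)
    (hs : ∀ i ∈ S, ∀ j ∈ S, i ≠ j → a i ≠ a j ∧ Q.v (a i - a j) ≤ s)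
    (hP : ∀ i ∈ S, Q.Ge (P.eval (a i)) (m + d * s)) : Q.PGe P m := by
  classical
  obtain ⟨T, hTS, hT⟩ := Finset.exists_subset_card_eq (s := S) (n := d + 1) hS
  have hinj : Set.InjOn a T := fun i hi j hj hij => by
    by_contra hne
    exact (hs i (hTS hi) j (hTS hj) hne).1 hij
  have hdeg : P.degree < #T := by
    rw [hT]
    exact lt_of_le_of_lt (degree_le_of_natDegree_le hd) (by exact_mod_cast Nat.lt_succ_self d)
  rw [Lagrange.eq_interpolate hinj hdeg, Lagrange.interpolate_apply]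
  refine PGe.sum fun i hi => ?_
  have hb : Q.PGe (Lagrange.basis T a i) (#(T.erase i) * (-(s : ℤ))) := by
    refine PGe.prod fun j hj => ?_
    obtain ⟨hji, hjT⟩ := Finset.mem_erase.1 hj
    obtain ⟨h1, h2⟩ := hs i (hTS hi) j (hTS hjT) hji.symm
    have h3 : a i - a j ≠ 0 := sub_ne_zero.2 h1
    have h4 : Q.Ge (a i - a j)⁻¹ (-(s : ℤ)) := Or.inr (by rw [Q.v_inv h3]; omega)
    exact (h4.pge_C.mul (pge_X.sub (ha j (hTS hjT)).pge_C)).mono (by omega)
  rw [Finset.card_erase_of_mem hi, hT, Nat.add_sub_cancel] at hb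
  exact ((hP i (hTS hi)).pge_C.mul hb).mono (by linarith)

/-- integral Bezout identity -/
lemma bezout {A B : K[X]} (hA : Q.PGe A 0) (hB : Q.PGe B 0)
    (h : A.natDegree ≠ 0 ∨ B.natDegree ≠ 0) :
    Q.Ge (resultant A B) 0 ∧ ∃ U V : K[X], Q.PGe U 0 ∧ Q.PGe V 0 ∧ U.natDegree ≤ B.natDegree ∧
      V.natDegree ≤ A.natDegree ∧ A * U + B * V = C (resultant A B) := by
  let O : Subring K :=
    { carrier := {f | Q.Ge f 0}
      mul_mem' := fun ha hb => Ge.mul' ha hb (by omega)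
      one_mem' := Q.ge_one
      add_mem' := fun ha hb => Ge.add ha hb
      zero_mem' := Q.ge_zero 0
      neg_mem' := fun ha => Ge.neg ha }
  have lift : ∀ {P : K[X]}, Q.PGe P 0 → ∃ p : O[X], p.map O.subtype = P ∧
      p.natDegree = P.natDegree := fun {P} hP => by
    have : P ∈ lifts O.subtype := (lifts_iff_coeff_lifts P).2 fun n => ⟨⟨_, hP n⟩, rfl⟩
    obtain ⟨p, hp⟩ := (mem_lifts _).1 this
    exact ⟨p, hp, by rw [← hp, natDegree_map_eq_of_injective O.subtype_injective]⟩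
  have down : ∀ p : O[X], Q.PGe (p.map O.subtype) 0 := fun p j => by
    rw [coeff_map]; exact (p.coeff j).2
  obtain ⟨a, ha, -⟩ := lift hA
  obtain ⟨b, hb, -⟩ := lift hB
  have hda : a.natDegree ≤ A.natDegree := by
    rw [← ha, natDegree_map_eq_of_injective O.subtype_injective]
  have hdb : b.natDegree ≤ B.natDegree := by
    rw [← hb, natDegree_map_eq_of_injective O.subtype_injective]
  have hres : resultant A B = O.subtype (resultant a b A.natDegree B.natDegree) := by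
    rw [← resultant_map_map, ha, hb]
  obtain ⟨p, q, hp, hq, e⟩ := exists_mul_add_mul_eq_C_resultant a b hda hdb h
  refine ⟨by rw [hres]; exact (resultant a b A.natDegree B.natDegree).2,
    p.map O.subtype, q.map O.subtype, down p, down q, ?_, ?_, ?_⟩
  · exact natDegree_map_le.trans (natDegree_le_of_degree_le hp.le)
  · exact natDegree_map_le.trans (natDegree_le_of_degree_le hq.le)
  · have := congrArg (Polynomial.map O.subtype) e
    rw [Polynomial.map_add, Polynomial.map_mul, Polynomial.map_mul, map_C, ha, hb] at this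
    rw [this, hres]

end Place

end Pool.Agent.Lib.MP_44626f_nt.FF
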