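import Pool.Agent.Lib.MP_44626f_nt.FF.Exp
import Pool.Agent.Lib.MP_44626f_nt.FF.Poly

/-!
Integral spans of monomials with values in dual numbers, and lower bounds for their determinants.
-/

open Polynomial Finset

noncomputable section

namespace Pool.Agent.Lib.MP_44626f_nt.FF

/-- functions on the points with values in dual numbers -/
abbrev Alg (K I : Type) [Field K] := I → DualNumber K

variable {K : Type} [Field K] {I : Type}

/-- a row: the value at a point, or the derivative scaled by `pi ^ σ` -/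
def ev (Q : Place K) (σ : ℤ) (ρ : I × Bool) : Alg K I →ₗ[K] K where
  toFun F := if ρ.2 then Q.pi ^ σ * (F ρ.1).snd else (F ρ.1).fst
  map_add' F G := by split_ifs <;> simp [mul_add]
  map_smul' a F := by split_ifs <;> simp [mul_left_comm]

lemma ev_apply (Q : Place K) (σ : ℤ) (ρ : I × Bool) (F : Alg K I) :
    ev Q σ ρ F = if ρ.2 then Q.pi ^ σ * (F ρ.1).snd else (F ρ.1).fst := rfl

/-- the integral span of `A ^ e * B ^ b` with `e < 3` -/
def InL (Q : Place K) (A B F : Alg K I) : Prop :=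
  ∃ q0 q1 q2 : K[X], Q.PGe q0 0 ∧ Q.PGe q1 0 ∧ Q.PGe q2 0 ∧
    F = aeval B q0 + A * aeval B q1 + A ^ 2 * aeval B q2

/-- every determinant with rows `r` and columns in the span has valuation at least `x` -/
def Cl (Q : Place K) (σ : ℤ) (A B : Alg K I) {ι : Type} [Fintype ι] [DecidableEq ι]
    (r : ι → I × Bool) (x : ℝ) : Prop :=
  ∀ F : ι → Alg K I, (∀ c, InL Q A B (F c)) →
    Q.GeR (Matrix.of fun ρ c => ev Q σ (r ρ) (F c)).det x

/-- integral dual numbers -/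
def DInt (Q : Place K) (σ : ℤ) (z : DualNumber K) : Prop := Q.Ge z.fst 0 ∧ Q.Ge z.snd (-σ)

variable {Q : Place K} {σ : ℤ} {A B A' B' F : Alg K I}

lemma DInt.add {z w : DualNumber K} (h : DInt Q σ z) (h' : DInt Q σ w) : DInt Q σ (z + w) :=
  ⟨by simpa using h.1.add h'.1, by simpa using h.2.add h'.2⟩

lemma DInt.mul {z w : DualNumber K} (h : DInt Q σ z) (h' : DInt Q σ w) : DInt Q σ (z * w) :=
  ⟨by simpa using h.1.mul h'.1, by
    rw [DualNumber.snd_mul]
    exact (h.1.mul' h'.2 (by simp)).add (h.2.mul' h'.1 (by simp))⟩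

lemma dint_const {a : K} (h : Q.Ge a 0) : DInt Q σ (algebraMap K (DualNumber K) a) :=
  ⟨by simpa [TrivSqZeroExt.algebraMap_eq_inl] using h,
    by simpa [TrivSqZeroExt.algebraMap_eq_inl] using Q.ge_zero _⟩

lemma DInt.pow {z : DualNumber K} (h : DInt Q σ z) (n : ℕ) : DInt Q σ (z ^ n) := by
  induction n with
  | zero => simpa using dint_const (σ := σ) Q.ge_one
  | succ n ih => rw [pow_succ]; exact ih.mul h

lemma DInt.aeval {z : DualNumber K} (h : DInt Q σ z) {q : K[X]} (hq : Q.PGe q 0) :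
    DInt Q σ (aeval z q) := by
  rw [aeval_eq_sum_range]
  refine sum_induction _ _ (fun _ _ => DInt.add) (by simpa using dint_const (Q.ge_zero 0)) ?_
  intro j _
  rw [Algebra.smul_def]
  exact (dint_const (hq j)).mul (h.pow j)

lemma InL.dint (h : InL Q A B F) {i : I} (hA : DInt Q σ (A i)) (hB : DInt Q σ (B i)) :
    DInt Q σ (F i) := by
  obtain ⟨q0, q1, q2, h0, h1, h2, rfl⟩ := h
  simp only [Pi.add_apply, Pi.mul_apply, Pi.pow_apply, aeval_pi_apply₂]
  exact ((hB.aeval h0).add (hA.mul (hB.aeval h1))).add ((hA.pow 2).mul (hB.aeval h2))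

lemma pge_zero (m : ℤ) : Q.PGe 0 m := fun _ => by simpa using Q.ge_zero m

lemma pge_X_pow (b : ℕ) : Q.PGe (X ^ b) 0 := fun j => by
  rw [coeff_X_pow]; split_ifs
  exacts [Q.ge_one, Q.ge_zero _]

lemma inL_mono (A B : Alg K I) (e : Fin 3) (b : ℕ) : InL Q A B (A ^ (e : ℕ) * B ^ b) := by
  fin_cases e
  · exact ⟨X ^ b, 0, 0, pge_X_pow b, pge_zero 0, pge_zero 0, by simp⟩
  · exact ⟨0, X ^ b, 0, pge_zero 0, pge_X_pow b, pge_zero 0, by simp⟩
  · exact ⟨0, 0, X ^ b, pge_zero 0, pge_zero 0, pge_X_pow b, by simp⟩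

lemma InL.shear {p : K[X]} (hp : Q.PGe p 0) (h : InL Q (A + aeval B p) B F) : InL Q A B F := by
  obtain ⟨q0, q1, q2, h0, h1, h2, rfl⟩ := h
  have a1 : Q.PGe (p * q1) 0 := by simpa using hp.mul h1
  have a2 : Q.PGe (p * q2) 0 := by simpa using hp.mul h2
  have a3 : Q.PGe (p * (p * q2)) 0 := by simpa using hp.mul a2
  refine ⟨q0 + p * q1 + p * (p * q2), q1 + p * q2 + p * q2, q2, (h0.add a1).add a3,
    (h1.add a2).add a2, h2, ?_⟩
  simp only [map_add, map_mul]; ring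

lemma InL.shift {b : K} (hb : Q.Ge b 0) (h : InL Q A (B + algebraMap K _ b) F) :
    InL Q A B F := by
  obtain ⟨q0, q1, q2, h0, h1, h2, rfl⟩ := h
  refine ⟨taylor b q0, taylor b q1, taylor b q2, h0.taylor hb, h1.taylor hb, h2.taylor hb, ?_⟩
  simp [taylor_apply, aeval_comp]

variable {ι : Type} [Fintype ι] [DecidableEq ι] {r : ι → I × Bool} {x y : ℝ}

lemma Cl.mono (h : Cl Q σ A B r x) (hy : y ≤ x) : Cl Q σ A B r y := fun F hF => (h F hF).mono hy

lemma Cl.of_sub (h : Cl Q σ A' B' r x) (hs : ∀ F, InL Q A B F → InL Q A' B' F) :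
    Cl Q σ A B r x := fun F hF => h F fun c => hs _ (hF c)

lemma Cl.base (h : ∀ ρ, DInt Q σ (A (r ρ).1) ∧ DInt Q σ (B (r ρ).1)) : Cl Q σ A B r 0 := by
  intro F hF
  have : Q.Ge (Matrix.of fun ρ c => ev Q σ (r ρ) (F c)).det 0 := ge_det fun ρ c => by
    have h1 := (hF c).dint (h ρ).1 (h ρ).2
    rw [Matrix.of_apply, ev_apply]; split_ifs
    · exact (Q.ge_pi_zpow σ).mul' h1.2 (by simp)
    · exact h1.1
  simpa using this.toR

lemma Cl.split {γ : Type} [DecidableEq γ] (β : ι → γ) (y : γ → ℝ)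
    (h : ∀ α, Cl Q σ A B (fun ρ : {ρ // β ρ = α} => r ρ) (y α)) :
    Cl Q σ A B r (∑ α ∈ univ.image β, y α) := by
  intro F hF
  have e : (Matrix.of fun ρ c => ev Q σ (r ρ) (F c)) = Matrix.of fun ρ c =>
      ∑ α : ↥(univ.image β), if β ρ = α then ev Q σ (r ρ) (F c) else 0 := by
    ext ρ c
    rw [Matrix.of_apply, Matrix.of_apply, sum_eq_single ⟨β ρ, by simp⟩]
    · simp
    · exact fun α _ hne => if_neg fun h => hne (Subtype.ext h.symm)
    · simp
  rw [e]
  refine geR_det_sum (fun c (α : ↥(univ.image β)) ρ =>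
    if β ρ = α then ev Q σ (r ρ) (F c) else 0) fun a => ?_
  refine geR_det_block β (fun c => (a c).1) _ (fun ρ c hne => if_neg hne) fun τ hτ =>
    ⟨y, le_rfl, fun α => ?_⟩
  convert h α (fun c => F (τ c)) (fun c => hF _) using 2
  ext ρ c
  exact if_pos (ρ.2.trans ((hτ c).trans c.2).symm)

lemma det_ev_shift (τ : ℤ) (F : ι → Alg K I) :
    (Matrix.of fun ρ c => ev Q σ (r ρ) (F c)).det
      = Q.pi ^ (-(τ * #{ρ | (r ρ).2 = true})) *
        (Matrix.of fun ρ c => ev Q (σ + τ) (r ρ) (F c)).det := by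
  have hp := Q.pi_ne
  have e : (∏ ρ, if (r ρ).2 = true then Q.pi ^ (-τ) else 1)
      = Q.pi ^ (-(τ * #{ρ | (r ρ).2 = true})) := by
    rw [prod_ite, prod_const_one, mul_one, prod_const, ← zpow_natCast, ← zpow_mul, neg_mul]
  rw [← e, ← det_row_mul]
  congr 1
  ext ρ c
  simp only [Matrix.of_apply, ev_apply]
  split_ifs
  · rw [← mul_assoc, ← zpow_add₀ hp]; congr 2; ring
  · simp

lemma Cl.scale {α β : ℕ} {τ : ℤ} {g : ℝ} (h : Cl Q (σ + τ) A B r x)
    (hg : ∀ a : ι → Fin 3 × ℕ, Function.Injective a →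
      g ≤ ∑ c, ((α * (a c).1 + β * (a c).2 : ℕ) : ℝ)) :
    Cl Q σ (Q.pi ^ α • A) (Q.pi ^ β • B) r (x + g - τ * #{ρ | (r ρ).2 = true}) := by
  intro F hF
  choose q0 q1 q2 h0 h1 h2 hF using hF
  let q : ι → Fin 3 → K[X] := fun c => ![q0 c, q1 c, q2 c]
  have hq : ∀ c e, Q.PGe (q c e) 0 := fun c e => by fin_cases e <;> simp [q, h0, h1, h2]
  let d := (univ.sup fun j : ι × Fin 3 => (q j.1 j.2).natDegree) + 1
  have hd : ∀ c e, (q c e).natDegree < d := fun c e => Nat.lt_succ_of_le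
    (le_sup (f := fun j : ι × Fin 3 => (q j.1 j.2).natDegree) (mem_univ (c, e)))
  have e1 : ∀ c, F c = ∑ j : Fin 3 × Fin d, ((q c j.1).coeff j.2 * Q.pi ^ (α * j.1 + β * j.2))
      • (A ^ (j.1 : ℕ) * B ^ (j.2 : ℕ)) := fun c => by
    have e2 : F c = ∑ e : Fin 3, (Q.pi ^ α • A) ^ (e : ℕ) * aeval (Q.pi ^ β • B) (q c e) := by
      rw [hF c, Fin.sum_univ_three]; simp [q]
    rw [e2, Fintype.sum_prod_type]
    refine sum_congr rfl fun e _ => ?_
    rw [aeval_eq_sum_range' (hd c e), sum_range, mul_sum]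
    refine sum_congr rfl fun b _ => ?_
    simp only [_root_.smul_pow, smul_mul_smul_comm, smul_smul, pow_add, pow_mul]
    congr 1; ring
  rw [det_ev_shift τ]
  have e3 : x + g - τ * #{ρ | (r ρ).2 = true}
      = ((-(τ * #{ρ | (r ρ).2 = true}) : ℤ) : ℝ) + (g + x) := by push_cast; ring
  rw [e3]
  refine (Q.ge_pi_zpow _).toR.mul ?_
  simp only [e1, map_sum, map_smul, smul_eq_mul]
  refine geR_det_sum (fun c (j : Fin 3 × Fin d) ρ =>
    ((q c j.1).coeff j.2 * Q.pi ^ (α * j.1 + β * j.2))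
      * ev Q (σ + τ) (r ρ) (A ^ (j.1 : ℕ) * B ^ (j.2 : ℕ))) fun a => ?_
  rw [det_col_mul]
  by_cases ha : Function.Injective a
  · refine Place.GeR.mul ?_ (h _ fun c => inL_mono A B _ _)
    refine (Place.GeR.prod (x := fun c => ((α * (a c).1 + β * (a c).2 : ℕ) : ℝ))
      fun c _ => ?_).mono (hg (fun c => ((a c).1, (a c).2)) fun c c' hc => ha ?_)
    · have := ((hq c (a c).1 (a c).2).mul (Q.ge_pi.pow (α * (a c).1 + β * (a c).2))).toR
      simpa using this
    · simp only [Prod.mk.injEq] at hc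
      exact Prod.ext hc.1 (Fin.ext hc.2)
  · rw [det_eq_zero_of_not_inj (fun (j : Fin 3 × Fin d) ρ =>
      ev Q (σ + τ) (r ρ) (A ^ (j.1 : ℕ) * B ^ (j.2 : ℕ))) ha, mul_zero]
    exact Or.inl rfl

end Pool.Agent.Lib.MP_44626f_nt.FF
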