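import Pool.Agent.Lib.MP_44626f_nt.FF.Bal

/-!
Two edges with the same logarithmic derivative force all ratios to be constant.
-/

open Polynomial Finset

noncomputable section

namespace Pool.Agent.Lib.MP_44626f_nt.FF

variable {K : Type} [Field K] [CharZero K]

/-- nonzero constants are units at every place -/
lemma Place.v_const (Q : Place K) {c : K} (hc : c ≠ 0) (hD : Q.D c = 0) : Q.v c = 0 := by
  by_contra h
  have h1 : ((Q.v c : ℤ) : K) ≠ 0 := by exact_mod_cast h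
  rcases Q.D_v c hc with h2 | h2
  · rw [hD, mul_zero, zero_sub, neg_eq_zero] at h2
    exact mul_ne_zero h1 hc h2
  · rw [hD, mul_zero, zero_sub, Q.v_neg, Q.v_mul _ _ h1 hc, Q.v_int h] at h2
    omega

omit [CharZero K] in
lemma Place.Ge.D_pred {Q : Place K} {f : K} {n : ℤ} (h : Q.Ge f n) : Q.Ge (Q.D f) (n - 1) := by
  have h1 : Q.Ge (Q.pi * Q.D f - n * f + n * f) n :=
    (h.euler.mono (by omega)).add ((Q.ge_int n).mul' h (by omega))
  have h2 := h1.div Q.pi_ne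
  rwa [sub_add_cancel, mul_div_cancel_left₀ _ Q.pi_ne, Q.v_pi] at h2

omit [CharZero K] in
lemma Place.Ge.D_int {Q : Place K} {f : K} (h : Q.Ge f 0) : Q.Ge (Q.D f) 0 := by
  have h2 := h.euler.div Q.pi_ne
  rw [Int.cast_zero, zero_mul, sub_zero, mul_div_cancel_left₀ _ Q.pi_ne, Q.v_pi] at h2
  simpa using h2

omit [CharZero K] in
lemma Place.v_of_sq (Q : Place K) {f g z : K} (hz : z ≠ 0) (hf : f ≠ 0)
    (hg : Q.Ge g (Q.v f + 1)) (e : f + g = z ^ 2) : 2 * Q.v z = Q.v f := by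
  have := (Place.v_add_eq hf hg).2
  rw [e, Q.v_pow hz] at this
  exact_mod_cast this

/-- a zero of the first root -/
lemma Place.quart_zero (Q : Place K) {r a b y z : K} (hr : r ≠ 0) (hz : z ≠ 0)
    (ha : a ≠ 0) (hab : b - a ≠ 0) (Da : Q.D a = 0) (Db : Q.D b = 0)
    (ey : r ^ 2 + a = y ^ 2) (ez : r ^ 2 + b = z ^ 2) (h : 0 < Q.v y) :
    Q.Ge (Q.D r) (Q.v y + Q.v z) := by
  have hy2 : Q.Ge (y ^ 2) 1 := ((Q.ge_self y).pow 2).mono (by push_cast; omega)
  have v1 : Q.v (b - a) = 0 := Q.v_const hab (by rw [Q.D_sub, Da, Db, sub_zero])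
  have v2 : Q.v (-a) = 0 := by rw [Q.v_neg, Q.v_const ha Da]
  have h1 := Q.v_of_sq (g := y ^ 2) hz hab (by rwa [v1]) (by linear_combination ez - ey)
  have h2 := Q.v_of_sq (g := y ^ 2) hr (neg_ne_zero.2 ha) (by rwa [v2])
    (by linear_combination -ey)
  have h3 := congrArg Q.D ey
  rw [Q.D_add, Da, pow_two, pow_two, Q.D_mul, Q.D_mul] at h3
  have h4 : Q.D r = y * Q.D y / r := by
    field_simp
    linear_combination (1 / 2 : K) * h3
  rw [h4]
  exact (((Q.ge_self y).mul (Q.ge_self y).D_pred).div hr).mono (by omega)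

/-- the differential of the quartic has no pole -/
lemma Place.quart_ge (Q : Place K) {r a b y z : K} (hr : r ≠ 0) (hy : y ≠ 0) (hz : z ≠ 0)
    (ha : a ≠ 0) (hb : b ≠ 0) (hab : b - a ≠ 0) (Da : Q.D a = 0) (Db : Q.D b = 0)
    (ey : r ^ 2 + a = y ^ 2) (ez : r ^ 2 + b = z ^ 2) :
    Q.Ge (Q.D r) (Q.v y + Q.v z) := by
  have va : Q.Ge a 0 := Or.inr (Q.v_const ha Da).ge
  have vb : Q.Ge b 0 := Or.inr (Q.v_const hb Db).ge
  have v2 : Q.v (r ^ 2) = 2 * Q.v r := by rw [Q.v_pow hr]; norm_num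
  rcases lt_or_ge (Q.v r) 0 with h | h
  · have h1 := Q.v_of_sq hy (pow_ne_zero 2 hr) (va.mono (by omega)) ey
    have h2 := Q.v_of_sq hz (pow_ne_zero 2 hr) (vb.mono (by omega)) ez
    exact (Q.ge_self r).D_pred.mono (by omega)
  · rcases lt_or_ge 0 (Q.v y) with h1 | h1
    · exact Q.quart_zero hr hz ha hab Da Db ey ez h1
    rcases lt_or_ge 0 (Q.v z) with h2 | h2
    · rw [add_comm]
      exact Q.quart_zero hr hy hb (fun h0 => hab (by linear_combination -h0)) Db Da ez ey h2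
    exact (Place.Ge.D_int (Or.inr h)).mono (by omega)

/-- the local inequality for three roots -/
lemma Place.quart_three (Q : Place K) {r a b c y z u : K} (hr : r ≠ 0) (hD : Q.D r ≠ 0)
    (hy : y ≠ 0) (hz : z ≠ 0) (hu : u ≠ 0) (ha : a ≠ 0) (hb : b ≠ 0) (hc : c ≠ 0)
    (hab : b - a ≠ 0) (hbc : c - b ≠ 0) (hca : a - c ≠ 0)
    (Da : Q.D a = 0) (Db : Q.D b = 0) (Dc : Q.D c = 0)
    (ey : r ^ 2 + a = y ^ 2) (ez : r ^ 2 + b = z ^ 2) (eu : r ^ 2 + c = u ^ 2) :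
    |Q.v r| ≤ 2 * (Q.v (Q.D r) - Q.v y - Q.v z - Q.v u) + Q.v r := by
  rcases lt_or_ge (Q.v r) 0 with h | h
  · have v2 : Q.v (r ^ 2) = 2 * Q.v r := by rw [Q.v_pow hr]; norm_num
    have va : Q.Ge a 0 := Or.inr (Q.v_const ha Da).ge
    have vb : Q.Ge b 0 := Or.inr (Q.v_const hb Db).ge
    have vc : Q.Ge c 0 := Or.inr (Q.v_const hc Dc).ge
    have h1 := Q.v_of_sq hy (pow_ne_zero 2 hr) (va.mono (by omega)) ey
    have h2 := Q.v_of_sq hz (pow_ne_zero 2 hr) (vb.mono (by omega)) ez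
    have h3 := Q.v_of_sq hu (pow_ne_zero 2 hr) (vc.mono (by omega)) eu
    have h4 := (Q.ge_self r).D_pred.le hD
    rw [abs_of_neg h]
    omega
  · rw [abs_of_nonneg h]
    rcases lt_or_ge 0 (Q.v u) with h1 | h1
    · have hu2 : Q.Ge (u ^ 2) 1 := ((Q.ge_self u).pow 2).mono (by push_cast; omega)
      have v1 : Q.v (a - c) = 0 := Q.v_const hca (by rw [Q.D_sub, Da, Dc, sub_zero])
      have h2 := Q.v_of_sq (g := u ^ 2) hy hca (by rwa [v1]) (by linear_combination ey - eu)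
      have h3 := (Q.quart_ge hr hz hu hb hc hbc Db Dc ez eu).le hD
      omega
    · have h3 := (Q.quart_ge hr hy hz ha hb hab Da Db ey ez).le hD
      omega

lemma quart_dist_of_D (G : Glob K) {a b : K} (ha : a ≠ 0) (hb : b ≠ 0)
    (h : ∀ p, (G.pl p).D (a / b) = 0) : G.dist a b = 0 := by
  have e : ∀ p, (G.pl p).v a - (G.pl p).v b = 0 := fun p => by
    rw [← (G.pl p).v_div ha hb]
    exact (G.pl p).v_const (div_ne_zero ha hb) (h p)
  simp [Glob.dist, e]

omit [CharZero K] in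
lemma quart_D_of_L (G : Glob K) {a b : K} (ha : a ≠ 0) (hb : b ≠ 0) (h : G.L a = G.L b)
    (p : G.P) : (G.pl p).D (a / b) = 0 := by
  have h1 := (G.pl p).L_div ha hb
  rw [G.L_eq p a, G.L_eq p b, h, sub_self, Place.L, div_eq_zero_iff] at h1
  exact h1.resolve_right (div_ne_zero ha hb)

lemma quart_root {I : Type} {x : I → K} (hx : Brick x) {j k : I} (i : I) (h : j ≠ k) :
    ∃ z : K, z ≠ 0 ∧ (x j / x i) ^ 2 + (x k / x i) ^ 2 = z ^ 2 := by
  obtain ⟨w, hw⟩ := hx.sq j k h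
  have h0 := hx.ne i
  refine ⟨w / x i, div_ne_zero (fun e => hx.add_ne j k (by rw [hw, e, mul_zero])) h0, ?_⟩
  field_simp
  linear_combination hw

omit [CharZero K] in
lemma quart_ne {I : Type} {x : I → K} (hx : Brick x) {j k : I} (i : I) (h : j ≠ k) :
    (x j / x i) ^ 2 - (x k / x i) ^ 2 ≠ 0 := fun e => by
  have h0 := hx.ne i
  have h1 : x j ^ 2 - x k ^ 2 = 0 := by
    field_simp at e
    linear_combination e
  exact h (hx.inj (show x j ^ 4 = x k ^ 4 by linear_combination (x j ^ 2 + x k ^ 2) * h1))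

theorem dist_of_L (G : Glob K) {a b : K} (ha : a ≠ 0) (hb : b ≠ 0) (h : G.L a = G.L b) :
    G.dist a b = 0 :=
  quart_dist_of_D G ha hb (quart_D_of_L G ha hb h)

theorem quart (G : Glob K) {I : Type} {x : I → K} (hx : Brick x) {i i' i'' : I} (h1 : i ≠ i')
    (h2 : i ≠ i'') (h3 : i' ≠ i'') (hL : G.L (x i) = G.L (x i')) (hL' : G.L (x i) = G.L (x i''))
    (j : I) : G.dist (x j) (x i) ≤ 2 * max G.gam 0 := by
  have m0 : (0 : ℝ) ≤ 2 * max G.gam 0 := by positivity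
  have zero : G.L (x j) = G.L (x i) → G.dist (x j) (x i) ≤ 2 * max G.gam 0 := fun h => by
    rwa [dist_of_L G (hx.ne j) (hx.ne i) h]
  by_cases j1 : j = i
  · exact zero (by rw [j1])
  by_cases j2 : j = i'
  · exact zero (by rw [j2, hL])
  by_cases j3 : j = i''
  · exact zero (by rw [j3, hL'])
  by_cases hD : G.D (x j / x i) = 0
  · rwa [quart_dist_of_D G (hx.ne j) (hx.ne i) fun p => by rw [G.D_eq, hD, mul_zero]]
  have hr : ∀ k, x k / x i ≠ 0 := fun k => div_ne_zero (hx.ne k) (hx.ne i)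
  have cst : ∀ k, G.L (x i) = G.L (x k) → ∀ p, (G.pl p).D ((x k / x i) ^ 2) = 0 :=
    fun k h p => by
      rw [pow_two, (G.pl p).D_mul, quart_D_of_L G (hx.ne k) (hx.ne i) h.symm p, mul_zero, add_zero]
  obtain ⟨y, hy, ey⟩ := quart_root hx i j1
  obtain ⟨z, hz, ez⟩ := quart_root hx i j2
  obtain ⟨u, hu, eu⟩ := quart_root hx i j3
  have B := ((((((G.bal_g.add (G.bal_v hD)).sub (G.bal_v hy)).sub (G.bal_v hz)).sub
    (G.bal_v hu)).smul 2).add (G.bal_v (hr j))).sm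
  refine Glob.dist_le (B.mono (by linarith [le_max_left G.gam 0])) fun p => ?_
  have e := G.D_eq p (x j / x i)
  have h := (G.pl p).quart_three (hr j) (by rw [e]; exact mul_ne_zero (G.g_ne p) hD) hy hz hu
    (pow_ne_zero 2 (hr i)) (pow_ne_zero 2 (hr i')) (pow_ne_zero 2 (hr i''))
    (quart_ne hx i h1.symm) (quart_ne hx i h3.symm) (quart_ne hx i h2)
    (cst i rfl p) (cst i' hL p) (cst i'' hL' p) ey ez eu
  rw [e, (G.pl p).v_mul _ _ (G.g_ne p) hD] at h
  rw [← (G.pl p).v_div (hx.ne j) (hx.ne i)]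
  exact_mod_cast h

end Pool.Agent.Lib.MP_44626f_nt.FF
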