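import Pool.Agent.Lib.MP_44626f_nt.FF.Lin
import Pool.Agent.Lib.MP_44626f_nt.FF.Quart

/-!
All points of a large brick are close to each other.
-/

open Polynomial Finset

noncomputable section

namespace Pool.Agent.Lib.MP_44626f_nt.FF

variable {K : Type} [Field K] [CharZero K]

lemma Place.mu_plus (Q : Place K) {a b : K} (ha : a ≠ 0) (hb : b ≠ 0) (h0 : a ^ 2 + b ^ 2 ≠ 0)
    (hs : IsSquare (a ^ 2 + b ^ 2)) :
    Q.mu a b + |Q.v a - Q.v b| = 0 ∨ 2 ≤ Q.mu a b ∧ Q.v a = Q.v b ∧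
      Q.Ge (a ^ 4 - b ^ 4) (4 * Q.v b + Q.mu a b) ∧ Q.Ge (Q.L a - Q.L b) (Q.mu a b - 1) := by
  by_cases h : Q.v a = Q.v b
  · rcases (Q.mu_nonneg h0 h).eq_or_lt with h1 | h1
    · exact Or.inl (by rw [← h1, h]; simp)
    · obtain ⟨-, h3⟩ := Q.mu_pos hb h0 h h1
      obtain ⟨z, hz⟩ := Q.mu_even h0 hs h
      exact Or.inr ⟨by omega, h, Or.inr h3.ge, Q.near_ge ha hb (by omega) (Or.inr h3.ge)⟩
  · exact Or.inl (by rw [Q.mu_of_ne ha hb h]; ring)

lemma off_arith {J : Type} [Fintype J] [DecidableEq J] {Dg : ℕ} {k w mu : J → ℤ} {V : J → J → ℤ}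
    {l φ : ℤ} (i0 : J) (hn : 2 * Dg + 9 ≤ Fintype.card J) (hw : ∀ i, 0 ≤ w i)
    (hm : ∀ i, mu i + |l - k i| = 0 ∨ 2 ≤ mu i ∧ l = k i ∧
      mu i - 1 - w i - w i0 - Dg * |k i - k i0| ≤ φ)
    (hV : ∀ i j, i ≠ j → 0 ≤ V i j + |k i - k j|)
    (hV' : ∀ i j, i ≠ j → 2 ≤ mu i → mu i ≤ mu j → mu i - 1 ≤ V j i)
    (hφ : -w i0 - (Dg + 4) * |l - k i0| ≤ φ) :
    |l - k i0| ≤ 2 * φ - ∑ i, mu i + 2 * ∑ i, ∑ j ∈ univ.erase i, V i j
      + (2 * Dg + 4) * (∑ i, ∑ j, |k i - k j| + ∑ i, w i) := by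
  obtain ⟨s, -, hs⟩ := exists_max_image univ mu ⟨i0, mem_univ _⟩
  have w1 : ∀ i, w i ≤ ∑ i, w i := fun i => single_le_sum (fun i _ => hw i) (mem_univ i)
  have d1 : ∀ i, ∑ j, |k i - k j| ≤ ∑ i, ∑ j, |k i - k j| := fun i =>
    single_le_sum (f := fun i => ∑ j, |k i - k j|) (fun _ _ => by positivity) (mem_univ i)
  have d2 : |k i0 - k s| ≤ ∑ j, |k i0 - k j| :=
    single_le_sum (f := fun j => |k i0 - k j|) (fun _ _ => by positivity) (mem_univ s)
  have a1 : mu s + |l - k s| ≤ 2 * φ + 2 * w s + 2 * w i0 + 2 * (Dg * |k s - k i0|)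
      + 2 * ((Dg + 4) * |l - k i0|) := by
    have h1 : 0 ≤ Dg * |k s - k i0| := by positivity
    have h2 : 0 ≤ (Dg + 4) * |l - k i0| := by positivity
    have h3 := hw s
    rcases hm s with h | ⟨h4, h5, h6⟩
    · omega
    · rw [h5, sub_self, abs_zero, ← h5]
      rw [← h5] at h6
      omega
  have a2 : ∑ i ∈ univ.erase s, (mu i + |l - k i|)
      ≤ ∑ i ∈ univ.erase s, 2 * (V s i + |k s - k i|) := sum_le_sum fun i hi => by
    have h1 := hV s i (ne_of_mem_erase hi).symm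
    rcases hm i with h | ⟨h4, h5, -⟩
    · omega
    · have h2 := hV' i s (ne_of_mem_erase hi) h4 (hs i (mem_univ _))
      have h3 := abs_nonneg (k s - k i)
      rw [h5, sub_self, abs_zero]
      omega
  have a3 : ∑ i ∈ univ.erase s, (V s i + |k s - k i|)
      ≤ ∑ a, ∑ i ∈ univ.erase a, (V a i + |k a - k i|) :=
    single_le_sum (f := fun a => ∑ i ∈ univ.erase a, (V a i + |k a - k i|))
      (fun a _ => sum_nonneg fun i hi => hV a i (ne_of_mem_erase hi).symm) (mem_univ s)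
  have a4 : ∑ a, ∑ i ∈ univ.erase a, |k a - k i| ≤ ∑ a, ∑ i, |k a - k i| :=
    sum_le_sum fun a _ => sum_le_sum_of_subset_of_nonneg (erase_subset _ _)
      fun _ _ _ => by positivity
  have a5 : ∑ _i : J, |l - k i0| ≤ ∑ i, (|l - k i| + |k i0 - k i|) := sum_le_sum fun i _ => by
    rw [abs_sub_comm (k i0)]; exact abs_sub_le _ _ _
  have a6 := add_sum_erase univ (fun i => mu i + |l - k i|) (mem_univ s)
  have a7 : (2 * Dg + 9) * |l - k i0| ≤ Fintype.card J * |l - k i0| :=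
    mul_le_mul_of_nonneg_right (by exact_mod_cast hn) (abs_nonneg _)
  have a8 : Dg * |k s - k i0| ≤ Dg * ∑ i, ∑ j, |k i - k j| :=
    mul_le_mul_of_nonneg_left (by rw [abs_sub_comm]; exact d2.trans (d1 i0)) (by positivity)
  have a9 : 0 ≤ Dg * ∑ i, w i := mul_nonneg (by positivity) ((hw s).trans (w1 s))
  have b1 := w1 s
  have b2 := w1 i0
  have b3 := d1 i0
  have b4 : 0 ≤ ∑ i, ∑ j, |k i - k j| := by positivity
  rw [← mul_sum] at a2
  simp only [sum_add_distrib, sum_const, card_univ, nsmul_eq_mul] at a2 a3 a5 a6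
  linarith

section Local

variable {Q : Place K} {J : Type} {Dg : ℕ} {x : J → K} {y : K} (c : Crv Q J Dg)
  (ck : c.k = fun i => Q.v (x i)) (ct : c.t = fun i => Q.L (x i)) (cX : c.Xv = fun i => x i ^ 4)
  (hx : ∀ i, x i ≠ 0) (hy : y ≠ 0) (h0 : ∀ i, y ^ 2 + x i ^ 2 ≠ 0)
  (hs : ∀ i, IsSquare (y ^ 2 + x i ^ 2))
include ck ct hx hy h0 hs

lemma loc_root (hW : (derivative c.A * c.B - c.A * derivative c.B).eval (Q.L y) = 0) (i : J) :
    |Q.v y - Q.v (x i)| ≤ 2 * c.h i + 4 * c.w i - Q.mu y (x i) := by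
  have h1 := c.h_ge i
  rcases Q.mu_plus hy (hx i) (h0 i) (hs i) with h | ⟨h2, h3, -, h5⟩
  · omega
  · have h6 := c.root_le i hW (l := Q.mu y (x i) - 1) (by omega) (by rw [ct]; exact h5)
    rw [h3, sub_self, abs_zero]
    omega

include cX in
lemma loc_off [Fintype J] [DecidableEq J] (i0 : J) (hn : 2 * Dg + 9 ≤ Fintype.card J)
    (hF : c.A.eval (Q.L y) - y ^ 4 * c.B.eval (Q.L y) ≠ 0) :
    |Q.v y - Q.v (x i0)| ≤ 2 * (Q.v (c.A.eval (Q.L y) - y ^ 4 * c.B.eval (Q.L y))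
        - Q.v (c.A.eval (c.t i0))) - ∑ i, Q.mu y (x i) + 2 * ∑ i, ∑ j ∈ univ.erase i, c.V i j
      + (2 * Dg + 4) * (∑ i, ∑ j, |Q.v (x i) - Q.v (x j)| + ∑ i, c.w i) := by
  refine off_arith (k := fun i => Q.v (x i)) i0 hn c.w_nonneg (fun i => ?_) (fun i j hij => ?_)
    (fun i j hij h1 h2 => ?_) ?_
  · refine (Q.mu_plus hy (hx i) (h0 i) (hs i)).imp_right fun ⟨h2, h3, h4, h5⟩ => ⟨h2, h3, ?_⟩
    have h6 := (c.off_near i (l := Q.mu y (x i) - 1) (by omega) (by rw [ct]; exact h5)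
      (Y := y ^ 4) (by rw [cX, ck]; exact h4.mono (by simp))).le hF
    have h7 := c.v_A_le i i0
    simp only [ck] at h7
    omega
  · have h1 := c.t_inj.ne hij
    simp only [Crv.V, ct] at h1 ⊢
    by_cases h : Q.v (x i) = Q.v (x j)
    · exact add_nonneg ((Q.L_sub_ge (hx i) (hx j) h).le (sub_ne_zero.2 h1)) (abs_nonneg _)
    · have := abs_pos.2 (sub_ne_zero.2 h)
      rw [Q.v_L_sub (hx i) (hx j) h]
      omega
  · have h3 := c.t_inj.ne hij.symm
    simp only [Crv.V, ct] at h3 ⊢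
    have key : ∀ a, 2 ≤ Q.mu y (x a) → Q.Ge (Q.L y - Q.L (x a)) (Q.mu y (x a) - 1) := fun a ha => by
      rcases Q.mu_plus hy (hx a) (h0 a) (hs a) with h | h
      · have := abs_nonneg (Q.v y - Q.v (x a))
        omega
      · exact h.2.2.2
    have h4 := (key i h1).sub ((key j (by omega)).mono (by omega))
    rw [sub_sub_sub_cancel_left] at h4
    exact h4.le (sub_ne_zero.2 h3)
  · have h6 := (c.off_far i0 (Q.ge_L hy) (Y := y ^ 4)
      (Or.inr (by simpa using (Q.v_pow hy 4).ge))).le hF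
    simp only [ck] at h6
    omega

end Local

lemma abs_le_sums {J : Type} [Fintype J] (k : J → ℤ) (a b : J) :
    |k a - k b| ≤ ∑ i, ∑ j, |k i - k j| :=
  (single_le_sum (f := fun j => |k a - k j|) (fun _ _ => abs_nonneg _) (mem_univ b)).trans
    (single_le_sum (f := fun i => ∑ j, |k i - k j|) (fun _ _ => by positivity) (mem_univ a))

theorem lin_near (Dg : ℕ) : ∃ n2 C : ℕ, ∀ (K : Type) [Field K] [CharZero K] (G : Glob K) (I : Type)
    (x : I → K), Brick x → (Function.Injective fun i => G.L (x i)) →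
    ∀ (S : Finset I) (A B : K[X]), IsCoprime A B → A.natDegree ≤ Dg → B.natDegree ≤ Dg →
    (A.natDegree ≠ 0 ∨ B.natDegree ≠ 0) → n2 ≤ #S →
    (∀ i ∈ S, A.eval (G.L (x i)) = x i ^ 4 * B.eval (G.L (x i)) ∧ B.eval (G.L (x i)) ≠ 0 ∧
      (derivative A * B - A * derivative B).eval (G.L (x i)) ≠ 0) →
    ∀ i j, G.dist (x i) (x j) ≤ C * max G.gam 0 := by
  obtain ⟨n1, hcore⟩ := lin_core Dg
  obtain ⟨n, hn⟩ : ∃ n, n = n1 + 2 * Dg + 9 := ⟨_, rfl⟩
  refine ⟨n, 2 * ((4 * Dg + 10) * (n + 1) ^ 4),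
    fun K _ _ G I x hx hL S0 A B hc hA hB hp hS h => ?_⟩
  classical
  obtain ⟨S, hS0, hSn⟩ := exists_subset_card_eq hS
  obtain ⟨i0, hi0⟩ : S.Nonempty := card_pos.1 (by omega)
  have hcard : Fintype.card S = n := by rw [Fintype.card_coe, hSn]
  have hLS : Function.Injective fun i : S => G.L (x i) := hL.comp Subtype.val_injective
  obtain ⟨hg, c, hcs, hsm⟩ := hcore K G S (fun i => x i) (hx.comp Subtype.val_injective)
    hLS A B hc hA hB hp (by omega) fun i => h i (hS0 i.2)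
  rw [max_eq_left hg]
  rw [hcard] at hsm
  have hn0 : (0 : ℝ) ≤ n := by positivity
  have hD : (0 : ℝ) ≤ Dg := by positivity
  suffices key : ∀ j, G.dist (x j) (x i0) ≤ (4 * Dg + 10) * (n + 1) ^ 4 * G.gam by
    intro i j
    have h1 := G.dist_triangle (hx.ne i) (hx.ne i0) (hx.ne j)
    rw [G.dist_comm (x i0)] at h1
    have h2 := key i
    have h3 := key j
    push_cast
    linarith
  intro j
  have hpow : (n : ℝ) ^ 4 ≤ (n + 1) ^ 4 := by gcongr; linarith
  have hA0 : A.eval (G.L (x i0)) ≠ 0 :=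
    (h i0 (hS0 hi0)).1 ▸ mul_ne_zero (pow_ne_zero _ (hx.ne i0)) (h i0 (hS0 hi0)).2.1
  by_cases hF : A.eval (G.L (x j)) - x j ^ 4 * B.eval (G.L (x j)) = 0
  · by_cases hW : (derivative A * B - A * derivative B).eval (G.L (x j)) = 0
    · have hj : ∀ i : S, j ≠ i := fun i e => (h i (hS0 i.2)).2.2 (e ▸ hW)
      have hb := (((((G.bal_v (h i0 (hS0 hi0)).2.2).sub G.bal_g).sub (G.bal_v hA0)).sub
        (G.bal_v (h i0 (hS0 hi0)).2.1)).smul 2).sub (hx.bal_mu G j i0)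
      refine (Glob.dist_le (hb.sm.add (hsm.smul (c := 4) (by norm_num))) fun p => ?_).trans ?_
      · obtain ⟨ck, ct, cX, cA, cB⟩ := hcs p
        have hg := G.g_ne p
        have h1 := loc_root (c p) ck ct (fun i => hx.ne i) (hx.ne j) (fun i => hx.add_ne j i)
          (fun i => hx.sq j i (hj i)) (by rw [cA, cB, G.L_eq, sc_W hg, hW, mul_zero]) ⟨i0, hi0⟩
        have h2 : (c p).w ⟨i0, hi0⟩ ≤ ∑ i, (c p).w i :=
          single_le_sum (fun i _ => (c p).w_nonneg i) (mem_univ _)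
        have h3 : 0 ≤ ∑ a : S, ∑ b : S, |(G.pl p).v (x a) - (G.pl p).v (x b)| := by positivity
        simp only [Crv.h, ct, cA, cB, G.L_eq] at h1
        rw [sc_eval hg, sc_eval hg, sc_W hg, Place.v_mul _ _ _ (inv_ne_zero hg)
          (h i0 (hS0 hi0)).2.2, Place.v_inv _ hg] at h1
        exact_mod_cast (by omega)
      · nlinarith [mul_nonneg (sub_nonneg.2 hpow) hg, mul_nonneg (mul_nonneg hD (pow_nonneg
          (by linarith : (0 : ℝ) ≤ n + 1) 4)) hg, mul_nonneg (pow_nonneg hn0 4) hg]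
    · have hB0 : B.eval (G.L (x j)) ≠ 0 := fun e => hW (by
        rw [e, mul_zero, sub_zero] at hF
        simp [e, hF])
      obtain ⟨T, t1, t2, t3, t4, t5⟩ : ∃ T : Finset I, j ∈ T ∧ i0 ∈ T ∧ n1 ≤ #T ∧ #T ≤ n + 1 ∧
          ∀ i ∈ T, i = j ∨ i ∈ S :=
        ⟨insert j S, mem_insert_self _ _, mem_insert_of_mem hi0,
          le_trans (by omega) (card_le_card (subset_insert j S)), hSn ▸ card_insert_le j S,
          fun i => mem_insert.1⟩
      obtain ⟨-, c', -, hsm'⟩ := hcore K G T (fun i => x i)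
        (hx.comp Subtype.val_injective) (hL.comp Subtype.val_injective) A B hc hA hB hp
        (by rwa [Fintype.card_coe]) fun i => by
          rcases t5 i i.2 with e | e
          · rw [e]; exact ⟨sub_eq_zero.1 hF, hB0, hW⟩
          · exact h i (hS0 e)
      refine (Glob.dist_le hsm' fun p => ?_).trans ?_
      · exact Int.cast_le.2 (le_add_of_le_of_nonneg
          (abs_le_sums (fun i : T => (G.pl p).v (x i)) ⟨j, t1⟩ ⟨i0, t2⟩)
          (sum_nonneg fun i _ => (c' p).w_nonneg i))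
      · have h1 : (#T : ℝ) ≤ n + 1 := by exact_mod_cast t4
        rw [Fintype.card_coe]
        gcongr
        linarith
  · have hj : ∀ i : S, j ≠ i := fun i e => hF (e ▸ sub_eq_zero.2 (h i (hS0 i.2)).1)
    have b1 := Glob.Bal.sum (univ : Finset S) fun a _ => Glob.Bal.sum (univ.erase a) fun b hb =>
      G.bal_g.add (G.bal_v (sub_ne_zero.2 (hLS.ne (ne_of_mem_erase hb).symm)))
    have hb := ((((G.bal_v hF).sub (G.bal_v hA0)).smul 2).sub
      (Glob.Bal.sum (univ : Finset S) fun a _ => hx.bal_mu G j a)).add (b1.smul 2)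
    refine (Glob.dist_le (hb.sm.add (hsm.smul (c := 2 * Dg + 4) (by positivity)))
      fun p => ?_).trans ?_
    · obtain ⟨ck, ct, cX, cA, cB⟩ := hcs p
      have hg := G.g_ne p
      have h1 := loc_off (c p) ck ct cX (fun i => hx.ne i) (hx.ne j) (fun i => hx.add_ne j i)
        (fun i => hx.sq j i (hj i)) ⟨i0, hi0⟩ (by omega)
        (by rwa [cA, cB, G.L_eq, sc_eval hg, sc_eval hg])
      have k1 : ∑ a : S, ∑ b ∈ univ.erase a, (c p).V a b = ∑ a : S, ∑ b ∈ univ.erase a,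
          ((G.pl p).v (G.g p) + (G.pl p).v (G.L (x a) - G.L (x b))) :=
        sum_congr rfl fun a _ => sum_congr rfl fun b hb => by
          simp only [Crv.V, ct, G.L_eq]
          rw [← mul_sub, Place.v_mul _ _ _ hg (sub_ne_zero.2 (hLS.ne (ne_of_mem_erase hb).symm))]
      rw [k1] at h1
      simp only [ct, cA, cB, G.L_eq, sc_eval hg] at h1
      exact_mod_cast h1
    · have h1 : ∑ a : S, ∑ _b ∈ univ.erase a, ((1 : ℝ) + 0) ≤ n * n := by
        refine (sum_le_sum fun a _ => sum_le_sum_of_subset_of_nonneg (erase_subset a univ)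
          fun _ _ _ => by norm_num).trans ?_
        simp [hSn]
      have h2 : (n : ℝ) * n ≤ (n + 1) ^ 4 := by nlinarith [pow_nonneg hn0 3, pow_nonneg hn0 4]
      simp only [sum_const_zero]
      nlinarith [mul_nonneg (sub_nonneg.2 hpow) hg, mul_nonneg (mul_nonneg hD
        (sub_nonneg.2 hpow)) hg, mul_nonneg (sub_nonneg.2 (h1.trans h2)) hg]

theorem near_inj : ∃ n0 C : ℕ, ∀ (K : Type) [Field K] [CharZero K] (G : Glob K) (I : Type)
    [Fintype I] (x : I → K), Brick x → (Function.Injective fun i => G.L (x i)) →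
    n0 ≤ Fintype.card I → ∀ i j, G.dist (x i) (x j) ≤ C * max G.gam 0 := by
  obtain ⟨N, hN⟩ : ∃ N : ℕ, 4000 ≤ N := ⟨_, le_rfl⟩
  obtain ⟨n2, C, h⟩ := lin_near (2 * N)
  refine ⟨2 * (n2 + 3 * (2 * N) + 2) + N + 3, C + 3 * (360 * N ^ 3),
    fun K _ _ G I _ x hx hL hn i j => ?_⟩
  have m0 : 0 ≤ max G.gam 0 := le_max_right _ _
  by_contra hcon
  obtain ⟨r0, h0, hr⟩ := two (N := N) (by omega) _ _ hL hx.inj hn fun S f0 f1 d0 d1 hS hf =>
    lin_red _ _ hL hx.inj (fun S A B hc hA hB hp hS hf => hcon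
      ((h K G I x hx hL S A B hc hA hB hp hS hf i j).trans
        (mul_le_mul_of_nonneg_right (by exact_mod_cast Nat.le_add_right _ _) m0))) S f0 f1 d0 d1 hS hf
  obtain ⟨r, g1, ⟨a, rfl⟩, b, b0, e1⟩ := hr i
  obtain ⟨r', g2, ⟨a', rfl⟩, b', b0', e2⟩ := hr j
  have t1 := strip hx G hN g1 a b
  have t2 := strip hx G hN h0 b0 b0'
  have t3 := strip hx G hN g2 b' a'
  have t4 := G.dist_triangle (hx.ne (r a).1) (hx.ne (r b).1) (hx.ne (r' a').1)
  have t5 := G.dist_triangle (hx.ne (r b).1) (hx.ne (r' b').1) (hx.ne (r' a').1)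
  rw [← e1, ← e2] at t2
  have t6 : (0 : ℝ) ≤ C * max G.gam 0 := by positivity
  refine hcon ?_
  push_cast
  linarith

theorem near : ∃ n0 C : ℕ, ∀ (K : Type) [Field K] [CharZero K] (G : Glob K) (I : Type)
    [Fintype I] (x : I → K), Brick x → n0 ≤ Fintype.card I →
    ∀ i j, G.dist (x i) (x j) ≤ C * max G.gam 0 := by
  obtain ⟨n0, C, h⟩ := near_inj
  refine ⟨2 * n0, C + 4, fun K _ _ G I _ x hx hn i j => ?_⟩
  classical
  have m0 : 0 ≤ max G.gam 0 := le_max_right _ _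
  have t6 : (0 : ℝ) ≤ C * max G.gam 0 := by positivity
  push_cast
  by_cases h3 : ∀ s ∈ univ.image fun i => G.L (x i), #{i | G.L (x i) = s} ≤ 2
  · have h4 := card_le_mul_card_image univ 2 h3
    obtain ⟨T, hT⟩ : ∃ T, T = univ.image fun i => G.L (x i) := ⟨_, rfl⟩
    rw [← hT, card_univ] at h4
    have h5 : ∀ s : T, ∃ i, G.L (x i) = s := fun s => by
      obtain ⟨i, -, e⟩ := mem_image.1 (hT.subset s.2)
      exact ⟨i, e⟩
    choose f hf using h5
    have h6 : Function.Injective fun s => G.L (x (f s)) := fun s s' e =>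
      Subtype.ext (by simpa only [hf] using e)
    have h7 : ∀ i, G.L (x i) ∈ T := fun i => hT.superset (mem_image_of_mem _ (mem_univ i))
    have t1 := h K G T (fun s => x (f s)) (hx.comp fun s s' e => h6 (by simp only [e])) h6
      (by rw [Fintype.card_coe]; omega) ⟨_, h7 i⟩ ⟨_, h7 j⟩
    have t2 := dist_of_L G (hx.ne i) (hx.ne _) (hf ⟨_, h7 i⟩).symm
    have t3 := dist_of_L G (hx.ne _) (hx.ne j) (hf ⟨_, h7 j⟩)
    have t4 := G.dist_triangle (hx.ne i) (hx.ne (f ⟨_, h7 i⟩)) (hx.ne j)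
    have t5 := G.dist_triangle (hx.ne (f ⟨_, h7 i⟩)) (hx.ne (f ⟨_, h7 j⟩)) (hx.ne j)
    linarith
  · push Not at h3
    obtain ⟨s, -, hs⟩ := h3
    obtain ⟨a, ha, b, hb, c, hc, h1, h2, h3⟩ := two_lt_card.1 hs
    rw [mem_filter] at ha hb hc
    have t1 := quart G hx h1 h2 h3 (ha.2.trans hb.2.symm) (ha.2.trans hc.2.symm)
    have t2 := t1 i
    have t3 := t1 j
    have t4 := G.dist_triangle (hx.ne i) (hx.ne a) (hx.ne j)
    rw [G.dist_comm (x a)] at t4
    linarith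

end Pool.Agent.Lib.MP_44626f_nt.FF
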