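import Pool.Agent.Lib.MP_44626f_nt.FF.Bal

/-!
Two edges at one place: levels, collisions of fourth powers and of logarithmic derivatives.
-/

noncomputable section

namespace Pool.Agent.Lib.MP_44626f_nt.FF

namespace Place

variable {K : Type} [Field K] [CharZero K] (Q : Place K) {a b : K}

/-- normalised valuation of a face sum -/
def mu (a b : K) : ℤ := Q.v (a ^ 2 + b ^ 2) - Q.v a - Q.v b

omit [CharZero K] in
lemma mu_comm (a b : K) : Q.mu a b = Q.mu b a := by simp only [mu, add_comm]; ring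

omit [CharZero K] in
lemma v_two : Q.v 2 = 0 := by simpa using Q.v_nat 2 two_ne_zero

omit [CharZero K] in
lemma near (ha : a ≠ 0) (hb : b ≠ 0) {l : ℤ} (hl : 1 ≤ l)
    (h : Q.Ge (a ^ 4 - b ^ 4) (4 * Q.v b + l)) :
    Q.Ge (4 * Q.pi * (Q.L a - Q.L b) * b ^ 4 - l * (a ^ 4 - b ^ 4)) (4 * Q.v b + l + 1) := by
  have hb4 := pow_ne_zero 4 hb
  have hv : Q.v (b ^ 4) = 4 * Q.v b := by simpa using Q.v_pow hb 4
  have h1 : Q.Ge (a ^ 4 / b ^ 4 - 1) l := by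
    rw [div_sub_one hb4]; exact (h.div hb4).mono (by omega)
  have h2 := (h1.near_one hl).mul (Q.ge_self (b ^ 4))
  rw [Q.L_div (pow_ne_zero 4 ha) hb4, Q.L_pow ha, Q.L_pow hb] at h2
  have e : 4 * Q.pi * (Q.L a - Q.L b) * b ^ 4 - l * (a ^ 4 - b ^ 4)
      = (Q.pi * ((4 : ℕ) * Q.L a - (4 : ℕ) * Q.L b) - l * (a ^ 4 / b ^ 4 - 1)) * b ^ 4 := by
    push_cast; field_simp
  rw [e]; exact h2.mono (by omega)

lemma v_four_pi (hb : b ≠ 0) : 4 * Q.pi * b ^ 4 ≠ 0 ∧ Q.v (4 * Q.pi * b ^ 4) = 4 * Q.v b + 1 := by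
  have hp := Q.pi_ne
  have h4 : Q.v 4 = 0 := by simpa using Q.v_nat 4 (by norm_num)
  refine ⟨by simp [hp, hb], ?_⟩
  rw [Q.v_mul _ _ (by simp [hp]) (pow_ne_zero 4 hb), Q.v_mul _ _ (by norm_num) hp, Q.v_pow hb, h4,
    Q.v_pi]
  push_cast; ring

lemma near_ge (ha : a ≠ 0) (hb : b ≠ 0) {l : ℤ} (hl : 1 ≤ l)
    (h : Q.Ge (a ^ 4 - b ^ 4) (4 * Q.v b + l)) : Q.Ge (Q.L a - Q.L b) (l - 1) := by
  obtain ⟨h1, h2⟩ := Q.v_four_pi hb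
  have h3 := (((Q.near ha hb hl h).mono (m := 4 * Q.v b + l) (by omega)).add
    ((Q.ge_int l).mul' h (by omega))).div h1
  have e : Q.L a - Q.L b = (4 * Q.pi * (Q.L a - Q.L b) * b ^ 4 - l * (a ^ 4 - b ^ 4)
      + l * (a ^ 4 - b ^ 4)) / (4 * Q.pi * b ^ 4) := by
    rw [eq_div_iff h1]; ring
  rw [e]; exact h3.mono (by omega)

lemma near_v (ha : a ≠ 0) (hb : b ≠ 0) (hne : a ^ 4 - b ^ 4 ≠ 0)
    (hl : 4 * Q.v b + 1 ≤ Q.v (a ^ 4 - b ^ 4)) :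
    Q.v (Q.L a - Q.L b) = Q.v (a ^ 4 - b ^ 4) - 4 * Q.v b - 1 := by
  obtain ⟨h1, h2⟩ := Q.v_four_pi hb
  obtain ⟨l, hl'⟩ : ∃ l, l = Q.v (a ^ 4 - b ^ 4) - 4 * Q.v b := ⟨_, rfl⟩
  have h3 := Q.near ha hb (l := l) (by omega) (Or.inr (by omega))
  have h0 : (l : K) ≠ 0 := Int.cast_ne_zero.2 (by omega)
  have h4 : Q.v (l * (a ^ 4 - b ^ 4)) = Q.v (a ^ 4 - b ^ 4) := by
    rw [Q.v_mul _ _ h0 hne, Q.v_int (by omega), zero_add]
  obtain ⟨h5, h6⟩ := v_add_eq (mul_ne_zero h0 hne) (h3.mono (by omega))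
  have e : l * (a ^ 4 - b ^ 4) + (4 * Q.pi * (Q.L a - Q.L b) * b ^ 4 - l * (a ^ 4 - b ^ 4))
      = (Q.L a - Q.L b) * (4 * Q.pi * b ^ 4) := by ring
  rw [e] at h5 h6
  rw [Q.v_mul _ _ (left_ne_zero_of_mul h5) h1] at h6
  omega

omit [CharZero K] in
lemma mu_of_lt (ha : a ≠ 0) (hb : b ≠ 0) (h : Q.v a < Q.v b) : Q.mu a b = Q.v a - Q.v b := by
  have h1 := (v_add_eq (Q := Q) (pow_ne_zero 2 ha) (g := b ^ 2)
    (Or.inr (by rw [Q.v_pow ha, Q.v_pow hb]; omega))).2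
  rw [mu, h1, Q.v_pow ha]; omega

omit [CharZero K] in
lemma mu_of_ne (ha : a ≠ 0) (hb : b ≠ 0) (h : Q.v a ≠ Q.v b) : Q.mu a b = -|Q.v a - Q.v b| := by
  rcases h.lt_or_gt with h | h
  · rw [Q.mu_of_lt ha hb h, abs_of_neg (by omega)]; ring
  · rw [Q.mu_comm, Q.mu_of_lt hb ha h, abs_of_pos (by omega)]; ring

omit [CharZero K] in
lemma mu_nonneg (h0 : a ^ 2 + b ^ 2 ≠ 0) (h : Q.v a = Q.v b) : 0 ≤ Q.mu a b := by
  have := (((Q.ge_self a).pow 2).add (h ▸ (Q.ge_self b).pow 2)).le h0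
  rw [mu]; omega

lemma mu_pos (hb : b ≠ 0) (h0 : a ^ 2 + b ^ 2 ≠ 0) (h : Q.v a = Q.v b) (hp : 0 < Q.mu a b) :
    a ^ 4 - b ^ 4 ≠ 0 ∧ Q.v (a ^ 4 - b ^ 4) = 4 * Q.v b + Q.mu a b := by
  have h1 : -(2 * b ^ 2) ≠ 0 := by simp [hb]
  have h2 : Q.v (-(2 * b ^ 2)) = 2 * Q.v b := by
    rw [Q.v_neg, Q.v_mul _ _ two_ne_zero (pow_ne_zero 2 hb), Q.v_two, Q.v_pow hb]; simp
  rw [mu] at hp ⊢
  obtain ⟨h3, h4⟩ := v_add_eq (Q := Q) h1 (g := a ^ 2 + b ^ 2) (Or.inr (by omega))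
  have e : a ^ 4 - b ^ 4 = (-(2 * b ^ 2) + (a ^ 2 + b ^ 2)) * (a ^ 2 + b ^ 2) := by ring
  rw [e, Q.v_mul _ _ h3 h0]
  exact ⟨mul_ne_zero h3 h0, by omega⟩

omit [CharZero K] in
lemma mu_even (h0 : a ^ 2 + b ^ 2 ≠ 0) (hs : IsSquare (a ^ 2 + b ^ 2)) (h : Q.v a = Q.v b) :
    Even (Q.mu a b) := by
  obtain ⟨z, hz⟩ := hs
  have hz0 : z ≠ 0 := fun h => h0 (by simp [hz, h])
  exact ⟨Q.v z - Q.v b, by rw [mu, hz, Q.v_mul _ _ hz0 hz0]; omega⟩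

omit [CharZero K] in
lemma L_sub_ge (ha : a ≠ 0) (hb : b ≠ 0) (h : Q.v a = Q.v b) : Q.Ge (Q.L a - Q.L b) 0 := by
  have := (Q.ge_L ha).sub (Q.ge_L hb)
  rwa [h, sub_sub_sub_cancel_right] at this

lemma v_L_sub (ha : a ≠ 0) (hb : b ≠ 0) (h : Q.v a ≠ Q.v b) : Q.v (Q.L a - Q.L b) = -1 := by
  have h0 : ((Q.v a - Q.v b : ℤ) : K) ≠ 0 := Int.cast_ne_zero.2 (by omega)
  have h1 : Q.v (((Q.v a - Q.v b : ℤ) : K) / Q.pi) = -1 := by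
    rw [Q.v_div h0 Q.pi_ne, Q.v_int (by omega), Q.v_pi]; simp
  have h2 := (v_add_eq (div_ne_zero h0 Q.pi_ne)
    (((Q.ge_L ha).sub (Q.ge_L hb)).mono (by omega))).2
  rw [h1] at h2
  rw [← h2]; congr 1; push_cast; ring

/-- signs: two edges whose face sum has extra vanishing get opposite signs -/
lemma exists_sg {I : Type} (x : I → K) (hx : ∀ i, x i ≠ 0) (h0 : ∀ i j, x i ^ 2 + x j ^ 2 ≠ 0) :
    ∃ sg : I → Bool, ∀ i j, Q.v (x i) = Q.v (x j) → 0 < Q.mu (x i) (x j) → sg i ≠ sg j := by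
  classical
  let R : I → I → Prop := fun i l =>
    Q.v (x l) = Q.v (x i) ∧ Q.Ge (x i ^ 4 - x l ^ 4) (4 * Q.v (x i) + 1)
  let rep : I → I := fun i => haveI : Nonempty I := ⟨i⟩; Classical.epsilon (R i)
  have hrep : ∀ i, R i (rep i) := fun i =>
    haveI : Nonempty I := ⟨i⟩
    Classical.epsilon_spec (p := R i) ⟨i, rfl, by simpa using Q.ge_zero _⟩
  refine ⟨fun i => decide (Q.Ge (x i ^ 2 - x (rep i) ^ 2) (2 * Q.v (x i) + 1)), ?_⟩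
  intro i j hv hp heq
  obtain ⟨h1, h2⟩ := Q.mu_pos (hx j) (h0 i j) hv hp
  have h3 : Q.Ge (x i ^ 4 - x j ^ 4) (4 * Q.v (x i) + 1) := Or.inr (by omega)
  have hR : R i = R j := by
    ext l
    simp only [R, ← hv]
    refine and_congr_right fun _ => ⟨fun h => ?_, fun h => ?_⟩
    · simpa using h.sub h3
    · simpa using h3.add h
  have hc : rep j = rep i := by simp only [rep, hR]
  have hi := hrep i
  have hj := hrep j
  simp only [decide_eq_decide, hc, ← hv, R] at heq hi hj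
  generalize rep i = c at *
  have h4 : Q.Ge (x i ^ 2 + x j ^ 2) (2 * Q.v (x i) + 1) := Or.inr (by rw [mu] at hp; omega)
  have h5 : ¬ Q.Ge (2 * x c ^ 2) (2 * Q.v (x i) + 1) := fun h => by
    have := h.le (by simp [hx c])
    rw [Q.v_mul _ _ two_ne_zero (pow_ne_zero 2 (hx c)), Q.v_two, Q.v_pow (hx c)] at this
    omega
  have h6 : ∀ l, Q.Ge (x l ^ 4 - x c ^ 4) (4 * Q.v (x i) + 1) →
      ¬ Q.Ge (x l ^ 2 - x c ^ 2) (2 * Q.v (x i) + 1) →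
      Q.Ge (x l ^ 2 + x c ^ 2) (2 * Q.v (x i) + 1) := fun l h h' => by
    have hn : x l ^ 2 - x c ^ 2 ≠ 0 := fun e => h' (Or.inl e)
    have hl : ¬ 2 * Q.v (x i) + 1 ≤ Q.v (x l ^ 2 - x c ^ 2) := fun e => h' (Or.inr e)
    have e : x l ^ 2 + x c ^ 2 = (x l ^ 4 - x c ^ 4) / (x l ^ 2 - x c ^ 2) := by
      rw [eq_div_iff hn]; ring
    rw [e]; exact (h.div hn).mono (by omega)
  by_cases hs : Q.Ge (x i ^ 2 - x c ^ 2) (2 * Q.v (x i) + 1)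
  · refine h5 ?_
    convert (h4.sub hs).sub (heq.1 hs) using 1; ring
  · refine h5 ?_
    convert ((h6 i hi.2 hs).add (h6 j hj.2 fun h => hs (heq.2 h))).sub h4 using 1; ring

end Place

end Pool.Agent.Lib.MP_44626f_nt.FF
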