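import Pool.Agent.Lib.MP_44626f_nt.FF.Mod
import Pool.Agent.Lib.MP_44626f_nt.FF.Gain
import Pool.Agent.Lib.MP_44626f_nt.FF.Pts

/-!
One step down the tree of clusters of points on one level.
-/

open Polynomial Finset

noncomputable section

namespace Pool.Agent.Lib.MP_44626f_nt.FF

variable {K : Type} [Field K] {I : Type}

/-- units with even face sums on a set of points -/
structure Lev (Q : Place K) (I : Type) where
  u : I → K
  S : Set I
  sg : I → Bool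
  ne : ∀ i, u i ≠ 0
  v0 : ∀ i, Q.v (u i) = 0
  add_ne : ∀ i ∈ S, ∀ j ∈ S, u i ^ 2 + u j ^ 2 ≠ 0
  even : ∀ i ∈ S, ∀ j ∈ S, Even (Q.mu (u i) (u j))
  sgn : ∀ i ∈ S, ∀ j ∈ S, 0 < Q.mu (u i) (u j) → sg i ≠ sg j

/-- admissible families of rows -/
structure Adm (N : ℕ) (S : Set I) {ι : Type} [Fintype ι] (r : ι → I × Bool) : Prop where
  inj : Function.Injective r
  cl : ∀ ρ, ∃ ρ', r ρ' = ((r ρ).1, false)
  der : #{ρ | (r ρ).2 = true} ≤ N
  card : Fintype.card ι ≤ 3 * N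
  mem : ∀ ρ, (r ρ).1 ∈ S

variable {ι : Type} [Fintype ι] {r : ι → I × Bool} {N : ℕ}

lemma Adm.sub {S S' : Set I} (h : Adm N S r) (p : I → Prop) [DecidablePred p]
    (hp : ∀ ρ, p (r ρ).1 → (r ρ).1 ∈ S') : Adm N S' fun ρ : {ρ // p (r ρ).1} => r ρ where
  inj := h.inj.comp Subtype.val_injective
  cl ρ := by
    obtain ⟨ρ', e⟩ := h.cl ρ
    exact ⟨⟨ρ', by rw [e]; exact ρ.2⟩, e⟩
  der := (card_le_card_of_injOn Subtype.val (fun ρ hρ => by simpa using hρ)
    Subtype.val_injective.injOn).trans h.der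
  card := (Fintype.card_subtype_le _).trans h.card
  mem ρ := hp _ ρ.2

lemma Adm.cnt {S : Set I} (h : Adm N S r) (hN : 4000 ≤ N) (sg : I → Bool) {a b : ι}
    (hab : (r a).1 ≠ (r b).1) :
    Cnt N (Fintype.card ι) #{ρ | (r ρ).2 = true}
      (#{ρ | sg (r ρ).1 = true} * #{ρ | ¬ sg (r ρ).1 = true}) := by
  classical
  choose f hf using h.cl
  have h1 := card_filter_add_card_filter_not (s := univ) fun ρ => (r ρ).2 = true
  have h2 := card_filter_add_card_filter_not (s := univ) fun ρ => sg (r ρ).1 = true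
  rw [card_univ] at h1 h2
  have h3 : #{ρ | (r ρ).2 = true} ≤ #{ρ | ¬ (r ρ).2 = true} :=
    card_le_card_of_injOn f (fun ρ _ => by simp [hf]) fun ρ hρ ρ' hρ' e => by
      have e1 := hf ρ
      rw [e, hf ρ'] at e1
      simp only [coe_filter, mem_univ, true_and, Set.mem_ofPred_eq] at hρ hρ'
      exact h.inj (Prod.ext (Prod.mk.inj e1).1.symm (hρ.trans hρ'.symm))
  have h4 : 1 < #{ρ | ¬ (r ρ).2 = true} :=
    one_lt_card.2 ⟨f a, by simp [hf], f b, by simp [hf], fun e => hab (by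
      have e1 := hf a
      rw [e, hf b] at e1
      exact (Prod.mk.inj e1).1.symm)⟩
  refine ⟨hN, h.card, h.der, by omega, by omega, ?_⟩
  rw [← h2]
  zify
  nlinarith [sq_nonneg ((#{ρ | sg (r ρ).1 = true} : ℤ) - #{ρ | ¬ sg (r ρ).1 = true})]

lemma dsum_block {γ : Type} [DecidableEq γ] (β : ι → γ) (f : ι → ι → ℝ)
    (hf : ∀ ρ ρ', β ρ ≠ β ρ' → f ρ ρ' ≤ 0) :
    ∑ ρ, ∑ ρ', f ρ ρ' ≤ ∑ α ∈ univ.image β,
      ∑ ρ : {ρ // β ρ = α}, ∑ ρ' : {ρ // β ρ = α}, f ρ ρ' := by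
  rw [← sum_fiberwise_of_maps_to (g := β) (t := univ.image β) (by simp)]
  refine sum_le_sum fun α _ => ?_
  rw [sum_subtype (p := fun ρ => β ρ = α) _ (by simp)]
  refine sum_le_sum fun ρ _ => ?_
  rw [← sum_subtype (p := fun ρ => β ρ = α) {ρ | β ρ = α} (by simp),
    ← sum_filter_add_sum_filter_not univ fun ρ => β ρ = α]
  refine add_le_of_nonpos_right (sum_nonpos fun ρ' h => hf _ _ fun e => ?_)
  exact (mem_filter.1 h).2 (e ▸ ρ.2)

lemma sum_sg (sg : ι → Bool) : ∑ ρ, ∑ ρ', (if sg ρ ≠ sg ρ' then (2 : ℝ) else 0)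
    = 4 * ((#{ρ | sg ρ = true} * #{ρ | ¬ sg ρ = true} : ℕ) : ℝ) := by
  have h : ∀ ρ, ∑ ρ', (if sg ρ ≠ sg ρ' then (2 : ℝ) else 0)
      = if sg ρ = true then 2 * (#{ρ | ¬ sg ρ = true} : ℝ) else 2 * #{ρ | sg ρ = true} := by
    intro ρ
    rw [← sum_filter, sum_const, nsmul_eq_mul, mul_comm]
    cases sg ρ
    · simp
    · simp only [if_true]
      congr 3
      ext a
      cases sg a <;> simp
  simp only [h, sum_ite, sum_const, nsmul_eq_mul]
  push_cast; ring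

namespace Lev

variable {Q : Place K} (U : Lev Q I)

/-- the amount of collision that is left below depth `s` -/
def T (s : ℕ) (r : ι → I × Bool) : ℝ :=
  ∑ ρ, ∑ ρ', ((max (Q.mu (U.u (r ρ).1) (U.u (r ρ').1) - 2 * s) 0 : ℤ) : ℝ)

/-- fourth powers agree to order `l` -/
def rel (l : ℤ) (i j : I) : Prop := Q.Ge (U.u i ^ 4 - U.u j ^ 4) l

lemma rel_iff (l : ℤ) (i j : I) : U.rel l i = U.rel l j ↔ U.rel l i j := by
  refine ⟨fun h => h ▸ (by simpa [rel] using Q.ge_zero l : U.rel l j j), fun h => ?_⟩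
  ext c
  exact ⟨fun h' => by simpa [rel] using h'.sub h, fun h' => by simpa [rel] using h.add h'⟩

theorem step [CharZero K] [DecidableEq ι] (hN : 4000 ≤ N) (s : ℕ) {σ : ℤ} {A B : Alg K I}
    (hr : Adm N U.S r) (hint : ∀ ρ, DInt Q σ (A (r ρ).1) ∧ DInt Q σ (B (r ρ).1))
    (h : ∀ (ι' : Type) [Fintype ι'] [DecidableEq ι'] (r' : ι' → I × Bool) (i : I) (p : ℕ),
      Adm N U.S r' → DInt Q σ (A i) → DInt Q σ (B i) → (∀ ρ, U.rel (2 * s + 2) (r' ρ).1 i) →
      Cnt N (Fintype.card ι') #{ρ | (r' ρ).2 = true} p →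
      Cl Q σ A B r' ((2 * N + 7) / (12 * N) * U.T (s + 1) r' + (2 * N + 7) / (3 * N) * p)) :
    Cl Q σ A B r ((2 * N + 7) / (12 * N) * U.T s r) := by
  classical
  have hl : (0 : ℝ) ≤ (2 * N + 7) / (12 * N) := by positivity
  refine (Cl.split (fun ρ => U.rel (2 * s + 2) (r ρ).1) (fun α => (2 * N + 7) / (12 * N) *
    U.T s fun ρ : {ρ // U.rel (2 * s + 2) (r ρ).1 = α} => r ρ) fun α => ?_).mono ?_
  · have ha := hr.sub (S' := U.S) (fun i => U.rel (2 * s + 2) i = α) fun ρ _ => hr.mem ρ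
    by_cases h0 : ∀ a b : {ρ // U.rel (2 * s + 2) (r ρ).1 = α},
        Q.mu (U.u (r a).1) (U.u (r b).1) ≤ 2 * s
    · refine (Cl.base fun ρ => hint _).mono (le_of_eq ?_)
      rw [T, sum_eq_zero fun a _ => sum_eq_zero fun b _ => ?_, mul_zero]
      rw [max_eq_right (sub_nonpos.2 (h0 a b)), Int.cast_zero]
    push Not at h0
    obtain ⟨a, b, hab⟩ := h0
    have hs := U.sgn _ (hr.mem a) _ (hr.mem b) (by omega)
    refine (h _ _ (r a).1 _ ha (hint a).1 (hint a).2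
      (fun ρ => (U.rel_iff _ _ _).1 (ρ.2.trans a.2.symm))
      (ha.cnt hN U.sg (a := a) (b := b) fun e => hs (congrArg U.sg e))).mono ?_
    have e : ((2 * N + 7) / (3 * N) : ℝ) = (2 * N + 7) / (12 * N) * 4 := by
      rw [div_mul_eq_mul_div, show (12 * N : ℝ) = 3 * N * 4 by ring,
        mul_div_mul_right _ _ (by norm_num)]
    rw [e, mul_assoc, ← mul_add, ← sum_sg, T, T, ← sum_add_distrib]
    refine mul_le_mul_of_nonneg_left (sum_le_sum fun c _ => ?_) hl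
    rw [← sum_add_distrib]
    refine sum_le_sum fun d _ => ?_
    have hs := U.sgn _ (hr.mem c) _ (hr.mem d)
    split_ifs with h1
    · exact_mod_cast (by omega)
    · have : ¬ 0 < Q.mu (U.u (r c).1) (U.u (r d).1) := fun h => h1 (hs h)
      rw [add_zero]
      exact_mod_cast (by omega)
  · rw [← mul_sum]
    refine mul_le_mul_of_nonneg_left (dsum_block _ _ fun a b hne => ?_) hl
    by_contra h1
    have h2 : 2 * s < Q.mu (U.u (r a).1) (U.u (r b).1) := by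
      by_contra h2
      rw [max_eq_right (by omega)] at h1
      simp at h1
    obtain ⟨z, hz⟩ := U.even _ (hr.mem a) _ (hr.mem b)
    have h3 := (Q.mu_pos (U.ne _) (U.add_ne _ (hr.mem a) _ (hr.mem b))
      ((U.v0 _).trans (U.v0 _).symm) (by omega)).2
    rw [U.v0] at h3
    exact hne ((U.rel_iff _ _ _).2 (Or.inr (by omega)))

end Lev

end Pool.Agent.Lib.MP_44626f_nt.FF
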