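import Pool.Agent.Lib.MP_44626f_nt.FF.Step

/-!
The determinant bound for rows on one level, by descent along the tree of clusters.
-/

open Polynomial Finset

noncomputable section

namespace Pool.Agent.Lib.MP_44626f_nt.FF

variable {K : Type} [Field K] {I : Type} {Q : Place K} {N : ℕ}

lemma Cl.trans {ι : Type} [Fintype ι] [DecidableEq ι] {r : ι → I × Bool} {σ : ℤ}
    {A B A' B' : Alg K I} {α β τ : ℕ} {x y : ℝ} {p : K[X]} {b : K}
    (hA : A = Q.pi ^ α • A' + aeval B p) (hB : B = Q.pi ^ β • B' + algebraMap K _ b)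
    (hp : Q.PGe p 0) (hb : Q.Ge b 0) (h : Cl Q (σ + τ) A' B' r x)
    (hg : ∀ a : ι → Fin 3 × ℕ, Function.Injective a → y + τ * #{ρ | (r ρ).2 = true}
      ≤ ∑ c, ((α * (a c).1 + β * (a c).2 : ℕ) : ℝ)) : Cl Q σ A B r (x + y) := by
  refine ((h.scale hg).of_sub fun F hF => ?_).mono (le_of_eq (by push_cast; ring))
  rw [hA] at hF
  have h1 := hF.shear hp
  rw [hB] at h1
  exact h1.shift hb

/-- a function seen on the disc with centre `c` and radius `a` -/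
def zoom (Q : Place K) (a : ℤ) (W : Alg K I) (c : K) : Alg K I :=
  Q.pi ^ (-a) • (W - algebraMap K _ c)

lemma zoom_fst (a : ℤ) (W : Alg K I) (c : K) (i : I) :
    (zoom Q a W c i).fst = Q.pi ^ (-a) * ((W i).fst - c) := by
  simp [zoom, TrivSqZeroExt.algebraMap_eq_inl]

lemma zoom_snd (a : ℤ) (W : Alg K I) (c : K) (i : I) :
    (zoom Q a W c i).snd = Q.pi ^ (-a) * (W i).snd := by
  simp [zoom, TrivSqZeroExt.algebraMap_eq_inl]

lemma zoom_eq (a : ℤ) (n : ℕ) (W : Alg K I) (c d : K) :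
    zoom Q a W c = Q.pi ^ n • zoom Q (a + n) W d + algebraMap K _ (Q.pi ^ (-a) * (d - c)) := by
  have e : Q.pi ^ n * Q.pi ^ (-(a + n)) = Q.pi ^ (-a) := by
    rw [← zpow_natCast, ← zpow_add₀ Q.pi_ne]; congr 1; ring
  simp only [zoom, smul_smul, e, Algebra.algebraMap_eq_smul_one]
  module

lemma eq_zoom (n : ℕ) (W : Alg K I) (d : K) :
    W = Q.pi ^ n • zoom Q n W d + algebraMap K _ d := by
  simpa [zoom] using zoom_eq (Q := Q) 0 n W 0 d

namespace Lev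

variable (U : Lev Q I)

/-- the fourth powers -/
def XX : Alg K I := fun i => TrivSqZeroExt.inl (U.u i ^ 4)

/-- the logarithmic derivatives, as the variable of differentiation -/
def TT : Alg K I := fun i => TrivSqZeroExt.inl (Q.L (U.u i)) + DualNumber.eps

def Y (a : ℤ) (i : I) : Alg K I := zoom Q a U.XX (U.u i ^ 4)

def P (a : ℤ) (i : I) : Alg K I := zoom Q a U.TT (Q.L (U.u i))

def Z (i : I) : Alg K I :=
  zoom Q 3 (U.XX - (2 * U.u i ^ 4 * Q.pi) • (U.TT - algebraMap K _ (Q.L (U.u i)))) (U.u i ^ 4)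

lemma ge_X (i : I) : Q.Ge (U.u i ^ 4) 0 := by simpa [U.v0] using (Q.ge_self (U.u i)).pow 4

lemma ge_T (i : I) : Q.Ge (Q.L (U.u i)) 0 := by simpa [U.v0] using Q.ge_L (U.ne i)

lemma ge_2X (i : I) : Q.Ge (2 * U.u i ^ 4) 0 := by simpa using (Q.ge_nat 2).mul (U.ge_X i)

lemma dint_XX (σ : ℤ) (i : I) : DInt Q σ (U.XX i) :=
  ⟨by simpa [XX] using U.ge_X i, by simpa [XX] using Q.ge_zero _⟩

lemma dint_TT (i : I) : DInt Q 0 (U.TT i) :=
  ⟨by simpa [TT] using U.ge_T i, by simpa [TT] using Q.ge_one⟩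

lemma dint_Y {a : ℤ} {i j : I} (σ : ℤ) (h : U.rel a i j) : DInt Q σ (U.Y a j i) :=
  ⟨by rw [Y, zoom_fst]; exact (Q.ge_pi_zpow _).mul' (by simpa [XX, rel] using h) (by simp),
    by rw [Y, zoom_snd]; simpa [XX] using Q.ge_zero _⟩

variable [CharZero K]

lemma dint_P {a σ : ℤ} {i j : I} (ha : 0 ≤ a) (hσ : a ≤ σ) (h : U.rel (a + 1) i j) :
    DInt Q σ (U.P a j i) := by
  have h1 := Q.near_ge (U.ne i) (U.ne j) (l := a + 1) (by omega) (by simpa [U.v0, rel] using h)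
  refine ⟨?_, ?_⟩
  · rw [P, zoom_fst]; exact (Q.ge_pi_zpow _).mul' (by simpa [TT] using h1) (by simp)
  · rw [P, zoom_snd]; simpa [TT] using (Q.ge_pi_zpow (-a)).mono (by omega)

lemma dint_Z {i j : I} (h : U.rel 2 i j) : DInt Q 2 (U.Z j i) := by
  have h1 := (Q.near (U.ne i) (U.ne j) (l := 2) (by omega)
    (by simpa [U.v0, rel] using h)).neg.div two_ne_zero
  rw [U.v0, Q.v_two] at h1
  refine ⟨?_, ?_⟩
  · rw [Z, zoom_fst]
    refine (Q.ge_pi_zpow _).mul' (m := 3) ?_ (by simp)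
    convert h1.mono (m := 3) (by simp) using 1
    simp [XX, TT, TrivSqZeroExt.algebraMap_eq_inl]
    ring
  · rw [Z, zoom_snd]
    refine (Q.ge_pi_zpow _).mul' (m := 1) ?_ (by simp)
    simpa [XX, TT, TrivSqZeroExt.algebraMap_eq_inl] using ((U.ge_2X j).mul Q.ge_pi).neg

/-- the claim at depth `s + 1` -/
def St (N s : ℕ) : Prop :=
  ∀ (ι : Type) [Fintype ι] [DecidableEq ι] (r : ι → I × Bool) (i : I), Adm N U.S r →
    (∀ ρ, U.rel (2 * s + 2) (r ρ).1 i) → Cl Q (2 * s + 1) (U.Y (2 * s + 2) i) (U.P (2 * s + 1) i) r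
      ((2 * N + 7) / (12 * N) * U.T (s + 1) r)

lemma st_int {s : ℕ} {i j : I} (h : U.rel (2 * s + 2) i j) :
    DInt Q (2 * s + 1) (U.Y (2 * s + 2) j i) ∧ DInt Q (2 * s + 1) (U.P (2 * s + 1) j i) :=
  ⟨U.dint_Y _ h, U.dint_P (by omega) le_rfl (by rwa [add_assoc])⟩

lemma st_step (hN : 4000 ≤ N) {s : ℕ} (h : U.St N (s + 1)) : U.St N s := by
  intro ι _ _ r i hr hrel
  refine U.step hN (s + 1) hr (fun ρ => U.st_int (hrel ρ)) fun ι' _ _ r' j p ha hA hB hj hc => ?_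
  have h1 := h ι' r' j ha hj
  refine Cl.trans (α := 2) (β := 2) (τ := 2) (p := C (U.Y (2 * s + 2) i j).fst)
    (b := (U.P (2 * s + 1) i j).fst) ?_ ?_ hA.1.pge_C hB.1 (by convert h1 using 1; push_cast; ring)
    fun a ha => gain22 hc ha
  · rw [aeval_C, Y, zoom_fst, zoom_eq _ 2 _ _ (U.u j ^ 4)]
    simp only [Y, XX, TrivSqZeroExt.fst_inl]
    congr 3
  · rw [P, zoom_fst, zoom_eq _ 2 _ _ (Q.L (U.u j))]
    simp only [P, TT, TrivSqZeroExt.fst_add, TrivSqZeroExt.fst_inl, DualNumber.fst_eps, add_zero]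
    congr 3

lemma st_all [Finite I] (hN : 4000 ≤ N) (s : ℕ) : U.St N s := by
  obtain ⟨M, hM⟩ := Finite.exists_le fun j : I × I => (Q.mu (U.u j.1) (U.u j.2)).toNat
  have key : ∀ n s, M ≤ s + n → U.St N s := by
    intro n
    induction n with
    | zero =>
      intro s hs ι _ _ r i _ hrel
      refine (Cl.base fun ρ => U.st_int (hrel ρ)).mono (le_of_eq ?_)
      rw [T, sum_eq_zero fun a _ => sum_eq_zero fun b _ => ?_, mul_zero]
      have : (Q.mu (U.u (r a).1) (U.u (r b).1)).toNat ≤ M := hM ((r a).1, (r b).1)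
      rw [max_eq_right (by omega), Int.cast_zero]
    | succ n ih => exact fun s hs => U.st_step hN (ih (s + 1) (by omega))
  exact key M s (by omega)

lemma st_shear [Finite I] (hN : 4000 ≤ N) {ι : Type} [Fintype ι] [DecidableEq ι]
    {r : ι → I × Bool} (i : I) (hr : Adm N U.S r) (hrel : ∀ ρ, U.rel 2 (r ρ).1 i) :
    Cl Q 2 (U.Z i) (U.P 1 i) r ((2 * N + 7) / (12 * N) * U.T 1 r) := by
  refine U.step hN 1 hr (fun ρ => ⟨U.dint_Z (hrel ρ), U.dint_P (by omega) (by omega) (hrel ρ)⟩)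
    fun ι' _ _ r' j p ha hA hB hj hc => ?_
  have h1 := (U.st_all hN 1 ι' r' j ha hj).of_sub fun F hF =>
    InL.shear (p := C (-(2 * U.u i ^ 4)) * X)
      (by simpa using (U.ge_2X i).neg.pge_C.mul Place.pge_X) hF
  refine Cl.trans (α := 1) (β := 2) (τ := 1) (p := C (U.Z i j).fst)
    (b := (U.P 1 i j).fst) ?_ ?_ hA.1.pge_C hB.1 h1 fun a ha => gain12 hc ha
  · have hp := Q.pi_ne
    rw [aeval_C]
    ext l <;> simp [Z, Y, P, zoom, XX, TT, TrivSqZeroExt.algebraMap_eq_inl] <;> field_simp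
    ring
  · rw [P, zoom_fst, zoom_eq _ 2 _ _ (Q.L (U.u j))]
    simp [P, TT]

theorem tree [Finite I] (hN : 4000 ≤ N) {ι : Type} [Fintype ι] [DecidableEq ι]
    {r : ι → I × Bool} (hr : Adm N U.S r) :
    Cl Q 0 U.XX U.TT r ((2 * N + 7) / (12 * N) * U.T 0 r) := by
  refine U.step hN 0 hr (fun ρ => ⟨U.dint_XX _ _, U.dint_TT _⟩)
    fun ι' _ _ r' j p ha _ _ hj hc => ?_
  rcases le_or_gt (Fintype.card ι') 6 with h6 | h6
  · refine Cl.trans (α := 2) (β := 1) (τ := 1) (p := C (U.u j ^ 4)) ?_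
      (eq_zoom 1 _ (Q.L (U.u j))) (U.ge_X j).pge_C (U.ge_T j) (U.st_all hN 0 ι' r' j ha hj)
      fun a ha => gain21 hc h6 ha
    rw [aeval_C]
    exact eq_zoom 2 _ _
  · refine Cl.trans (α := 3) (β := 1) (τ := 2)
      (p := C (U.u j ^ 4) + C (2 * U.u j ^ 4 * Q.pi) * (X - C (Q.L (U.u j)))) ?_
      (eq_zoom 1 _ (Q.L (U.u j))) ?_ (U.ge_T j) (U.st_shear hN j ha hj)
      fun a ha => gain31 hc h6 ha
    · have := eq_zoom (Q := Q) 3 (U.XX - (2 * U.u j ^ 4 * Q.pi) •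
        (U.TT - algebraMap K _ (Q.L (U.u j)))) (U.u j ^ 4)
      rw [sub_eq_iff_eq_add] at this
      rw [this, map_add, map_mul, map_sub, aeval_C, aeval_C, aeval_C, aeval_X, ← Algebra.smul_def,
        add_assoc]
      rfl
    · exact (U.ge_X j).pge_C.add ((((U.ge_2X j).mul Q.ge_pi).pge_C.mul
        (Place.pge_X.sub (U.ge_T j).pge_C)).mono (by simp))

end Lev

end Pool.Agent.Lib.MP_44626f_nt.FF
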